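import Mathlib

/-! An algebra of dimension 18. -/

set_option linter.unusedSectionVars false

namespace Pool.Agent.P.MP_3d2265_gt.DT

/-- names of the basis elements; `p, q, r` are the arrows `x', y', z'` -/
inductive Bn : Type
  | e0 | l | x | y | z | zl | e1 | p | q | r | e2 | px | py | qx | qy | rx | ry | rz
  deriving DecidableEq

instance : Fintype Bn := ⟨{.e0, .l, .x, .y, .z, .zl, .e1, .p, .q, .r, .e2, .px, .py, .qx, .qy, .rx,
  .ry, .rz}, fun i => by cases i <;> decide⟩

/-- the algebra -/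
def Al (k : Type) : Type := Bn → k

variable {k : Type} [Field k]

instance : AddCommGroup (Al k) := inferInstanceAs (AddCommGroup (Bn → k))

instance : Module k (Al k) := inferInstanceAs (Module k (Bn → k))

instance : Module.Finite k (Al k) := inferInstanceAs (Module.Finite k (Bn → k))

/-- the coordinates of a product -/
def mc (a b : Al k) : Bn → k
  | .e0 => a .e0 * b .e0
  | .l => a .e0 * b .l + a .l * b .e0
  | .x => a .e1 * b .x + a .x * b .e0
  | .y => a .e1 * b .y + a .y * b .e0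
  | .z => a .e1 * b .z + a .z * b .e0
  | .zl => a .e1 * b .zl + a .zl * b .e0 + a .z * b .l
  | .e1 => a .e1 * b .e1
  | .p => a .e2 * b .p + a .p * b .e1
  | .q => a .e2 * b .q + a .q * b .e1
  | .r => a .e2 * b .r + a .r * b .e1
  | .e2 => a .e2 * b .e2
  | .px => a .e2 * b .px + a .px * b .e0 + a .p * b .x
  | .py => a .e2 * b .py + a .py * b .e0 + a .p * b .y + a .r * b .zl + a .rz * b .l
  | .qx => a .e2 * b .qx + a .qx * b .e0 + a .q * b .x - a .r * b .zl - a .rz * b .l
  | .qy => a .e2 * b .qy + a .qy * b .e0 + a .q * b .y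
  | .rx => a .e2 * b .rx + a .rx * b .e0 + a .p * b .z + a .r * b .x
  | .ry => a .e2 * b .ry + a .ry * b .e0 + a .q * b .z + a .r * b .y
  | .rz => a .e2 * b .rz + a .rz * b .e0 + a .r * b .z

/-- a basis element -/
def bs (i : Bn) : Al k := fun j => if j = i then 1 else 0

instance : Mul (Al k) := ⟨mc⟩

instance : One (Al k) := ⟨bs .e0 + bs .e1 + bs .e2⟩

theorem Al.ext {a b : Al k} (h : ∀ i, a i = b i) : a = b := funext h

@[simp] theorem add_ap (a b : Al k) (i : Bn) : (a + b) i = a i + b i := rfl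
@[simp] theorem sub_ap (a b : Al k) (i : Bn) : (a - b) i = a i - b i := rfl
@[simp] theorem neg_ap (a : Al k) (i : Bn) : (-a) i = -a i := rfl
@[simp] theorem zero_ap (i : Bn) : (0 : Al k) i = 0 := rfl
@[simp] theorem smul_ap (c : k) (a : Al k) (i : Bn) : (c • a) i = c * a i := rfl
@[simp] theorem mul_ap (a b : Al k) (i : Bn) : (a * b) i = mc a b i := rfl
@[simp] theorem bs_ap (i j : Bn) : (bs i : Al k) j = if j = i then 1 else 0 := rfl
theorem one_ap (i : Bn) : (1 : Al k) i = bs .e0 i + bs .e1 i + bs .e2 i := rfl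

instance : Ring (Al k) where
  __ := (inferInstance : AddCommGroup (Al k))
  left_distrib a b c := Al.ext fun i => by cases i <;> simp only [mul_ap, add_ap, mc] <;> ring
  right_distrib a b c := Al.ext fun i => by cases i <;> simp only [mul_ap, add_ap, mc] <;> ring
  zero_mul a := Al.ext fun i => by cases i <;> simp [mc]
  mul_zero a := Al.ext fun i => by cases i <;> simp [mc]
  mul_assoc a b c := Al.ext fun i => by cases i <;> simp only [mul_ap, mc] <;> ring
  one_mul a := Al.ext fun i => by cases i <;> simp [mc, one_ap]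
  mul_one a := Al.ext fun i => by cases i <;> simp [mc, one_ap]

instance : Algebra k (Al k) := Algebra.ofModule
  (fun c a b => Al.ext fun i => by cases i <;> simp only [mul_ap, smul_ap, mc] <;> ring)
  (fun c a b => Al.ext fun i => by cases i <;> simp only [mul_ap, smul_ap, mc] <;> ring)

theorem one_eq : (1 : Al k) = bs .e0 + bs .e1 + bs .e2 := rfl

section rel
open Bn

theorem e0_e0 : (bs e0 * bs e0 : Al k) = bs e0 := Al.ext fun i => by cases i <;> simp [mc]
theorem e1_e1 : (bs e1 * bs e1 : Al k) = bs e1 := Al.ext fun i => by cases i <;> simp [mc]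
theorem e2_e2 : (bs e2 * bs e2 : Al k) = bs e2 := Al.ext fun i => by cases i <;> simp [mc]
theorem e0_l : (bs e0 * bs l : Al k) = bs l := Al.ext fun i => by cases i <;> simp [mc]
theorem l_e0 : (bs l * bs e0 : Al k) = bs l := Al.ext fun i => by cases i <;> simp [mc]
theorem e1_x : (bs e1 * bs x : Al k) = bs x := Al.ext fun i => by cases i <;> simp [mc]
theorem e1_y : (bs e1 * bs y : Al k) = bs y := Al.ext fun i => by cases i <;> simp [mc]
theorem e1_z : (bs e1 * bs z : Al k) = bs z := Al.ext fun i => by cases i <;> simp [mc]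
theorem e2_p : (bs e2 * bs p : Al k) = bs p := Al.ext fun i => by cases i <;> simp [mc]
theorem e2_q : (bs e2 * bs q : Al k) = bs q := Al.ext fun i => by cases i <;> simp [mc]
theorem e2_r : (bs e2 * bs r : Al k) = bs r := Al.ext fun i => by cases i <;> simp [mc]
theorem e2_rz : (bs e2 * bs rz : Al k) = bs rz := Al.ext fun i => by cases i <;> simp [mc]
theorem l_l : (bs l * bs l : Al k) = 0 := Al.ext fun i => by cases i <;> simp [mc]
theorem x_l : (bs x * bs l : Al k) = 0 := Al.ext fun i => by cases i <;> simp [mc]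
theorem y_l : (bs y * bs l : Al k) = 0 := Al.ext fun i => by cases i <;> simp [mc]
theorem r_z : (bs r * bs z : Al k) = bs rz := Al.ext fun i => by cases i <;> simp [mc]
theorem p_z : (bs p * bs z : Al k) = bs r * bs x := Al.ext fun i => by cases i <;> simp [mc]
theorem q_z : (bs q * bs z : Al k) = bs r * bs y := Al.ext fun i => by cases i <;> simp [mc]
theorem rz_l : (bs rz * bs l : Al k) = bs p * bs y - bs q * bs x :=
  Al.ext fun i => by cases i <;> simp [mc]

end rel

/-- the left ideal of the elements whose coordinates satisfy a closed condition -/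
def JM (k : Type) [Field k] : Submodule (Al k) (Al k) where
  carrier := {a | a .e0 = 0 ∧ a .z = 0 ∧ a .rz = 0}
  add_mem' := by rintro a b ⟨h1, h2, h3⟩ ⟨h4, h5, h6⟩; simp [*]
  zero_mem' := by simp
  smul_mem' := by rintro c a ⟨h1, h2, h3⟩; simp [mc, *]

/-- the annihilator of the generator of the simple module at the vertex 2 -/
def JS (k : Type) [Field k] : Submodule (Al k) (Al k) where
  carrier := {a | a .e2 = 0}
  add_mem' := by intro a b h1 h2; simp_all
  zero_mem' := by simp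
  smul_mem' := by intro c a h; simp_all [mc]

/-- `A (1 - e1) + A z'` -/
def J1 (k : Type) [Field k] : Submodule (Al k) (Al k) where
  carrier := {a | a .e1 = 0 ∧ a .p = 0 ∧ a .q = 0}
  add_mem' := by rintro a b ⟨h1, h2, h3⟩ ⟨h4, h5, h6⟩; simp [*]
  zero_mem' := by simp
  smul_mem' := by rintro c a ⟨h1, h2, h3⟩; simp [mc, *]

/-- `A (1 - e0) + A z` -/
def J0 (k : Type) [Field k] : Submodule (Al k) (Al k) where
  carrier := {a | a .e0 = 0 ∧ a .l = 0 ∧ a .x = 0 ∧ a .y = 0 ∧ a .zl = 0 ∧ a .px = 0 ∧ a .py = 0 ∧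
    a .qx = 0 ∧ a .qy = 0}
  add_mem' := by rintro a b ⟨_, _, _, _, _, _, _, _, _⟩ ⟨_, _, _, _, _, _, _, _, _⟩; simp [*]
  zero_mem' := by simp
  smul_mem' := by rintro c a ⟨_, _, _, _, _, _, _, _, _⟩; simp [mc, *]

/-- `A (1 - e0) + A z + A l` -/
def JD (k : Type) [Field k] : Submodule (Al k) (Al k) where
  carrier := {a | a .e0 = 0 ∧ a .x = 0 ∧ a .y = 0 ∧ a .px = 0 ∧ a .qx = -a .py ∧ a .qy = 0}
  add_mem' := by rintro a b ⟨_, _, _, _, _, _⟩ ⟨_, _, _, _, _, _⟩; simp [*]; ring
  zero_mem' := by simp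
  smul_mem' := by rintro c a ⟨_, _, _, _, _, _⟩; simp [mc, *]; ring

theorem mem_JM {a : Al k} : a ∈ JM k ↔ a .e0 = 0 ∧ a .z = 0 ∧ a .rz = 0 := Iff.rfl
theorem mem_JS {a : Al k} : a ∈ JS k ↔ a .e2 = 0 := Iff.rfl
theorem mem_J1 {a : Al k} : a ∈ J1 k ↔ a .e1 = 0 ∧ a .p = 0 ∧ a .q = 0 := Iff.rfl
theorem mem_J0 {a : Al k} : a ∈ J0 k ↔ a .e0 = 0 ∧ a .l = 0 ∧ a .x = 0 ∧ a .y = 0 ∧ a .zl = 0 ∧
    a .px = 0 ∧ a .py = 0 ∧ a .qx = 0 ∧ a .qy = 0 := Iff.rfl
theorem mem_JD {a : Al k} : a ∈ JD k ↔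
    a .e0 = 0 ∧ a .x = 0 ∧ a .y = 0 ∧ a .px = 0 ∧ a .qx = -a .py ∧ a .qy = 0 := Iff.rfl

/-- The Koszul condition for a module. -/
structure KZ (k N : Type) [Field k] [AddCommGroup N] [Module (Al k) N] : Prop where
  hl : ∀ v : N, (bs .l : Al k) • v = 0
  h0 : ∀ v : N, (bs .e0 : Al k) • v = v → (bs .x : Al k) • v = 0 → (bs .y : Al k) • v = 0 → v = 0
  h1 : ∀ b c : N, (bs .e1 : Al k) • b = b → (bs .e1 : Al k) • c = c →
    (bs .p : Al k) • c = (bs .q : Al k) • b →
    ∃ a, (bs .e0 : Al k) • a = a ∧ (bs .x : Al k) • a = b ∧ (bs .y : Al k) • a = c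
  h2 : ∀ d : N, (bs .e2 : Al k) • d = d → ∃ b c, (bs .e1 : Al k) • b = b ∧ (bs .e1 : Al k) • c = c ∧
    (bs .p : Al k) • c - (bs .q : Al k) • b = d

/-- power series in two variables -/
abbrev Rg (k : Type) [Field k] : Type := PowerSeries (PowerSeries k)

/-- the inner variable -/
noncomputable def sv (k : Type) [Field k] : Rg k := PowerSeries.C PowerSeries.X

/-- the outer variable -/
noncomputable def tv (k : Type) [Field k] : Rg k := PowerSeries.X

/-- three copies of the power series ring -/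
def VV (k : Type) [Field k] : Type := Rg k × Rg k × Rg k

noncomputable instance : AddCommGroup (VV k) := inferInstanceAs (AddCommGroup (Rg k × Rg k × Rg k))

noncomputable instance : Module (Rg k) (VV k) :=
  inferInstanceAs (Module (Rg k) (Rg k × Rg k × Rg k))

/-- the constants -/
noncomputable def cc (k : Type) [Field k] : k →+* Rg k := PowerSeries.C.comp PowerSeries.C

noncomputable instance : SMul (Al k) (VV k) := ⟨fun a v =>
  (cc k (a .e0) * v.1,
    cc k (a .e1) * v.2.1 + (cc k (a .x) * sv k + cc k (a .y) * tv k + cc k (a .z)) * v.1,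
    cc k (a .e2) * v.2.2 + (cc k (a .p) * sv k + cc k (a .q) * tv k + cc k (a .r)) * v.2.1 +
      (cc k (a .px) * sv k ^ 2 + (cc k (a .py) + cc k (a .qx)) * (sv k * tv k) +
        cc k (a .qy) * tv k ^ 2 + cc k (a .rx) * sv k + cc k (a .ry) * tv k + cc k (a .rz)) * v.1)⟩

theorem VV.ext {v v' : VV k} (h1 : v.1 = v'.1) (h2 : v.2.1 = v'.2.1) (h3 : v.2.2 = v'.2.2) :
    v = v' := Prod.ext h1 (Prod.ext h2 h3)

@[simp] theorem vv_add1 (v v' : VV k) : (v + v').1 = v.1 + v'.1 := rfl
@[simp] theorem vv_add2 (v v' : VV k) : (v + v').2.1 = v.2.1 + v'.2.1 := rfl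
@[simp] theorem vv_add3 (v v' : VV k) : (v + v').2.2 = v.2.2 + v'.2.2 := rfl
@[simp] theorem vv_sub1 (v v' : VV k) : (v - v').1 = v.1 - v'.1 := rfl
@[simp] theorem vv_sub2 (v v' : VV k) : (v - v').2.1 = v.2.1 - v'.2.1 := rfl
@[simp] theorem vv_sub3 (v v' : VV k) : (v - v').2.2 = v.2.2 - v'.2.2 := rfl
@[simp] theorem vv_zero1 : (0 : VV k).1 = 0 := rfl
@[simp] theorem vv_zero2 : (0 : VV k).2.1 = 0 := rfl
@[simp] theorem vv_zero3 : (0 : VV k).2.2 = 0 := rfl
@[simp] theorem vv_r1 (c : Rg k) (v : VV k) : (c • v).1 = c * v.1 := rfl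
@[simp] theorem vv_r2 (c : Rg k) (v : VV k) : (c • v).2.1 = c * v.2.1 := rfl
@[simp] theorem vv_r3 (c : Rg k) (v : VV k) : (c • v).2.2 = c * v.2.2 := rfl
@[simp] theorem vv_a1 (a : Al k) (v : VV k) : (a • v).1 = cc k (a .e0) * v.1 := rfl
@[simp] theorem vv_a2 (a : Al k) (v : VV k) : (a • v).2.1 =
    cc k (a .e1) * v.2.1 + (cc k (a .x) * sv k + cc k (a .y) * tv k + cc k (a .z)) * v.1 := rfl
@[simp] theorem vv_a3 (a : Al k) (v : VV k) : (a • v).2.2 =
    cc k (a .e2) * v.2.2 + (cc k (a .p) * sv k + cc k (a .q) * tv k + cc k (a .r)) * v.2.1 +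
      (cc k (a .px) * sv k ^ 2 + (cc k (a .py) + cc k (a .qx)) * (sv k * tv k) +
        cc k (a .qy) * tv k ^ 2 + cc k (a .rx) * sv k + cc k (a .ry) * tv k + cc k (a .rz)) * v.1 :=
  rfl

noncomputable instance : Module (Al k) (VV k) where
  one_smul v := VV.ext (by simp [one_ap]) (by simp [one_ap]) (by simp [one_ap])
  mul_smul a b v := VV.ext (by simp [mc]; ring) (by simp [mc]; ring) (by simp [mc]; ring)
  smul_zero a := VV.ext (by simp) (by simp) (by simp)
  smul_add a v v' := VV.ext (by simp; ring) (by simp; ring) (by simp; ring)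
  add_smul a b v := VV.ext (by simp; ring) (by simp; ring) (by simp; ring)
  zero_smul v := VV.ext (by simp) (by simp) (by simp)

instance : SMulCommClass (Rg k) (Al k) (VV k) :=
  ⟨fun c a v => VV.ext (by simp; ring) (by simp; ring) (by simp; ring)⟩

/-- multiplication by a power series -/
noncomputable def rho (c : Rg k) : VV k →ₗ[Al k] VV k := DistribSMul.toLinearMap (Al k) (VV k) c

@[simp] theorem rho_apply (c : Rg k) (v : VV k) : rho c v = c • v := rfl

/-- the constants at the vertex 2 -/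
def VS (k : Type) [Field k] : Submodule (Al k) (VV k) where
  carrier := {v | v.1 = 0 ∧ v.2.1 = 0 ∧ ∃ c, v.2.2 = cc k c}
  add_mem' := by
    rintro a b ⟨h1, h2, c, h3⟩ ⟨h4, h5, d, h6⟩
    exact ⟨by simp [*], by simp [*], c + d, by simp [*]⟩
  zero_mem' := ⟨rfl, rfl, 0, by simp⟩
  smul_mem' := by
    rintro a v ⟨h1, h2, c, h3⟩
    exact ⟨by simp [*], by simp [*], a .e2 * c, by simp [*]⟩

theorem mem_VS {v : VV k} : v ∈ VS k ↔ v.1 = 0 ∧ v.2.1 = 0 ∧ ∃ c, v.2.2 = cc k c := Iff.rfl

end Pool.Agent.P.MP_3d2265_gt.DT
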