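import Mathlib

/-! Compact, local and acyclic objects of a derived category of modules. -/

namespace Pool.Agent.P.MP_3d2265_gt.DT

open CategoryTheory Limits

universe w v u

/-- `C` is compact: every morphism from `C` to a coproduct is a finite sum of morphisms that
factor through the summands. -/
def Cpt {D : Type u} [Category.{v} D] [Preadditive D] (C : D) : Prop :=
  ∀ (ι : Type) (Y : ι → D) (c : Cofan Y), Nonempty (IsColimit c) → ∀ f : C ⟶ c.pt,
    ∃ (s : Finset ι) (g : ∀ i, C ⟶ Y i), f = ∑ i ∈ s, g i ≫ c.inj i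

variable {A : Type} [Ring A] [HasDerivedCategory.{w} (ModuleCat.{0} A)]

/-- `Y` receives no nonzero morphism from a shift of the module `M`. -/
def Loc (M : ModuleCat.{0} A) (Y : DerivedCategory (ModuleCat.{0} A)) : Prop :=
  ∀ (n : ℤ) (f : (DerivedCategory.singleFunctor _ n).obj M ⟶ Y), f = 0

/-- `X` has no nonzero morphism to an `M`-local object. -/
def Acy (M : ModuleCat.{0} A) (X : DerivedCategory (ModuleCat.{0} A)) : Prop :=
  ∀ Y, Loc M Y → ∀ f : X ⟶ Y, f = 0

end Pool.Agent.P.MP_3d2265_gt.DT
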