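import Pool.Agent.P.MP_3d2265_gt.DT.BaseA
import Pool.Agent.P.MP_3d2265_gt.DT.Defs

/-! Complexes: sums, products, total modules, cochains, the resolution. -/

set_option linter.unusedSectionVars false

namespace Pool.Agent.P.MP_3d2265_gt.DT

open CategoryTheory Limits Finset
open scoped Classical

universe w

/-- complexes of modules -/
abbrev Cx (A : Type) [Ring A] := CochainComplex (ModuleCat.{0} A) ℤ

/-- the derived category -/
abbrev Dc (A : Type) [Ring A] [HasDerivedCategory.{w} (ModuleCat.{0} A)] :=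
  DerivedCategory (ModuleCat.{0} A)

section gen
variable {A : Type} [Ring A] {ι : Type}

theorem cx_dd (K : Cx A) (p q r : ℤ) (v : K.X p) : K.d q r (K.d p q v) = 0 := by
  rw [← ModuleCat.comp_apply, K.d_comp_d]; rfl

theorem cx_comm {K L : Cx A} (f : K ⟶ L) (p q : ℤ) (v : K.X p) :
    L.d p q (f.f p v) = f.f q (K.d p q v) := by
  rw [← ModuleCat.comp_apply, f.comm, ModuleCat.comp_apply]

theorem cx_ext {K L : Cx A} {f g : K ⟶ L} (h : ∀ q v, f.f q v = g.f q v) : f = g :=
  HomologicalComplex.hom_ext _ _ fun q => ModuleCat.hom_ext (LinearMap.ext (h q))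

/-- a chain map from linear maps -/
def mkHom {K L : Cx A} (f : ∀ q, K.X q →ₗ[A] L.X q)
    (h : ∀ p q v, p + 1 = q → L.d p q (f p v) = f q (K.d p q v)) : K ⟶ L where
  f q := ModuleCat.ofHom (f q)
  comm' p q hpq := ModuleCat.hom_ext (LinearMap.ext fun v => h p q v hpq)

@[simp] theorem mkHom_f {K L : Cx A} (f : ∀ q, K.X q →ₗ[A] L.X q) (h) (q : ℤ) (v : K.X q) :
    (mkHom f h).f q v = f q v := rfl

/-- quasi-isomorphisms on elements -/
def QE {K L : Cx A} (f : K ⟶ L) : Prop := ∀ q : ℤ,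
  (∀ z : L.X q, L.d q (q + 1) z = 0 →
    ∃ z' w, K.d q (q + 1) z' = 0 ∧ z = f.f q z' + L.d (q - 1) q w) ∧
  ∀ (z' : K.X q) (w : L.X (q - 1)), K.d q (q + 1) z' = 0 → f.f q z' = L.d (q - 1) q w →
    ∃ w', z' = K.d (q - 1) q w'

/-- the direct sum of complexes -/
noncomputable def sumC (K : ι → Cx A) : Cx A where
  X q := ModuleCat.of A (Π₀ i, (K i).X q)
  d p q := ModuleCat.ofHom (DFinsupp.mapRange.linearMap fun i => ((K i).d p q).hom)
  shape p q h := ModuleCat.hom_ext (LinearMap.ext fun v => DFinsupp.ext fun i => by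
    change (K i).d p q (v i) = 0
    rw [(K i).shape p q h]; rfl)
  d_comp_d' p q r _ _ := ModuleCat.hom_ext (LinearMap.ext fun v => DFinsupp.ext fun i =>
    cx_dd (K i) p q r (v i))

/-- the product of complexes -/
noncomputable def prodC (K : ι → Cx A) : Cx A where
  X q := ModuleCat.of A (∀ i, (K i).X q)
  d p q := ModuleCat.ofHom (LinearMap.piMap fun i => ((K i).d p q).hom)
  shape p q h := ModuleCat.hom_ext (LinearMap.ext fun v => funext fun i => by
    change (K i).d p q (v i) = 0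
    rw [(K i).shape p q h]; rfl)
  d_comp_d' p q r _ _ := ModuleCat.hom_ext (LinearMap.ext fun v => funext fun i =>
    cx_dd (K i) p q r (v i))

variable (K : ι → Cx A)

theorem sumC_d (p q : ℤ) (v : Π₀ i, (K i).X p) (i : ι) :
    (show Π₀ i, (K i).X q from (sumC K).d p q v) i = (K i).d p q (v i) := rfl

theorem prodC_d (p q : ℤ) (v : ∀ i, (K i).X p) (i : ι) :
    (show ∀ i, (K i).X q from (prodC K).d p q v) i = (K i).d p q (v i) := rfl

theorem sumC_d_single (p q : ℤ) (i : ι) (v : (K i).X p) :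
    (sumC K).d p q (DFinsupp.single i v) = DFinsupp.single i ((K i).d p q v) :=
  DFinsupp.mapRange_single (f := fun i => ((K i).d p q).hom) (hf := fun _ => map_zero _)

/-- inclusion of a summand -/
noncomputable def inj (i : ι) : K i ⟶ sumC K :=
  mkHom (L := sumC K) (fun q => DFinsupp.lsingle (M := fun i => (K i).X q) i)
    fun p q v _ => sumC_d_single K p q i v

/-- projection of the sum to a summand -/
noncomputable def prs (i : ι) : sumC K ⟶ K i :=
  mkHom (fun _ => DFinsupp.lapply i) fun _ _ _ _ => rfl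

/-- projection of the product to a factor -/
noncomputable def prp (i : ι) : prodC K ⟶ K i :=
  mkHom (fun _ => LinearMap.proj i) fun _ _ _ _ => rfl

theorem inj_f (i : ι) (q : ℤ) (v : (K i).X q) : (inj K i).f q v = DFinsupp.single i v := rfl

theorem prs_f (i : ι) (q : ℤ) (v : Π₀ i, (K i).X q) : (prs K i).f q v = v i := rfl

theorem prp_f (i : ι) (q : ℤ) (v : ∀ i, (K i).X q) : (prp K i).f q v = v i := rfl

variable {K}

/-- induction on the elements of a sum -/
theorem sumC_ind {q : ℤ} {P : (sumC K).X q → Prop} (h0 : P 0)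
    (h1 : ∀ i v, P ((inj K i).f q v)) (h2 : ∀ a b, P a → P b → P (a + b)) (v : (sumC K).X q) :
    P v :=
  DFinsupp.induction (p := P) v h0 fun i b _ _ _ h => h2 _ _ (h1 i b) h

theorem sumC_ext {Z : Cx A} {f g : sumC K ⟶ Z} (h : ∀ i, inj K i ≫ f = inj K i ≫ g) : f = g :=
  cx_ext fun q => sumC_ind (by rw [map_zero, map_zero])
    (fun i v => congrArg (fun u : K i ⟶ Z => u.f q v) (h i))
    fun a b ha hb => by rw [map_add, map_add, ha, hb]

/-- the map out of a sum, in one degree -/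
noncomputable def dsc {Z : Cx A} (g : ∀ i, K i ⟶ Z) (q : ℤ) : (sumC K).X q →ₗ[A] Z.X q :=
  DFinsupp.lsum ℕ fun i => ((g i).f q).hom

theorem dsc_inj {Z : Cx A} (g : ∀ i, K i ⟶ Z) (q : ℤ) (i : ι) (v : (K i).X q) :
    dsc g q ((inj K i).f q v) = (g i).f q v :=
  DFinsupp.lsum_single ℕ (fun i => ((g i).f q).hom) i v

/-- the map out of a sum -/
noncomputable def desc {Z : Cx A} (g : ∀ i, K i ⟶ Z) : sumC K ⟶ Z :=
  mkHom (fun q => dsc g q) fun p q v _ => by
    refine sumC_ind (P := fun v => Z.d p q (dsc g p v) = dsc g q ((sumC K).d p q v))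
      (by simp only [map_zero]) (fun i v => ?_) (fun a b ha hb => by simp only [map_add, ha, hb]) v
    rw [cx_comm, dsc_inj, dsc_inj, cx_comm]

@[reassoc] theorem inj_desc {Z : Cx A} (g : ∀ i, K i ⟶ Z) (i : ι) : inj K i ≫ desc g = g i :=
  cx_ext fun q v => dsc_inj g q i v

/-- the map into a product -/
noncomputable def lift {Z : Cx A} (g : ∀ i, Z ⟶ K i) : Z ⟶ prodC K :=
  mkHom (fun q => LinearMap.pi fun i => ((g i).f q).hom) fun p q v _ =>
    funext fun i => cx_comm (g i) p q v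

@[reassoc] theorem lift_prp {Z : Cx A} (g : ∀ i, Z ⟶ K i) (i : ι) : lift g ≫ prp K i = g i := rfl

/-- a module in one degree, as a complex -/
noncomputable abbrev sg (j : ℤ) : ModuleCat.{0} A ⥤ Cx A :=
  HomologicalComplex.single (ModuleCat.{0} A) (ComplexShape.up ℤ) j

/-- one minus the shift -/
noncomputable def tel (X : ℕ → Cx A) (u : ∀ m, X m ⟶ X (m + 1)) : sumC X ⟶ sumC X :=
  desc fun m => inj X m - u m ≫ inj X (m + 1)

/-- A module with a differential, a sign and truncations, complete and separated. -/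
structure Fil (A T : Type) [Ring A] [AddCommGroup T] [Module A T] where
  D : T →ₗ[A] T
  σ : T →ₗ[A] T
  τ : ℤ → T →ₗ[A] T
  DD : ∀ t, D (D t) = 0
  σσ : ∀ t, σ (σ t) = t
  Dσ : ∀ t, D (σ t) = -σ (D t)
  τσ : ∀ p t, τ p (σ t) = σ (τ p t)
  τD : ∀ p q t, p + 1 = q → τ q (D t) = D (τ p t)
  ττ : ∀ p q t, τ p (τ q t) = τ (min p q) t
  lim : ∀ (n : ℤ) (u : ℕ → T), (∀ m : ℕ, τ (n - m) (u m) = u m) →
    ∃ s, ∀ m : ℕ, τ (n - m) (s - ∑ i ∈ range m, u i) = s - ∑ i ∈ range m, u i
  sep : ∀ (n : ℤ) (t : T), (∀ m : ℕ, τ (n - m) t = t) → t = 0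

/-- the total module of a complex -/
abbrev Tot (Y : Cx A) : Type := ∀ q, Y.X q

/-- truncation -/
noncomputable def trn (Y : Cx A) (p : ℤ) : Tot Y →ₗ[A] Tot Y :=
  LinearMap.piMap fun q => if q ≤ p then LinearMap.id else 0

theorem trn_apply (Y : Cx A) (p q : ℤ) (t : Tot Y) : trn Y p t q = if q ≤ p then t q else 0 := by
  change (if q ≤ p then LinearMap.id else 0 : Y.X q →ₗ[A] Y.X q) (t q) = _
  split_ifs <;> rfl

/-- the structure on the total module -/
noncomputable def fil (Y : Cx A) : Fil A (Tot Y) where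
  D := LinearMap.pi fun q => (Y.d (q - 1) q).hom ∘ₗ LinearMap.proj (q - 1)
  σ := LinearMap.piMap fun q => (q.negOnePow : ℤ) • LinearMap.id
  τ := trn Y
  DD t := funext fun q => cx_dd Y _ _ q _
  σσ t := funext fun q => by
    change (q.negOnePow : ℤ) • (q.negOnePow : ℤ) • t q = t q
    rw [smul_smul, ← Units.val_mul, Int.units_mul_self, Units.val_one, one_smul]
  Dσ t := funext fun q => by
    change Y.d (q - 1) q (((q - 1).negOnePow : ℤ) • t (q - 1)) =
      -((q.negOnePow : ℤ) • Y.d (q - 1) q (t (q - 1)))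
    rw [map_zsmul, Int.negOnePow_sub, Int.negOnePow_one, mul_neg, mul_one, Units.val_neg, neg_smul]
  τσ p t := funext fun q => by
    change trn Y p _ q = (q.negOnePow : ℤ) • trn Y p t q
    rw [trn_apply, trn_apply]
    split_ifs
    exacts [rfl, (smul_zero _).symm]
  τD p r t h := funext fun q => by
    change trn Y r _ q = Y.d (q - 1) q (trn Y p t (q - 1))
    rw [trn_apply, trn_apply]
    split_ifs <;> first | rfl | omega | exact (map_zero _).symm
  ττ p r t := funext fun q => by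
    simp only [trn_apply]
    split_ifs <;> first | rfl | omega
  lim n u h := by
    have h0 : ∀ (m : ℕ) q, n - m < q → u m q = 0 := fun m q hq => by
      rw [← h m, trn_apply, if_neg (by omega)]
    refine ⟨fun q => ∑ i ∈ range ((n - q).toNat + 1), u i q, fun m => funext fun q => ?_⟩
    rw [trn_apply]
    split_ifs with hq
    · rfl
    rw [Pi.sub_apply, Finset.sum_apply, eq_comm, sub_eq_zero]
    rcases le_total m ((n - q).toNat + 1) with h1 | h1
    · exact (sum_subset (range_mono h1) fun i _ hi => h0 i q (by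
        rw [mem_range] at hi; omega)).symm
    · exact sum_subset (range_mono h1) fun i _ hi => h0 i q (by rw [mem_range] at hi; omega)
  sep n t h := funext fun q => by
    rw [← h ((n - q).toNat + 1), trn_apply, if_neg (by omega)]
    rfl

theorem fil_D (Y : Cx A) (t : Tot Y) (q : ℤ) : (fil Y).D t q = Y.d (q - 1) q (t (q - 1)) := rfl

theorem fil_σ (Y : Cx A) (t : Tot Y) (q : ℤ) : (fil Y).σ t q = (q.negOnePow : ℤ) • t q := rfl

theorem fil_τ (Y : Cx A) (p : ℤ) (t : Tot Y) (q : ℤ) :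
    (fil Y).τ p t q = if q ≤ p then t q else 0 := trn_apply Y p q t

/-- the map of total modules -/
noncomputable def tm {X Y : Cx A} (φ : X ⟶ Y) : Tot X →ₗ[A] Tot Y :=
  LinearMap.piMap fun q => (φ.f q).hom

theorem tm_apply {X Y : Cx A} (φ : X ⟶ Y) (t : Tot X) (q : ℤ) : tm φ t q = φ.f q (t q) := rfl

theorem tm_comp {X Y Z : Cx A} (φ : X ⟶ Y) (ψ : Y ⟶ Z) (t : Tot X) :
    tm (φ ≫ ψ) t = tm ψ (tm φ t) := rfl

theorem tm_D {X Y : Cx A} (φ : X ⟶ Y) (t : Tot X) : (fil Y).D (tm φ t) = tm φ ((fil X).D t) :=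
  funext fun q => cx_comm φ _ q _

theorem tm_σ {X Y : Cx A} (φ : X ⟶ Y) (t : Tot X) : (fil Y).σ (tm φ t) = tm φ ((fil X).σ t) :=
  funext fun q => (map_zsmul (φ.f q).hom _ _).symm

theorem tm_τ {X Y : Cx A} (φ : X ⟶ Y) (p : ℤ) (t : Tot X) :
    (fil Y).τ p (tm φ t) = tm φ ((fil X).τ p t) := funext fun q => by
  rw [tm_apply, fil_τ, fil_τ]
  split_ifs
  exacts [rfl, (map_zero _).symm]

variable [HasDerivedCategory.{w} (ModuleCat.{0} A)]

/-- a module in one degree, in the derived category -/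
noncomputable abbrev sd (j : ℤ) : ModuleCat.{0} A ⥤ Dc A := DerivedCategory.singleFunctor _ j

theorem Q_sg (j : ℤ) (N : ModuleCat.{0} A) : DerivedCategory.Q.obj ((sg j).obj N) = (sd j).obj N :=
  rfl

theorem Q_sg_map (j : ℤ) {N N' : ModuleCat.{0} A} (f : N ⟶ N') :
    DerivedCategory.Q.map ((sg j).map f) = (sd j).map f := rfl

/-- no morphisms from `C` to the module `N` in degree `j` -/
def Hz (C : Dc A) (j : ℤ) (N : ModuleCat.{0} A) : Prop := ∀ f : C ⟶ (sd j).obj N, f = 0

/-- the morphism induces bijections on morphisms to local objects -/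
def Eqv (M : ModuleCat.{0} A) {X X' : Dc A} (u : X ⟶ X') : Prop :=
  ∀ L, Loc M L → Function.Bijective fun f : X' ⟶ L => u ≫ f

end gen

section coch
variable {k : Type} [Field k] {T : Type} [AddCommGroup T] [Module (Al k) T]

/-- the types of the four generators -/
def eps (k : Type) [Field k] : Fin 4 → Al k := ![bs .e0, bs .e1, bs .e1, bs .e2]

/-- the depths of the four generators -/
def dep : Fin 4 → ℤ := ![0, 1, 1, 2]

/-- the matrix of the differential -/
def mat (k : Type) [Field k] : Fin 4 → Fin 4 → Al k :=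
  ![![bs .l, 0, 0, 0], ![bs .x, 0, 0, 0], ![bs .y, 0, 0, 0], ![-bs .rz, -bs .q, bs .p, 0]]

theorem eps_eps (i : Fin 4) : eps k i * eps k i = eps k i := by
  fin_cases i <;> simp [eps, e0_e0, e1_e1, e2_e2]

theorem eps_mat (i j : Fin 4) : eps k i * mat k i j = mat k i j := by
  fin_cases i <;> fin_cases j <;> simp [eps, mat, e0_l, e1_x, e1_y, e2_p, e2_q, e2_rz]

namespace Fil
variable (F : Fil (Al k) T)

/-- cochains of level `n` -/
def Co (n : ℤ) (t : Fin 4 → T) : Prop := ∀ i, eps k i • t i = t i ∧ F.τ (n - dep i) (t i) = t i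

/-- the coboundary -/
def δ (n : ℤ) (t : Fin 4 → T) : Fin 4 → T :=
  fun i => F.D (t i) + F.σ (F.τ (n + 1 - dep i) (∑ j, mat k i j • t j))

/-- every cocycle is a coboundary -/
def Ex : Prop := ∀ n t, F.Co n t → F.δ n t = 0 → ∃ s, F.Co (n - 1) s ∧ F.δ (n - 1) s = t

/-- the same for admissible cochains -/
def ExA (S : AddSubgroup T) : Prop := ∀ n t, F.Co n t → (∀ i, t i ∈ S) → F.δ n t = 0 →
  ∃ s, F.Co (n - 1) s ∧ (∀ i, s i ∈ S) ∧ F.δ (n - 1) s = t

/-- cochains below the degree `p` -/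
def G (p : ℤ) (t : Fin 4 → T) : Prop :=
  F.τ (p - 1) (t 0) = t 0 ∧ F.τ (p - 1) (t 1) = t 1 ∧ F.τ (p - 1) (t 2) = t 2 ∧
    F.τ (p - 2) (t 3) = t 3

variable {F}

theorem τ_mono {p q : ℤ} {t : T} (h : F.τ p t = t) (hpq : p ≤ q) : F.τ q t = t := by
  rw [← h, F.ττ, min_eq_right hpq]

theorem co_iff {n : ℤ} {t : Fin 4 → T} : F.Co n t ↔
    ((bs .e0 : Al k) • t 0 = t 0 ∧ F.τ n (t 0) = t 0) ∧
    ((bs .e1 : Al k) • t 1 = t 1 ∧ F.τ (n - 1) (t 1) = t 1) ∧
    ((bs .e1 : Al k) • t 2 = t 2 ∧ F.τ (n - 1) (t 2) = t 2) ∧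
    (bs .e2 : Al k) • t 3 = t 3 ∧ F.τ (n - 2) (t 3) = t 3 := by
  simp [Co, Fin.forall_fin_succ, eps, dep]

theorem δ_add (n : ℤ) (s t : Fin 4 → T) : F.δ n (s + t) = F.δ n s + F.δ n t := funext fun i => by
  simp only [δ, Pi.add_apply, map_add, smul_add, sum_add_distrib]; abel

theorem δ_sub (n : ℤ) (s t : Fin 4 → T) : F.δ n (s - t) = F.δ n s - F.δ n t := funext fun i => by
  simp only [δ, Pi.sub_apply, map_sub, smul_sub, sum_sub_distrib]; abel

theorem Co.add {n : ℤ} {s t : Fin 4 → T} (hs : F.Co n s) (ht : F.Co n t) : F.Co n (s + t) :=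
  fun i => by simp only [Pi.add_apply, smul_add, map_add, hs i, ht i, and_self]

theorem Co.sub {n : ℤ} {s t : Fin 4 → T} (hs : F.Co n s) (ht : F.Co n t) : F.Co n (s - t) :=
  fun i => by simp only [Pi.sub_apply, smul_sub, map_sub, hs i, ht i, and_self]

/-- the coboundary of a cochain, explicitly -/
theorem Co.δ_eq {n : ℤ} {t : Fin 4 → T} (h : F.Co n t) : F.δ n t =
    ![F.D (t 0) + F.σ ((bs .l : Al k) • t 0), F.D (t 1) + F.σ ((bs .x : Al k) • t 0),
      F.D (t 2) + F.σ ((bs .y : Al k) • t 0), F.D (t 3) + F.σ ((bs .p : Al k) • t 2 -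
        (bs .q : Al k) • t 1 - (bs .rz : Al k) • F.τ (n - 1) (t 0))] := by
  obtain ⟨⟨-, h0⟩, ⟨-, h1⟩, ⟨-, h2⟩, -⟩ := co_iff.1 h
  have h3 := τ_mono h0 (show n ≤ n + 1 by omega)
  have e : n + 1 - 2 = n - 1 := by ring
  funext i
  fin_cases i <;> simp [δ, mat, dep, Fin.sum_univ_four, h0, h1, h2, h3, e]
  abel

end Fil

theorem tm_δ {X Y : Cx (Al k)} (φ : X ⟶ Y) (n : ℤ) (t : Fin 4 → Tot X) :
    (fil Y).δ n (fun i => tm φ (t i)) = fun i => tm φ ((fil X).δ n t i) := funext fun i => by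
  simp only [Fil.δ, map_add, tm_D, ← tm_σ, ← tm_τ, map_sum, map_smul]

theorem tm_co {X Y : Cx (Al k)} (φ : X ⟶ Y) {n : ℤ} {t : Fin 4 → Tot X} (h : (fil X).Co n t) :
    (fil Y).Co n fun i => tm φ (t i) := fun i => by
  rw [← map_smul, tm_τ, (h i).1, (h i).2]; exact ⟨rfl, rfl⟩

/-- the idempotents of the generators in degree `q` -/
noncomputable def ee (k : Type) [Field k] (n q : ℤ) (i : Fin 4) : Al k :=
  if q ≤ n - dep i then eps k i else 0

theorem ee_ee (n q : ℤ) (i : Fin 4) : ee k n q i * ee k n q i = ee k n q i := by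
  unfold ee
  split_ifs
  exacts [eps_eps i, zero_mul _]

/-- the terms of the resolution -/
def PX (k : Type) [Field k] (n q : ℤ) : Submodule (Al k) (Fin 4 → Al k) where
  carrier := {v | ∀ i, v i * ee k n q i = v i}
  add_mem' := fun ha hb i => by rw [Pi.add_apply, add_mul, ha i, hb i]
  zero_mem' := fun i => zero_mul _
  smul_mem' := fun c v h i => by rw [Pi.smul_apply, smul_eq_mul, mul_assoc, h i]

/-- the differential of the resolution -/
noncomputable def Pd (k : Type) [Field k] (n p q : ℤ) : PX k n p →ₗ[Al k] PX k n q where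
  toFun v := ⟨fun j => (p.negOnePow : ℤ) • ((∑ i, v.1 i * mat k i j) * ee k n q j), fun j => by
    rw [smul_mul_assoc, mul_assoc, ee_ee]⟩
  map_add' v v' := Subtype.ext (funext fun j => by
    simp [add_mul, sum_add_distrib, smul_add])
  map_smul' c v := Subtype.ext (funext fun j => by
    change _ • ((∑ i, c * v.1 i * mat k i j) * _) = c * _ • ((∑ i, v.1 i * mat k i j) * _)
    simp only [mul_assoc, ← mul_sum, mul_smul_comm])

theorem Pd_val (n p q : ℤ) (v : PX k n p) (j : Fin 4) :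
    (Pd k n p q v).1 j = (p.negOnePow : ℤ) • ((∑ i, v.1 i * mat k i j) * ee k n q j) := rfl

theorem Pd_Pd (n p : ℤ) (v : PX k n p) : Pd k n (p + 1) (p + 1 + 1) (Pd k n p (p + 1) v) = 0 := by
  refine Subtype.ext (funext fun j => ?_)
  rw [Pd_val]
  refine smul_eq_zero_of_right _ ?_
  simp only [Pd_val, smul_mul_assoc, ← smul_sum]
  refine smul_eq_zero_of_right _ ?_
  by_cases h : p + 1 + 1 ≤ n
  · have h0 : p < n := by omega
    have h1 : p < n - 1 := by omega
    fin_cases j <;> simp [Fin.sum_univ_four, mat, ee, dep, eps, h, h0, h1]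
    exact Al.ext fun i => by cases i <;> simp [mc]
  · fin_cases j <;> simp [Fin.sum_univ_four, mat, ee, dep, eps, h]

/-- the resolution, with top degree `n` -/
noncomputable def PP (k : Type) [Field k] (n : ℤ) : Cx (Al k) where
  X q := ModuleCat.of _ (PX k n q)
  d p q := if p + 1 = q then ModuleCat.ofHom (Pd k n p q) else 0
  shape p q h := if_neg h
  d_comp_d' p q r h h' := by
    obtain rfl : p + 1 = q := h
    obtain rfl : p + 1 + 1 = r := h'
    rw [if_pos rfl, if_pos rfl]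
    exact ModuleCat.hom_ext (LinearMap.ext (Pd_Pd n p))

theorem PP_d (n : ℤ) {p q : ℤ} (h : p + 1 = q) (v : PX k n p) : (PP k n).d p q v = Pd k n p q v := by
  change (if p + 1 = q then ModuleCat.ofHom (Pd k n p q) else 0 : (PP k n).X p ⟶ (PP k n).X q) v = _
  rw [if_pos h]; rfl

/-- the generators -/
noncomputable def gn (k : Type) [Field k] (n q : ℤ) (i : Fin 4) : PX k n q :=
  ⟨Pi.single i (ee k n q i), fun j => by
    rcases eq_or_ne j i with rfl | h
    · rw [Pi.single_eq_same, ee_ee]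
    · rw [Pi.single_eq_of_ne h, zero_mul]⟩

theorem eq_sum_gn {n q : ℤ} (v : PX k n q) : v = ∑ i, v.1 i • gn k n q i :=
  Subtype.ext (funext fun j => by
    simp [gn, Finset.sum_apply, Pi.single_apply, v.2 j])

/-- the values of a chain map on the generators -/
noncomputable def ev {n : ℤ} {Y : Cx (Al k)} (f : PP k n ⟶ Y) (i : Fin 4) : Tot Y :=
  fun q => f.f q (gn k n q i)

theorem ev_comp {n : ℤ} {Y Z : Cx (Al k)} (f : PP k n ⟶ Y) (φ : Y ⟶ Z) :
    ev (f ≫ φ) = fun i => tm φ (ev f i) := rfl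

/-- a cyclic module -/
noncomputable abbrev cy (J : Submodule (Al k) (Al k)) : ModuleCat.{0} (Al k) :=
  ModuleCat.of _ (Al k ⧸ J)

/-- the module `V` -/
noncomputable abbrev Vm (k : Type) [Field k] : ModuleCat.{0} (Al k) := ModuleCat.of _ (VV k)

end coch

end Pool.Agent.P.MP_3d2265_gt.DT
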