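import Pool.Agent.P.MP_3d2265_gt.DT.BaseB

/-! The statements of the steps. -/

namespace Pool.Agent.P.MP_3d2265_gt.DT

open CategoryTheory Limits Pretriangulated DerivedCategory Finset
open scoped Classical

universe w

variable (k : Type) [Field k] [HasDerivedCategory.{w} (ModuleCat.{0} (Al k))]

-- deps:
def S_QI : Prop := ∀ (K L : Cx (Al k)) (f : K ⟶ L), QuasiIso f ↔ QE f

-- deps:
def S_NUL : Prop := ∀ (K L : Cx (Al k)) (f : K ⟶ L), Q.map f = 0 →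
  ∃ (K' : Cx (Al k)) (s : K' ⟶ K), QuasiIso s ∧ Nonempty (Homotopy (s ≫ f) 0)

-- deps: QI NUL
def S_COP : Prop := ∀ (ι : Type) (K : ι → Cx (Al k)),
  Nonempty (IsColimit (Cofan.mk (Q.obj (sumC K)) fun i => Q.map (inj K i)))

-- deps: QI
def S_PROD : Prop := ∀ (ι : Type) (K : ι → Cx (Al k)) (C : Dc (Al k)) (c : ∀ i, C ⟶ Q.obj (K i)),
  ∃ f : C ⟶ Q.obj (prodC K), ∀ i, f ≫ Q.map (prp K i) = c i

-- deps: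
def S_PEX : Prop := ∀ n : ℤ,
  (∀ (q : ℤ) (v : PX k n q), n < q → v = 0) ∧
  (∀ v : PX k n n, v.1 0 ∈ JM k → ∃ u, Pd k n (n - 1) n u = v) ∧
  (∀ u : PX k n (n - 1), (Pd k n (n - 1) n u).1 0 ∈ JM k) ∧
  ∀ (q : ℤ) (v : PX k n q), q < n → Pd k n q (q + 1) v = 0 → ∃ u, Pd k n (q - 1) q u = v

-- deps: QI PEX
def S_RES : Prop := ∀ n : ℤ, (PP k n).IsKProjective ∧
  ∃ π : PP k n ⟶ (sg n).obj (cy (JM k)), QuasiIso π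

-- deps:
def S_REPA : Prop := ∀ (n : ℤ) (Y : Cx (Al k)),
  (∀ f : PP k n ⟶ Y, (fil Y).Co n (ev f) ∧ (fil Y).δ n (ev f) = 0) ∧
  ∀ t, (fil Y).Co n t → (fil Y).δ n t = 0 → ∃ f : PP k n ⟶ Y, ev f = t

-- deps:
def S_REPB : Prop := ∀ (n : ℤ) (Y : Cx (Al k)) (f : PP k n ⟶ Y), Nonempty (Homotopy f 0) ↔
  ∃ s, (fil Y).Co (n - 1) s ∧ (fil Y).δ (n - 1) s = ev f

-- deps: REPA REPB RES
def S_LX : Prop := ∀ Y : Cx (Al k), Loc (cy (JM k)) (Q.obj Y) ↔ (fil Y).Ex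

-- deps:
def S_DD : Prop := ∀ (T : Type) [AddCommGroup T] [Module (Al k) T] (F : Fil (Al k) T) (n m : ℤ)
  (t : Fin 4 → T), n + 1 = m → F.Co n t →
  F.Co m (F.δ n t) ∧ F.δ m (F.δ n t) = 0 ∧ ∀ p, F.G p t → F.G (p + 1) (F.δ n t)

-- deps:
def S_EXT : Prop := ∀ (T : Type) [AddCommGroup T] [Module (Al k) T] (F : Fil (Al k) T)
  (S : AddSubgroup T), (∀ n m t, F.τ n t - F.τ m t ∈ S) → F.ExA S →
  ∀ n p t, p ≤ n → F.Co n t → F.G (p - 1) (F.δ n t) →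
    ∃ s, F.Co (n - 1) s ∧ F.G p (t - F.δ (n - 1) s)

-- deps: DD EXT
def S_LOC : Prop := ∀ (T : Type) [AddCommGroup T] [Module (Al k) T] (F : Fil (Al k) T)
  (S : AddSubgroup T), (∀ n m t, F.τ n t - F.τ m t ∈ S) → F.ExA S → F.Ex

-- deps: LOC
def S_SUM : Prop := ∀ (ι : Type) (K : ι → Cx (Al k)), (∀ i, (fil (K i)).Ex) → (fil (sumC K)).Ex

-- deps:
def S_TEL : Prop := ∀ (X : ℕ → Cx (Al k)) (u : ∀ m, X m ⟶ X (m + 1)),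
  (∀ m q, Function.Injective ((u m).f q)) →
  ∃ (Y : Cx (Al k)) (j : ∀ m, X m ⟶ Y) (h : tel X u ≫ desc j = 0),
    (ShortComplex.mk _ _ h).ShortExact ∧ (∀ m, u m ≫ j (m + 1) = j m) ∧
    (∀ m q, Function.Injective ((j m).f q)) ∧ ∀ q y, ∃ m x, (j m).f q x = y

-- deps: LOC
def S_TOE : Prop := ∀ (X : ℕ → Cx (Al k)) (u : ∀ m, X m ⟶ X (m + 1)) (Y : Cx (Al k))
  (j : ∀ m, X m ⟶ Y), (∀ m, u m ≫ j (m + 1) = j m) → (∀ m q, Function.Injective ((j m).f q)) →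
  (∀ q y, ∃ m x, (j m).f q x = y) →
  (∀ m n t, (fil (X m)).Co n t → (fil (X m)).δ n t = 0 → ∃ s, (fil (X (m + 1))).Co (n - 1) s ∧
    (fil (X (m + 1))).δ (n - 1) s = fun i => tm (u m) (t i)) → (fil Y).Ex

-- deps:
def S_SH : Prop := ∀ M : ModuleCat.{0} (Al k),
  (∀ (Y : Dc (Al k)) (i : ℤ), Loc M Y → Loc M (Y⟦i⟧)) ∧
  (∀ T ∈ distTriang (Dc (Al k)), Acy M T.obj₁ ↔ Eqv M T.mor₂) ∧
  (∀ (X Y : Dc (Al k)), Nonempty (X ≅ Y) → (Loc M X → Loc M Y) ∧ (Acy M X → Acy M Y))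

-- deps: SH COP
def S_EQV : Prop := ∀ (M : ModuleCat.{0} (Al k)) (X : ℕ → Cx (Al k)) (u : ∀ m, X m ⟶ X (m + 1))
  (Y : Cx (Al k)) (j : ∀ m, X m ⟶ Y) (h : tel X u ≫ desc j = 0),
  (ShortComplex.mk _ _ h).ShortExact → (∀ m, u m ≫ j (m + 1) = j m) →
  (∀ m, Eqv M (Q.map (u m))) → Eqv M (Q.map (j 0))

-- deps: REPA REPB RES COP SH
def S_STEP : Prop := ∀ X : Cx (Al k), ∃ (X' : Cx (Al k)) (u : X ⟶ X'),
  (∀ q, Function.Injective (u.f q)) ∧ Eqv (cy (JM k)) (Q.map u) ∧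
  ∀ n t, (fil X).Co n t → (fil X).δ n t = 0 →
    ∃ s, (fil X').Co (n - 1) s ∧ (fil X').δ (n - 1) s = fun i => tm u (t i)

-- deps: STEP TEL TOE EQV SH LX
def S_TOW : Prop := ∀ X : Dc (Al k), ∃ T ∈ distTriang (Dc (Al k)),
  T.obj₂ = X ∧ Acy (cy (JM k)) T.obj₁ ∧ Loc (cy (JM k)) T.obj₃

-- deps: COP SUM LX SH
def S_CPL : Prop := HasCoproducts.{0} (Dc (Al k)) ∧
  ∀ (ι : Type) (Y : ι → Dc (Al k)) (c : Cofan Y), Nonempty (IsColimit c) →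
    (∀ i, Loc (cy (JM k)) (Y i)) → Loc (cy (JM k)) c.pt

-- deps: LX
def S_KZL : Prop := ∀ N : ModuleCat.{0} (Al k), KZ k N → ∀ j, Loc (cy (JM k)) ((sd j).obj N)

-- deps:
def S_KZB : Prop := KZ k (Al k ⧸ J1 k) ∧ KZ k (Al k ⧸ JD k)

-- deps:
def S_KZV : Prop := KZ k (VV k ⧸ VS k)

-- deps:
def S_MAP : Prop := ∃ (i : cy (JS k) ⟶ Vm k) (e : Vm k ⟶ cy (J0 k)) (π : cy (J0 k) ⟶ cy (JD k))
  (w₁ w₂ : cy (JS k) ⟶ cy (J1 k)) (φ₁ φ₂ : cy (J1 k) ⟶ cy (J0 k)),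
  Function.Injective i ∧ Function.Exact i (VS k).mkQ ∧ i ≫ e = w₁ ≫ φ₁ - w₂ ≫ φ₂ ∧
  (∀ v : VV k, e v = 0 ↔ ∃ v₁ v₂ : VV k, v = sv k • v₁ + tv k • v₂) ∧
  Function.Exact e π ∧ Function.Surjective π

-- deps:
def S_TRI : Prop := ∀ (N₁ N₂ N₃ : ModuleCat.{0} (Al k)) (f : N₁ ⟶ N₂) (g : N₂ ⟶ N₃),
  Function.Injective f → Function.Exact f g → Function.Surjective g → ∀ (C : Dc (Al k)) (j : ℤ),
  (∀ c : C ⟶ (sd j).obj N₂, c ≫ (sd j).map g = 0 → ∃ c', c = c' ≫ (sd j).map f) ∧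
  (Hz C (j - 1) N₁ → ∀ c : C ⟶ (sd j).obj N₃, ∃ c', c = c' ≫ (sd j).map g) ∧
  (Hz C (j + 1) N₃ → ∀ c : C ⟶ (sd j).obj N₁, c ≫ (sd j).map f = 0 → c = 0)

-- deps: COP TRI
def S_COV : Prop := ∀ (C : Dc (Al k)) (j : ℤ), Cpt C → (∀ N, Hz C (j - 1) N) →
  ∀ (G N : ModuleCat.{0} (Al k)) (ι : Type) (φ : ι → (G ⟶ N)), (∀ v : N, ∃ i u, φ i u = v) →
  ∀ c : C ⟶ (sd j).obj N, ∃ (s : Finset ι) (g : ι → (C ⟶ (sd j).obj G)),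
    c = ∑ i ∈ s, g i ≫ (sd j).map (φ i)

-- deps: COP PROD
def S_BND : Prop := ∀ C : Dc (Al k), Cpt C → ∃ j₀ : ℤ, ∀ j ≤ j₀, ∀ N, Hz C j N

-- deps: COV PROD
def S_FG : Prop := ∀ (C : Dc (Al k)) (j : ℤ), Cpt C → (∀ N, Hz C (j - 1) N) →
  ∀ (N : ModuleCat.{0} (Al k)) (ι : Type) (c : ι → (C ⟶ (sd j).obj N)),
  ∃ (κ : Type) (s : Finset κ) (g : κ → (C ⟶ (sd j).obj (ModuleCat.of _ (Al k)))) (v : κ → ι → N),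
    ∀ i, c i = ∑ a ∈ s, g a ≫ (sd j).map
      (ModuleCat.ofHom (LinearMap.toSpanSingleton (Al k) N (v a i)))

-- deps: FG
def S_NAK : Prop := ∀ (C : Dc (Al k)) (j : ℤ), Cpt C → (∀ N, Hz C (j - 1) N) →
  (∀ c : C ⟶ (sd j).obj (Vm k), ∃ c₁ c₂, c = c₁ ≫ (sd j).map (ModuleCat.ofHom (rho (sv k))) +
    c₂ ≫ (sd j).map (ModuleCat.ofHom (rho (tv k)))) → Hz C j (Vm k)

-- deps: TRI MAP KZL KZB KZV NAK
def S_CH : Prop := ∀ (C : Dc (Al k)) (j : ℤ), Cpt C → Acy (cy (JM k)) C → (∀ N, Hz C (j - 1) N) →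
  Hz C j (cy (JS k))

-- deps: COV TRI
def S_LAY : Prop := ∀ (C : Dc (Al k)) (j : ℤ), Cpt C → (∀ N, Hz C (j - 1) N) →
  Hz C j (cy (JS k)) → Hz C j (cy (J1 k)) → Hz C j (cy (JD k)) → ∀ N, Hz C j N

-- deps: QI NUL
def S_ZERO : Prop := ∀ C : Dc (Al k), (∀ j N, Hz C j N) → IsZero C

-- deps: BND CH LAY ZERO KZL KZB
def S_NOC : Prop := (¬ IsZero ((sd 0).obj (cy (JM k)))) ∧
  ∀ C : Dc (Al k), Cpt C → Acy (cy (JM k)) C → IsZero C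

end Pool.Agent.P.MP_3d2265_gt.DT
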