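import Pool.Agent.P.MP_3d2265_gt.DT.Iface

/-! Step BND. -/

set_option linter.unusedSectionVars false
set_option linter.unusedVariables false

namespace Pool.Agent.P.MP_3d2265_gt.DT

open CategoryTheory Limits Pretriangulated DerivedCategory Finset
open scoped Classical

universe w

theorem BNDx.inj_prs {A ι : Type} [Ring A] (K : ι → Cx A) {i j : ι} (h : i ≠ j) :
    inj K i ≫ prs K j = 0 :=
  cx_ext fun q v => DFinsupp.single_eq_of_ne (β := fun i => (K i).X q) (b := v) h.symm

theorem p_BND (k : Type) [Field k] [HasDerivedCategory.{w} (ModuleCat.{0} (Al k))]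
    (hCOP : S_COP k) (hPROD : S_PROD k) :
    S_BND k := by
  intro C hC
  have h : ∀ j : ℤ, ∃ (N : ModuleCat.{0} (Al k)) (f : C ⟶ (sd j).obj N), f = 0 → ∀ N', Hz C j N' := by
    intro j
    by_cases h : ∀ N', Hz C j N'
    · exact ⟨cy ⊤, 0, fun _ => h⟩
    · obtain ⟨N, hN⟩ := not_forall.1 h
      obtain ⟨f, hf⟩ := not_forall.1 hN
      exact ⟨N, f, fun e => absurd e hf⟩
  choose N f hf using h
  let K : ℤ → Cx (Al k) := fun j => (sg j).obj (N j)
  have hs : ∀ j q, q ≠ j → ∀ v : (K j).X q, v = 0 := fun j q h v =>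
    (ModuleCat.subsingleton_of_isZero (HomologicalComplex.isZero_single_obj_X _ j _ q h)).elim _ _
  let can : sumC K ⟶ prodC K := lift fun j => prs K j
  have : ∀ q, IsIso (can.f q) := fun q => (ConcreteCategory.isIso_iff_bijective _).2
    ⟨fun a b e => DFinsupp.ext fun j => congrFun e j, fun v => ⟨DFinsupp.single q (v q), funext fun j => by
      rcases eq_or_ne q j with rfl | h
      · exact DFinsupp.single_eq_same
      · rw [hs j q h (v j)]; exact hs j q h _⟩⟩
  have : IsIso can := HomologicalComplex.Hom.isIso_of_components can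
  obtain ⟨c, hc⟩ := hPROD ℤ K C f
  obtain ⟨s, g, e⟩ := hC ℤ _ _ (hCOP ℤ K) (c ≫ inv (Q.map can))
  obtain ⟨b, hb⟩ := s.bddBelow
  refine ⟨b - 1, fun j hj => hf j ?_⟩
  rw [← hc j, (IsIso.comp_inv_eq _).1 e, Preadditive.sum_comp, Preadditive.sum_comp]
  refine sum_eq_zero fun i hi => ?_
  have hij : i ≠ j := by have := hb hi; omega
  have : inj K i ≫ can ≫ prp K j = 0 := BNDx.inj_prs K hij
  change ((g i ≫ Q.map (inj K i)) ≫ Q.map can) ≫ Q.map (prp K j) = 0
  rw [Category.assoc, Category.assoc, ← Q.map_comp, ← Q.map_comp, this, Functor.map_zero, comp_zero]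

end Pool.Agent.P.MP_3d2265_gt.DT
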