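import Pool.Agent.P.MP_3d2265_gt.DT.Iface

/-! Step CH. -/

set_option linter.unusedSectionVars false
set_option linter.unusedVariables false

namespace Pool.Agent.P.MP_3d2265_gt.DT

open CategoryTheory Limits Pretriangulated DerivedCategory Finset
open scoped Classical

universe w

theorem p_CH (k : Type) [Field k] [HasDerivedCategory.{w} (ModuleCat.{0} (Al k))]
    (hTRI : S_TRI k) (hMAP : S_MAP k) (hKZL : S_KZL k) (hKZB : S_KZB k) (hKZV : S_KZV k) (hNAK : S_NAK k) :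
    S_CH k := by
  intro C j hC hA hz
  obtain ⟨i, e, π, w₁, w₂, φ₁, φ₂, hi, hie, hw, he, heπ, hπ⟩ := hMAP
  have K : ∀ N : ModuleCat.{0} (Al k), KZ k N → ∀ j, Hz C j N := fun N hN j f =>
    hA _ (hKZL N hN j) f
  have KQ := K (ModuleCat.of _ (VV k ⧸ VS k)) hKZV
  obtain ⟨T1, -, T3⟩ := hTRI _ _ (ModuleCat.of _ (VV k ⧸ VS k)) i (ModuleCat.ofHom (VS k).mkQ) hi hie
    (VS k).mkQ_surjective C j
  refine fun c => T3 (KQ _) c (hNAK C j hC hz (fun c => ?_) _)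
  obtain ⟨c₂, h2⟩ := T1 c (KQ _ _)
  have h3 : c ≫ (sd j).map e = 0 := by
    rw [h2, Category.assoc, ← Functor.map_comp, hw, Functor.map_sub, Functor.map_comp,
      Functor.map_comp, Preadditive.comp_sub, ← Category.assoc, ← Category.assoc,
      K (cy (J1 k)) hKZB.1 j (c₂ ≫ (sd j).map w₁), K (cy (J1 k)) hKZB.1 j (c₂ ≫ (sd j).map w₂),
      zero_comp, zero_comp, sub_self]
  have h4 : c ≫ (sd j).map (ModuleCat.ofHom e.hom.rangeRestrict) = 0 := by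
    refine (hTRI (ModuleCat.of _ (LinearMap.range e.hom)) _ _
      (ModuleCat.ofHom (LinearMap.range e.hom).subtype) π Subtype.val_injective (fun y => ?_) hπ C
      j).2.2 (K (cy (JD k)) hKZB.2 _) _ ?_
    · rw [heπ y]
      exact ⟨fun ⟨v, hv⟩ => ⟨⟨y, v, hv⟩, rfl⟩, fun ⟨⟨_, v, hv⟩, h⟩ => ⟨v, hv.trans h⟩⟩
    · rw [Category.assoc, ← Functor.map_comp]
      exact h3
  obtain ⟨c', h5⟩ := (hTRI (ModuleCat.of _ (LinearMap.ker e.hom)) (Vm k)
    (ModuleCat.of _ (LinearMap.range e.hom)) (ModuleCat.ofHom (LinearMap.ker e.hom).subtype)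
    (ModuleCat.ofHom e.hom.rangeRestrict) Subtype.val_injective
    (fun v => ⟨fun h => ⟨⟨v, congrArg Subtype.val h⟩, rfl⟩,
      fun ⟨u, h⟩ => Subtype.ext (h ▸ u.2)⟩) e.hom.surjective_rangeRestrict C j).1 c h4
  let ψ : (VV k × VV k) →ₗ[Al k] LinearMap.ker e.hom :=
    LinearMap.codRestrict _ ((rho (sv k)).coprod (rho (tv k))) fun v => (he _).2 ⟨v.1, v.2, rfl⟩
  have hψ : Function.Surjective ψ := fun u => by
    obtain ⟨v₁, v₂, h⟩ := (he u.1).1 u.2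
    exact ⟨(v₁, v₂), Subtype.ext h.symm⟩
  obtain ⟨c'', h6⟩ := (hTRI (ModuleCat.of _ (LinearMap.ker ψ)) (ModuleCat.of _ (VV k × VV k))
    (ModuleCat.of _ (LinearMap.ker e.hom)) (ModuleCat.ofHom (LinearMap.ker ψ).subtype)
    (ModuleCat.ofHom ψ) Subtype.val_injective
    (fun v => ⟨fun h => ⟨⟨v, h⟩, rfl⟩, fun ⟨u, h⟩ => h ▸ u.2⟩) hψ C j).2.1 (hz _) c'
  refine ⟨c'' ≫ (sd j).map (ModuleCat.ofHom (LinearMap.fst (Al k) (VV k) (VV k))),
    c'' ≫ (sd j).map (ModuleCat.ofHom (LinearMap.snd (Al k) (VV k) (VV k))), ?_⟩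
  rw [h5, h6, Category.assoc, Category.assoc, Category.assoc, ← Functor.map_comp,
    ← Functor.map_comp, ← Functor.map_comp, ← Preadditive.comp_add, ← Functor.map_add]
  rfl

end Pool.Agent.P.MP_3d2265_gt.DT
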