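import Pool.Agent.P.MP_3d2265_gt.DT.Iface

/-! Step COP. -/

set_option linter.unusedSectionVars false
set_option linter.unusedVariables false

namespace Pool.Agent.P.MP_3d2265_gt.DT

open CategoryTheory Limits Pretriangulated DerivedCategory Finset
open scoped Classical

universe w

namespace COPx

variable {A : Type} [Ring A] {ι : Type} {K K' : ι → Cx A}

theorem ind {q : ℤ} {P : (sumC K).X q → Prop} (h0 : P 0) (h2 : ∀ a b, P a → P b → P (a + b))
    (v : (sumC K).X q) (h1 : ∀ i, P ((inj K i).f q ((prs K i).f q v))) : P v := by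
  have e : ∑ i ∈ DFinsupp.support (show Π₀ i, (K i).X q from v),
      (inj K i).f q ((prs K i).f q v) = v := DFinsupp.sum_single (f := show Π₀ i, (K i).X q from v)
  rw [← e]
  exact Finset.sum_induction _ P h2 h0 fun i _ => h1 i

theorem prs_sum (s : ∀ i, K' i ⟶ K i) (i : ι) :
    (desc fun i => s i ≫ inj K i) ≫ prs K i = prs K' i ≫ s i := sumC_ext fun j => by
  rw [inj_desc_assoc]
  refine cx_ext fun q v => ?_
  change (DFinsupp.single j ((s j).f q v) : Π₀ i, (K i).X q) i =
    (s i).f q ((DFinsupp.single j v : Π₀ i, (K' i).X q) i)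
  rcases eq_or_ne i j with rfl | h
  · rw [DFinsupp.single_eq_same, DFinsupp.single_eq_same]
  · rw [DFinsupp.single_eq_of_ne h, DFinsupp.single_eq_of_ne h, map_zero]

theorem qe_sum (s : ∀ i, K' i ⟶ K i) (h : ∀ i, QE (s i)) : QE (desc fun i => s i ≫ inj K i) := by
  intro q
  refine ⟨fun z hz => ?_, fun z' w hz e => ?_⟩
  · refine ind (P := fun z => ∃ z' w, (sumC K').d q (q + 1) z' = 0 ∧
      z = (desc fun i => s i ≫ inj K i).f q z' + (sumC K).d (q - 1) q w)
      ⟨0, 0, map_zero _, by rw [map_zero, map_zero, add_zero]⟩ ?_ z fun i => ?_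
    · rintro _ _ ⟨a, b, h1, rfl⟩ ⟨c, d, h2, rfl⟩
      exact ⟨a + c, b + d, by rw [map_add, h1, h2, add_zero], by rw [map_add, map_add]; abel⟩
    · obtain ⟨a, b, h1, h2⟩ := (h i q).1 ((prs K i).f q z) (by rw [cx_comm, hz, map_zero])
      refine ⟨(inj K' i).f q a, (inj K i).f _ b, by rw [cx_comm, h1, map_zero], ?_⟩
      rw [h2, map_add, cx_comm]
      exact congrArg (· + _) (dsc_inj (fun i => s i ≫ inj K i) q i a).symm
  · refine ind (P := fun z => ∃ w', z = (sumC K').d (q - 1) q w') ⟨0, (map_zero _).symm⟩ ?_ z'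
      fun i => ?_
    · rintro _ _ ⟨a, rfl⟩ ⟨b, rfl⟩
      exact ⟨a + b, (map_add _ _ _).symm⟩
    · obtain ⟨a, ha⟩ := (h i q).2 ((prs K' i).f q z') ((prs K i).f _ w)
        (by rw [cx_comm, hz, map_zero]) (by
          rw [cx_comm, ← e]
          exact (congrArg (fun u : sumC K' ⟶ K i => u.f q z') (prs_sum s i)).symm)
      exact ⟨(inj K' i).f _ a, by rw [ha, cx_comm]⟩

/-- homotopies on the summands give a homotopy on the sum -/
noncomputable def glue {Z : Cx A} (g : ∀ i, K i ⟶ Z) (h : ∀ i, Homotopy (g i) 0) :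
    Homotopy (desc g) 0 where
  hom p q := ModuleCat.ofHom (X := (sumC K).X p)
    (DFinsupp.lsum ℕ fun i => ((h i).hom p q).hom)
  zero p q hpq := by
    simp only [fun i => (h i).zero p q hpq]
    exact ModuleCat.hom_ext (map_zero (DFinsupp.lsum ℕ))
  comm q := by
    have r1 : (ComplexShape.up ℤ).Rel q (q + 1) := rfl
    have r2 : (ComplexShape.up ℤ).Rel (q - 1) q := sub_add_cancel q 1
    rw [dNext_eq _ r1, prevD_eq _ r2, HomologicalComplex.zero_f, add_zero]
    refine ModuleCat.hom_ext (LinearMap.ext (sumC_ind (by rw [map_zero, map_zero])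
      (fun i v => ?_) fun a b ha hb => by rw [map_add, map_add, ha, hb]))
    have e := (h i).comm q
    rw [dNext_eq _ r1, prevD_eq _ r2, HomologicalComplex.zero_f, add_zero] at e
    have e1 : ∀ p q (v : (K i).X p), (DFinsupp.lsum ℕ fun i => ((h i).hom p q).hom)
        ((inj K i).f p v) = (h i).hom p q v := fun p q v =>
      DFinsupp.lsum_single ℕ (fun i => ((h i).hom p q).hom) i v
    change dsc g q _ = (DFinsupp.lsum ℕ fun i => ((h i).hom (q + 1) q).hom)
      ((sumC K).d q (q + 1) ((inj K i).f q v)) + Z.d (q - 1) q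
        ((DFinsupp.lsum ℕ fun i => ((h i).hom q (q - 1)).hom) ((inj K i).f q v))
    rw [dsc_inj, cx_comm, e1, e1, e]
    rfl

end COPx

theorem p_COP (k : Type) [Field k] [HasDerivedCategory.{w} (ModuleCat.{0} (Al k))]
    (hQI : S_QI k) (hNUL : S_NUL k) :
    S_COP k := by
  intro ι K
  have ex : ∀ (Y : Dc (Al k)) (f : ∀ i, Q.obj (K i) ⟶ Y),
      ∃ F : Q.obj (sumC K) ⟶ Y, ∀ i, Q.map (inj K i) ≫ F = f i := fun Y f => by
    choose K' s hs g e using fun i => right_fac (f i ≫ (Q.objObjPreimageIso Y).inv)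
    have : QuasiIso (desc fun i => s i ≫ inj K i) := (hQI _ _ _).2 (COPx.qe_sum s fun i =>
      (hQI _ _ _).1 ((isIso_Q_map_iff_quasiIso _ _).1 (hs i)))
    refine ⟨inv (Q.map (desc fun i => s i ≫ inj K i)) ≫ Q.map (desc g) ≫
      (Q.objObjPreimageIso Y).hom, fun i => ?_⟩
    have := hs i
    rw [← cancel_epi (Q.map (s i)), ← Q.map_comp_assoc, ← inj_desc (fun i => s i ≫ inj K i) i,
      Q.map_comp_assoc, IsIso.hom_inv_id_assoc, ← Q.map_comp_assoc, inj_desc,
      (Iso.comp_inv_eq _).1 (e i), Category.assoc, IsIso.hom_inv_id_assoc]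
  have un : ∀ (Y : Dc (Al k)) (f : Q.obj (sumC K) ⟶ Y),
      (∀ i, Q.map (inj K i) ≫ f = 0) → f = 0 := fun Y f h => by
    obtain ⟨Y', g, t, ht, e⟩ := left_fac (f ≫ (Q.objObjPreimageIso Y).inv)
    have h1 : ∀ i, Q.map (inj K i ≫ g) = 0 := fun i => by
      rw [← cancel_mono (inv (Q.map t)), Q.map_comp, Category.assoc, ← e, reassoc_of% h i,
        zero_comp, zero_comp]
    choose K' s hs hh using fun i => hNUL _ _ _ (h1 i)
    have : QuasiIso (desc fun i => s i ≫ inj K i) := (hQI _ _ _).2 (COPx.qe_sum s fun i =>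
      (hQI _ _ _).1 (hs i))
    have h2 : (desc fun i => s i ≫ inj K i) ≫ g = desc fun i => s i ≫ inj K i ≫ g :=
      sumC_ext fun i => by rw [inj_desc_assoc, inj_desc, Category.assoc]
    have h3 := Q_map_eq_of_homotopy _ (COPx.glue _ fun i => (hh i).some)
    rw [← h2, Q.map_comp, Q.map_zero] at h3
    rw [(Iso.comp_inv_eq _).1 e, zero_of_epi_comp _ h3, zero_comp, zero_comp]
  choose F hF using ex
  exact ⟨Cofan.IsColimit.mk _ (fun t => F t.pt t.inj) (fun t i => hF t.pt t.inj i) fun t m hm =>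
    sub_eq_zero.1 (un _ _ fun i => by
      rw [Preadditive.comp_sub, hF, sub_eq_zero]
      exact hm i)⟩

end Pool.Agent.P.MP_3d2265_gt.DT
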