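import Pool.Agent.P.MP_3d2265_gt.DT.Iface

/-! Step COV. -/

set_option linter.unusedSectionVars false
set_option linter.unusedVariables false

namespace Pool.Agent.P.MP_3d2265_gt.DT

open CategoryTheory Limits Pretriangulated DerivedCategory Finset
open scoped Classical

universe w

namespace COVx

open HomologicalComplex

variable {A : Type} [Ring A] {ι : Type}

theorem cover (j : ℤ) (G N : ModuleCat.{0} A) (φ : ι → (G ⟶ N)) (h : ∀ v : N, ∃ i u, φ i u = v) :
    ∃ (F : ModuleCat.{0} A) (Φ : F ⟶ N) (α : (sg j).obj F ⟶ sumC fun _ : ι => (sg j).obj G),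
      Function.Surjective Φ ∧ α ≫ desc (fun i => (sg j).map (φ i)) = (sg j).map Φ := by
  refine ⟨(sumC fun _ : ι => (sg j).obj G).X j,
    (desc fun i => (sg j).map (φ i)).f j ≫ (singleObjXSelf _ j N).hom,
    mkHomFromSingle (𝟙 _) fun q _ => ?_, fun v => ?_, from_single_hom_ext ?_⟩
  · rw [Category.id_comp]
    exact ModuleCat.hom_ext (LinearMap.ext fun v => DFinsupp.ext fun i => rfl)
  · obtain ⟨i, u, rfl⟩ := h v
    refine ⟨(inj (fun _ : ι => (sg j).obj G) i).f j ((singleObjXSelf _ j G).inv u), ?_⟩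
    rw [← ModuleCat.comp_apply, ← ModuleCat.comp_apply, ← comp_f_assoc, inj_desc,
      single_map_f_self, Category.assoc, Category.assoc, Iso.inv_hom_id, Category.comp_id,
      Iso.inv_hom_id_assoc]
  · rw [comp_f, mkHomFromSingle_f, single_map_f_self]
    simp

end COVx

theorem p_COV (k : Type) [Field k] [HasDerivedCategory.{w} (ModuleCat.{0} (Al k))]
    (hCOP : S_COP k) (hTRI : S_TRI k) :
    S_COV k := by
  intro C j hC hz G N ι φ hφ c
  obtain ⟨F, Φ, α, hs, he⟩ := COVx.cover j G N φ hφ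
  obtain ⟨c', rfl⟩ := (hTRI (ModuleCat.of _ (LinearMap.ker Φ.hom)) F N
    (ModuleCat.ofHom (LinearMap.ker Φ.hom).subtype) Φ Subtype.val_injective
    (LinearMap.exact_subtype_ker_map Φ.hom) hs C j).2.1 (hz _) c
  obtain ⟨s, g, hg⟩ := hC ι _ _ (hCOP ι fun _ => (sg j).obj G) (c' ≫ Q.map α)
  refine ⟨s, g, ?_⟩
  rw [← Q_sg_map, ← he, Functor.map_comp]
  refine ((Category.assoc _ _ _).symm.trans (congrArg (· ≫ _) hg)).trans ?_
  refine (Preadditive.sum_comp _ _ _).trans (sum_congr rfl fun i _ => ?_)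
  refine (Category.assoc _ _ _).trans (congrArg (g i ≫ ·) ?_)
  exact (Q.map_comp _ _).symm.trans (congrArg Q.map (inj_desc _ i))

end Pool.Agent.P.MP_3d2265_gt.DT
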