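import Pool.Agent.P.MP_3d2265_gt.DT.Iface

/-! Step CPL. -/

set_option linter.unusedSectionVars false
set_option linter.unusedVariables false

namespace Pool.Agent.P.MP_3d2265_gt.DT

open CategoryTheory Limits Pretriangulated DerivedCategory Finset
open scoped Classical

universe w

theorem p_CPL (k : Type) [Field k] [HasDerivedCategory.{w} (ModuleCat.{0} (Al k))]
    (hCOP : S_COP k) (hSUM : S_SUM k) (hLX : S_LX k) (hSH : S_SH k) :
    S_CPL k := by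
  have key : ∀ (ι : Type) (F : Discrete ι ⥤ Dc (Al k)), ∃ K : ι → Cx (Al k),
      Nonempty (Discrete.functor (fun i => Q.obj (K i)) ≅ F) := fun ι F =>
    ⟨fun i => Q.objPreimage (F.obj ⟨i⟩),
      ⟨Discrete.natIso fun i => Q.objObjPreimageIso (F.obj i)⟩⟩
  refine ⟨fun ι => ⟨fun F => ?_⟩, fun ι Y c ⟨hc⟩ hY => ?_⟩
  · obtain ⟨K, ⟨e⟩⟩ := key ι F
    obtain ⟨h⟩ := hCOP ι K
    have : HasColimit (Discrete.functor fun i => Q.obj (K i)) := HasColimit.mk ⟨_, h⟩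
    exact hasColimit_of_iso e.symm
  · obtain ⟨K, ⟨e⟩⟩ := key ι (Discrete.functor Y)
    obtain ⟨h⟩ := hCOP ι K
    have e' : Q.obj (sumC K) ≅ c.pt := IsColimit.coconePointsIsoOfNatIso h hc e
    refine ((hSH _).2.2 _ _ ⟨e'⟩).1 ((hLX _).2 (hSUM ι K fun i => (hLX _).1 ?_))
    exact ((hSH _).2.2 _ _ ⟨(e.app ⟨i⟩).symm⟩).1 (hY i)

end Pool.Agent.P.MP_3d2265_gt.DT
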