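import Pool.Agent.P.MP_3d2265_gt.DT.Iface

/-! Step DD. -/

set_option linter.unusedSectionVars false
set_option linter.unusedVariables false

namespace Pool.Agent.P.MP_3d2265_gt.DT

open CategoryTheory Limits Pretriangulated DerivedCategory Finset
open scoped Classical

universe w

theorem p_DD (k : Type) [Field k] [HasDerivedCategory.{w} (ModuleCat.{0} (Al k))] :
    S_DD k := by
  intro T _ _ F n m t hm h
  subst hm
  have hc : F.Co (n + 1) (F.δ n t) := fun i => by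
    have e1 : eps k i • ∑ j, mat k i j • t j = ∑ j, mat k i j • t j := by
      simp only [smul_sum, smul_smul, eps_mat]
    refine ⟨?_, ?_⟩
    · rw [Fil.δ, smul_add, ← map_smul, ← map_smul, ← map_smul, (h i).1, e1]
    · rw [Fil.δ, map_add, F.τD (n - dep i) _ _ (by ring), (h i).2, F.τσ, F.ττ, min_self]
  obtain ⟨⟨-, h0⟩, -⟩ := Fil.co_iff.1 h
  refine ⟨hc, ?_, fun p hp => ?_⟩
  · rw [hc.δ_eq, h.δ_eq]
    have e : n + 1 - 1 = n := by ring
    have hD : F.D (F.τ (n - 1) (t 0)) = F.τ n (F.D (t 0)) := (F.τD (n - 1) n _ (by ring)).symm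
    funext i
    fin_cases i
    · simp [F.DD, F.Dσ, F.σσ, smul_smul, l_l]
    · simp [F.DD, F.Dσ, F.σσ, smul_smul, x_l]
    · simp [F.DD, F.Dσ, F.σσ, smul_smul, y_l]
    · simp [F.DD, F.Dσ, F.σσ, smul_smul, rz_l, e, hD, F.τσ, h0, sub_smul]
      abel
  · obtain ⟨g0, g1, g2, g3⟩ := hp
    have e1 : p + 1 - 1 = p := by ring
    have e2 : p + 1 - 2 = p - 1 := by ring
    have g0' := Fil.τ_mono g0 (show p - 1 ≤ p by omega)
    have d : ∀ u, F.τ p (F.D u) = F.D (F.τ (p - 1) u) := fun u => F.τD _ _ _ (by ring)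
    have d' : ∀ u, F.τ (p - 1) (F.D u) = F.D (F.τ (p - 2) u) := fun u => F.τD _ _ _ (by ring)
    have g4 : F.τ (p - 1) (F.τ (n - 1) (t 0)) = F.τ (n - 1) (t 0) := by
      rw [F.ττ, min_comm, ← F.ττ, g0]
    rw [h.δ_eq, Fil.G, e1, e2]
    simp [d, d', F.τσ, g0, g1, g2, g3, g0', g4]

end Pool.Agent.P.MP_3d2265_gt.DT
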