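import Pool.Agent.P.MP_3d2265_gt.DT.Iface

/-! Step EQV. -/

set_option linter.unusedSectionVars false
set_option linter.unusedVariables false

namespace Pool.Agent.P.MP_3d2265_gt.DT

open CategoryTheory Limits Pretriangulated DerivedCategory Finset
open scoped Classical

universe w

namespace EQVx

variable {A : Type} [Ring A] [HasDerivedCategory.{w} (ModuleCat.{0} A)]

theorem van (T : Triangle (Dc A)) (hT : T ∈ distTriang (Dc A)) (L : Dc A)
    (hs : ∀ g : T.obj₁ ⟶ L⟦(-1 : ℤ)⟧, ∃ f, T.mor₁ ≫ f = g) (f : T.obj₃ ⟶ L)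
    (hf : T.mor₂ ≫ f = 0) : f = 0 := by
  obtain ⟨f', rfl⟩ := T.yoneda_exact₃ hT f hf
  let e := (shiftFunctorCompIsoId (Dc A) (-1 : ℤ) 1 (by ring)).app L
  obtain ⟨g, hg⟩ := (shiftFunctor (Dc A) (1 : ℤ)).map_surjective
    (X := T.obj₁) (Y := L⟦(-1 : ℤ)⟧) (f' ≫ e.inv)
  obtain ⟨g', rfl⟩ := hs g
  have h1 : f' = T.mor₁⟦(1 : ℤ)⟧' ≫ g'⟦(1 : ℤ)⟧' ≫ e.hom :=
    ((Iso.comp_inv_eq e).1 (hg.symm.trans (Functor.map_comp _ _ _))).trans (Category.assoc _ _ _)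
  rw [h1, ← Category.assoc, comp_distTriang_mor_zero₃₁ _ hT, zero_comp]

theorem inj_tel (X : ℕ → Cx A) (u : ∀ m, X m ⟶ X (m + 1)) (m : ℕ) {L : Dc A}
    (f : Q.obj (sumC X) ⟶ L) : Q.map (inj X m) ≫ Q.map (tel X u) ≫ f =
      Q.map (inj X m) ≫ f - Q.map (u m) ≫ Q.map (inj X (m + 1)) ≫ f := by
  rw [← Functor.map_comp_assoc, tel, inj_desc, Functor.map_sub, Functor.map_comp,
    Preadditive.sub_comp, Category.assoc]

/-- extension along a tower of surjections -/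
theorem ext {X : ℕ → Cx A} {u : ∀ m, X m ⟶ X (m + 1)} {L : Dc A}
    (hu : ∀ m, Function.Surjective fun f : Q.obj (X (m + 1)) ⟶ L => Q.map (u m) ≫ f)
    (f₀ : Q.obj (X 0) ⟶ L) (g : ∀ m, Q.obj (X m) ⟶ L) :
    ∃ f : ∀ m, Q.obj (X m) ⟶ L, f 0 = f₀ ∧ ∀ m, Q.map (u m) ≫ f (m + 1) = f m - g m := by
  choose s hs using hu
  exact ⟨fun m => Nat.rec (motive := fun m => Q.obj (X m) ⟶ L) f₀ (fun m f => s m (f - g m)) m,
    rfl, fun m => hs m _⟩

end EQVx

theorem p_EQV (k : Type) [Field k] [HasDerivedCategory.{w} (ModuleCat.{0} (Al k))]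
    (hSH : S_SH k) (hCOP : S_COP k) :
    S_EQV k := by
  intro M X u Y j h hS hj hu L hL
  obtain ⟨c⟩ := hCOP ℕ X
  have hT := triangleOfSES_distinguished hS
  have hext : ∀ {Z : Dc (Al k)} (a b : Q.obj (sumC X) ⟶ Z),
      (∀ m, Q.map (inj X m) ≫ a = Q.map (inj X m) ≫ b) → a = b :=
    fun a b hab => Cofan.IsColimit.hom_ext c a b hab
  have hdesc : ∀ {Z : Dc (Al k)} (f : ∀ m, Q.obj (X m) ⟶ Z),
      ∃ F : Q.obj (sumC X) ⟶ Z, ∀ m, Q.map (inj X m) ≫ F = f m :=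
    fun f => ⟨Cofan.IsColimit.desc c f, fun m => Cofan.IsColimit.fac c f m⟩
  have hjd : ∀ (m : ℕ) (f : Q.obj Y ⟶ L),
      Q.map (inj X m) ≫ Q.map (desc j) ≫ f = Q.map (j m) ≫ f := fun m f => by
    rw [← Functor.map_comp_assoc, inj_desc]
  constructor
  · refine (injective_iff_map_eq_zero (Preadditive.leftComp L (Q.map (j 0)))).2 fun f hf => ?_
    have h0 : ∀ m, Q.map (j m) ≫ f = 0 := fun m => by
      induction m with
      | zero => exact hf
      | succ m ih =>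
        refine (hu m L hL).1 ?_
        change Q.map (u m) ≫ Q.map (j (m + 1)) ≫ f = Q.map (u m) ≫ 0
        rw [← Functor.map_comp_assoc, hj, ih, comp_zero]
    refine EQVx.van _ hT L (fun g => ?_) f (hext _ _ fun m => ?_)
    · obtain ⟨a, -, ha⟩ := EQVx.ext (fun m => (hu m _ ((hSH M).1 L (-1) hL)).2) 0
        fun m => Q.map (inj X m) ≫ g
      obtain ⟨F, hF⟩ := hdesc a
      refine ⟨F, hext _ _ fun m => (EQVx.inj_tel X u m F).trans ?_⟩
      rw [hF, hF, ha, sub_sub_cancel]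
    · exact (hjd m f).trans ((h0 m).trans comp_zero.symm)
  · intro g
    obtain ⟨a, h0, ha⟩ := EQVx.ext (fun m => (hu m L hL).2) g fun _ => 0
    obtain ⟨F, hF⟩ := hdesc a
    obtain ⟨f, hf⟩ := Triangle.yoneda_exact₂ _ hT F (hext _ _ fun m =>
      (EQVx.inj_tel X u m F).trans (by
        rw [hF, hF, ha, sub_zero, sub_self]
        exact comp_zero.symm))
    exact ⟨f, (hjd 0 f).symm.trans ((congrArg _ hf.symm).trans ((hF 0).trans h0))⟩

end Pool.Agent.P.MP_3d2265_gt.DT
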