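import Pool.Agent.P.MP_3d2265_gt.DT.Iface

/-! Step FG. -/

set_option linter.unusedSectionVars false
set_option linter.unusedVariables false

namespace Pool.Agent.P.MP_3d2265_gt.DT

open CategoryTheory Limits Pretriangulated DerivedCategory Finset
open scoped Classical

universe w

namespace FGx

theorem ex {A : Type} [Ring A] (j : ℤ) (N : ModuleCat.{0} A) (ι : Type) :
    ∃ ψ : prodC (fun _ : ι => (sg j).obj N) ⟶ (sg j).obj (ModuleCat.of A (ι → N)),
      ∀ i, ψ ≫ (sg j).map (ModuleCat.ofHom (LinearMap.proj i)) = prp _ i := by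
  refine ⟨HomologicalComplex.mkHomToSingle (ModuleCat.ofHom (LinearMap.piMap fun _ =>
    (HomologicalComplex.singleObjXSelf (ComplexShape.up ℤ) j N).hom.hom)) fun p _ => ?_,
    fun i => HomologicalComplex.to_single_hom_ext ?_⟩
  · exact ModuleCat.hom_ext (LinearMap.ext fun v => funext fun i =>
      map_zero (HomologicalComplex.singleObjXSelf (ComplexShape.up ℤ) j N).hom.hom)
  · rw [HomologicalComplex.comp_f, HomologicalComplex.mkHomToSingle_f,
      HomologicalComplex.single_map_f_self, Category.assoc, Iso.inv_hom_id_assoc,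
      ← Category.assoc, Iso.comp_inv_eq]
    rfl

end FGx

theorem p_FG (k : Type) [Field k] [HasDerivedCategory.{w} (ModuleCat.{0} (Al k))]
    (hCOV : S_COV k) (hPROD : S_PROD k) :
    S_FG k := by
  intro C j hC hz N ι c
  obtain ⟨ψ, hψ⟩ := FGx.ex j N ι
  obtain ⟨f, hf⟩ := hPROD ι (fun _ => (sg j).obj N) C c
  obtain ⟨s, g, hg⟩ := hCOV C j hC hz (ModuleCat.of _ (Al k)) (ModuleCat.of _ (ι → N)) (ι → N)
    (fun a => ModuleCat.ofHom (LinearMap.toSpanSingleton (Al k) (ι → N) a))
    (fun v => ⟨v, 1, one_smul _ v⟩) (f ≫ Q.map ψ)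
  refine ⟨ι → N, s, g, fun a => a, fun i => ?_⟩
  have e : c i = (f ≫ Q.map ψ : C ⟶ (sd j).obj (ModuleCat.of _ (ι → N))) ≫
      (sd j).map (ModuleCat.ofHom (LinearMap.proj i)) := by
    rw [← hf i, ← hψ i, Q.map_comp, Category.assoc]
    rfl
  rw [e, hg, Preadditive.sum_comp]
  refine sum_congr rfl fun a _ => ?_
  rw [Category.assoc, ← Functor.map_comp]
  rfl

end Pool.Agent.P.MP_3d2265_gt.DT
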