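import Pool.Agent.P.MP_3d2265_gt.DT.Iface

/-! Step KZL. -/

set_option linter.unusedSectionVars false
set_option linter.unusedVariables false

namespace Pool.Agent.P.MP_3d2265_gt.DT

open CategoryTheory Limits Pretriangulated DerivedCategory Finset
open scoped Classical

universe w

namespace KZLx

variable {k : Type} [Field k]

theorem kz_equiv {N N' : Type} [AddCommGroup N] [Module (Al k) N] [AddCommGroup N']
    [Module (Al k) N'] (e : N ≃ₗ[Al k] N') (h : KZ k N) : KZ k N' := by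
  refine ⟨fun v => ?_, fun v h1 h2 h3 => ?_, fun b c h1 h2 h3 => ?_, fun d h1 => ?_⟩
  · obtain ⟨v, rfl⟩ := e.surjective v
    rw [← map_smul, h.hl, map_zero]
  · obtain ⟨v, rfl⟩ := e.surjective v
    rw [← map_smul] at h1 h2 h3
    rw [h.h0 v (e.injective h1) (e.map_eq_zero_iff.1 h2) (e.map_eq_zero_iff.1 h3), map_zero]
  · obtain ⟨b, rfl⟩ := e.surjective b
    obtain ⟨c, rfl⟩ := e.surjective c
    simp only [← map_smul] at h1 h2 h3
    obtain ⟨a, a1, a2, a3⟩ := h.h1 b c (e.injective h1) (e.injective h2) (e.injective h3)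
    exact ⟨e a, by rw [← map_smul, a1], by rw [← map_smul, a2], by rw [← map_smul, a3]⟩
  · obtain ⟨d, rfl⟩ := e.surjective d
    rw [← map_smul] at h1
    obtain ⟨b, c, a1, a2, a3⟩ := h.h2 d (e.injective h1)
    exact ⟨e b, e c, by rw [← map_smul, a1], by rw [← map_smul, a2],
      by rw [← map_smul, ← map_smul, ← map_sub, a3]⟩

theorem kz_sub {N : Type} [AddCommGroup N] [Module (Al k) N] [Subsingleton N] : KZ k N :=
  ⟨fun _ => Subsingleton.elim _ _, fun _ _ _ _ => Subsingleton.elim _ _,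
    fun _ _ _ _ _ => ⟨0, Subsingleton.elim _ _, Subsingleton.elim _ _, Subsingleton.elim _ _⟩,
    fun _ _ => ⟨0, 0, Subsingleton.elim _ _, Subsingleton.elim _ _, Subsingleton.elim _ _⟩⟩

theorem kz_pi {ι : Type} {N : ι → Type} [∀ i, AddCommGroup (N i)] [∀ i, Module (Al k) (N i)]
    (h : ∀ i, KZ k (N i)) : KZ k (∀ i, N i) := by
  refine ⟨fun v => funext fun i => (h i).hl _, fun v h1 h2 h3 => funext fun i =>
    (h i).h0 _ (congrFun h1 i) (congrFun h2 i) (congrFun h3 i), fun b c h1 h2 h3 => ?_,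
    fun d h1 => ?_⟩
  · choose a a1 a2 a3 using fun i =>
      (h i).h1 _ _ (congrFun h1 i) (congrFun h2 i) (congrFun h3 i)
    exact ⟨a, funext a1, funext a2, funext a3⟩
  · choose b c a1 a2 a3 using fun i => (h i).h2 _ (congrFun h1 i)
    exact ⟨b, c, funext a1, funext a2, funext a3⟩

theorem ex_of {T : Type} [AddCommGroup T] [Module (Al k) T] (F : Fil (Al k) T)
    (hD : ∀ t, F.D t = 0) (h : KZ k T) : F.Ex := by
  intro n t ht hd
  have inj : ∀ v, F.σ v = 0 → v = 0 := fun v hv => by rw [← F.σσ v, hv, map_zero]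
  rw [ht.δ_eq] at hd
  obtain ⟨⟨a0, -⟩, ⟨a1, b1⟩, ⟨a2, b2⟩, a3, b3⟩ := Fil.co_iff.1 ht
  have d1 : F.D (t 1) + F.σ ((bs .x : Al k) • t 0) = 0 := congrFun hd 1
  have d2 : F.D (t 2) + F.σ ((bs .y : Al k) • t 0) = 0 := congrFun hd 2
  have d3 : F.D (t 3) + F.σ ((bs .p : Al k) • t 2 - (bs .q : Al k) • t 1 -
    (bs .rz : Al k) • F.τ (n - 1) (t 0)) = 0 := congrFun hd 3
  rw [hD, zero_add] at d1 d2 d3
  have t0 : t 0 = 0 := h.h0 _ a0 (inj _ d1) (inj _ d2)
  have d4 := inj _ d3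
  rw [t0, map_zero, smul_zero, sub_zero, sub_eq_zero] at d4
  obtain ⟨a, c0, c1, c2⟩ := h.h1 _ _ a1 a2 d4
  have e : n - 1 - 1 = n - 2 := by ring
  obtain ⟨b, c, e1, e2, e3⟩ := h.h2 (F.σ (t 3) + (bs .rz : Al k) •
    F.τ (n - 1 - 1) (F.σ (F.τ (n - 1) a))) (by rw [smul_add, ← map_smul, a3, smul_smul, e2_rz])
  have hs : F.Co (n - 1) ![F.σ (F.τ (n - 1) a), F.τ (n - 1 - 1) b, F.τ (n - 1 - 1) c, 0] := by
    refine Fil.co_iff.2 ⟨⟨?_, ?_⟩, ⟨?_, ?_⟩, ⟨?_, ?_⟩, smul_zero _, map_zero _⟩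
    · change _ • F.σ (F.τ (n - 1) a) = F.σ (F.τ (n - 1) a)
      rw [← map_smul, ← map_smul, c0]
    · change F.τ _ (F.σ (F.τ (n - 1) a)) = F.σ (F.τ (n - 1) a)
      rw [F.τσ, F.ττ, min_self]
    · change _ • F.τ (n - 1 - 1) b = F.τ (n - 1 - 1) b
      rw [← map_smul, e1]
    · change F.τ _ (F.τ (n - 1 - 1) b) = F.τ (n - 1 - 1) b
      rw [F.ττ, min_self]
    · change _ • F.τ (n - 1 - 1) c = F.τ (n - 1 - 1) c
      rw [← map_smul, e2]
    · change F.τ _ (F.τ (n - 1 - 1) c) = F.τ (n - 1 - 1) c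
      rw [F.ττ, min_self]
  refine ⟨_, hs, ?_⟩
  rw [hs.δ_eq]
  funext i
  fin_cases i
  · change F.D _ + F.σ (_ • F.σ (F.τ (n - 1) a)) = t 0
    rw [hD, h.hl, map_zero, t0, add_zero]
  · change F.D _ + F.σ (_ • F.σ (F.τ (n - 1) a)) = t 1
    rw [hD, zero_add, map_smul, F.σσ, ← map_smul, c1, b1]
  · change F.D _ + F.σ (_ • F.σ (F.τ (n - 1) a)) = t 2
    rw [hD, zero_add, map_smul, F.σσ, ← map_smul, c2, b2]
  · change F.D _ + F.σ (_ • F.τ (n - 1 - 1) c - _ • F.τ (n - 1 - 1) b -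
      _ • F.τ (n - 1 - 1) (F.σ (F.τ (n - 1) a))) = t 3
    rw [hD, zero_add, ← map_smul (F.τ _) _ c, ← map_smul (F.τ _) _ b, ← map_sub (F.τ _), e3,
      map_add, map_smul, F.ττ, min_self, add_sub_cancel_right, F.τσ, F.σσ, e, b3]

end KZLx

theorem p_KZL (k : Type) [Field k] [HasDerivedCategory.{w} (ModuleCat.{0} (Al k))]
    (hLX : S_LX k) :
    S_KZL k := by
  intro N hN j
  refine (hLX ((sg j).obj N)).2 (KZLx.ex_of _ (fun t => funext fun q => ?_) (KZLx.kz_pi fun q => ?_))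
  · rw [fil_D, HomologicalComplex.single_obj_d]
    rfl
  · by_cases h : q = j
    · exact KZLx.kz_equiv
        (HomologicalComplex.singleObjXIsoOfEq (ComplexShape.up ℤ) j N q h).toLinearEquiv.symm hN
    · have := ModuleCat.subsingleton_of_isZero
        (HomologicalComplex.isZero_single_obj_X (ComplexShape.up ℤ) j N q h)
      exact KZLx.kz_sub

end Pool.Agent.P.MP_3d2265_gt.DT
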