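import Pool.Agent.P.MP_3d2265_gt.DT.Iface

/-! Step KZV. -/

set_option linter.unusedSectionVars false
set_option linter.unusedVariables false

namespace Pool.Agent.P.MP_3d2265_gt.DT

open CategoryTheory Limits Pretriangulated DerivedCategory Finset
open scoped Classical

universe w

namespace KZVx

variable {k : Type} [Field k]

theorem sv_ne : sv k ≠ 0 := fun h => by
  have := congrArg PowerSeries.constantCoeff h
  simp [sv] at this

theorem koszul {b c : Rg k} {t : k} (h : sv k * c - tv k * b = cc k t) :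
    ∃ a, c = tv k * a ∧ b = sv k * a := by
  have h1 : PowerSeries.X * PowerSeries.constantCoeff c = PowerSeries.C t := by
    have := congrArg PowerSeries.constantCoeff h
    simpa [sv, tv, cc] using this
  have h2 : t = 0 := by
    have := congrArg PowerSeries.constantCoeff h1
    simpa using this.symm
  subst h2
  have h3 : PowerSeries.constantCoeff c = 0 := by simpa using h1
  obtain ⟨a, ha⟩ := PowerSeries.X_dvd_iff.2 h3
  refine ⟨a, ha, ?_⟩
  have h4 : tv k * (sv k * a - b) = 0 := by
    rw [map_zero] at h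
    rw [← h, ha, tv]
    ring
  rcases mul_eq_zero.1 h4 with h5 | h5
  · exact absurd h5 PowerSeries.X_ne_zero
  · exact (sub_eq_zero.1 h5).symm

theorem split (r : Rg k) : ∃ (t : k) (b c : Rg k), r = cc k t + (sv k * c - tv k * b) := by
  obtain ⟨b, hb⟩ := PowerSeries.X_dvd_iff.2
    (show PowerSeries.constantCoeff (r - PowerSeries.C (PowerSeries.constantCoeff r)) = 0 by simp)
  obtain ⟨c, hc⟩ := PowerSeries.X_dvd_iff.2
    (show PowerSeries.constantCoeff (PowerSeries.constantCoeff r - PowerSeries.C
      (PowerSeries.constantCoeff (PowerSeries.constantCoeff r))) = 0 by simp)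
  refine ⟨PowerSeries.constantCoeff (PowerSeries.constantCoeff r), -b, PowerSeries.C c, ?_⟩
  have h := congrArg (PowerSeries.C (R := PowerSeries k)) hc
  rw [map_sub, map_mul] at h
  simp only [cc, sv, tv, RingHom.comp_apply]
  linear_combination hb + h

theorem mk_smul (a : Al k) (v : VV k) :
    a • (Submodule.Quotient.mk v : VV k ⧸ VS k) = Submodule.Quotient.mk (a • v) := rfl

theorem mk_congr {v v' : VV k} (h1 : v.1 = v'.1) (h2 : v.2.1 = v'.2.1) (h3 : v.2.2 = v'.2.2) :
    (Submodule.Quotient.mk v : VV k ⧸ VS k) = Submodule.Quotient.mk v' := by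
  rw [VV.ext h1 h2 h3]

/-- a triple -/
def tr (a b c : Rg k) : VV k := (a, b, c)

@[simp] theorem tr1 (a b c : Rg k) : (tr a b c).1 = a := rfl
@[simp] theorem tr2 (a b c : Rg k) : (tr a b c).2.1 = b := rfl
@[simp] theorem tr3 (a b c : Rg k) : (tr a b c).2.2 = c := rfl

end KZVx

open KZVx in
theorem p_KZV (k : Type) [Field k] [HasDerivedCategory.{w} (ModuleCat.{0} (Al k))] :
    S_KZV k := by
  refine ⟨fun v => ?_, fun v h0 hx hy => ?_, fun b c hb hc h => ?_, fun d hd => ?_⟩
  · obtain ⟨v, rfl⟩ := Submodule.Quotient.mk_surjective _ v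
    rw [mk_smul, ← Submodule.Quotient.mk_zero]
    exact mk_congr (by simp) (by simp) (by simp)
  · obtain ⟨v, rfl⟩ := Submodule.Quotient.mk_surjective _ v
    rw [mk_smul, Submodule.Quotient.mk_eq_zero, mem_VS] at hx
    have h1 : v.1 = 0 := by simpa [sv_ne] using hx.2.1
    rw [← h0, mk_smul, ← Submodule.Quotient.mk_zero]
    exact mk_congr (by simp [h1]) (by simp) (by simp)
  · obtain ⟨b, rfl⟩ := Submodule.Quotient.mk_surjective _ b
    obtain ⟨c, rfl⟩ := Submodule.Quotient.mk_surjective _ c
    rw [mk_smul, mk_smul, Submodule.Quotient.eq, mem_VS] at h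
    obtain ⟨-, -, t, ht⟩ := h
    obtain ⟨a, h1, h2⟩ := koszul (b := b.2.1) (c := c.2.1) (t := t) (by simpa using ht)
    refine ⟨Submodule.Quotient.mk (tr a 0 0), ?_, ?_, ?_⟩
    · rw [mk_smul]
      exact mk_congr (by simp) (by simp) (by simp)
    · rw [← hb, mk_smul, mk_smul]
      exact mk_congr (by simp) (by simp [h2]) (by simp)
    · rw [← hc, mk_smul, mk_smul]
      exact mk_congr (by simp) (by simp [h1]) (by simp)
  · obtain ⟨d, rfl⟩ := Submodule.Quotient.mk_surjective _ d
    obtain ⟨t, b, c, h⟩ := split d.2.2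
    refine ⟨Submodule.Quotient.mk (tr 0 b 0), Submodule.Quotient.mk (tr 0 c 0), ?_, ?_, ?_⟩
    · rw [mk_smul]
      exact mk_congr (by simp) (by simp) (by simp)
    · rw [mk_smul]
      exact mk_congr (by simp) (by simp) (by simp)
    · rw [← hd, mk_smul, mk_smul, mk_smul, ← Submodule.Quotient.mk_sub, Submodule.Quotient.eq,
        mem_VS]
      refine ⟨by simp, by simp, -t, ?_⟩
      simp only [vv_sub3, vv_a3, tr1, tr2, tr3, bs_ap, map_neg]
      simp only [reduceCtorEq, if_false, if_true, map_zero, map_one]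
      linear_combination -h

end Pool.Agent.P.MP_3d2265_gt.DT
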