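import Pool.Agent.P.MP_3d2265_gt.DT.Iface

/-! Step LAY. -/

set_option linter.unusedSectionVars false
set_option linter.unusedVariables false

namespace Pool.Agent.P.MP_3d2265_gt.DT

open CategoryTheory Limits Pretriangulated DerivedCategory Finset
open scoped Classical

universe w

namespace LAYx

variable {k : Type} [Field k] [HasDerivedCategory.{w} (ModuleCat.{0} (Al k))]

theorem gen (hCOV : S_COV k) {C : Dc (Al k)} {j : ℤ} (hC : Cpt C) (h0 : ∀ N, Hz C (j - 1) N)
    (J : Submodule (Al k) (Al k)) (hJ : Hz C j (cy J)) (N : ModuleCat.{0} (Al k))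
    (h : ∀ a ∈ J, ∀ v : N, a • v = 0) : Hz C j N := fun c => by
  obtain ⟨s, g, hc⟩ := hCOV C j hC h0 (cy J) N N
    (fun v => ModuleCat.ofHom (J.liftQ (LinearMap.toSpanSingleton (Al k) N v) fun a ha => h a ha v))
    (fun v => ⟨v, Submodule.Quotient.mk 1, one_smul (Al k) v⟩) c
  rw [hc]
  exact sum_eq_zero fun i _ => by rw [hJ (g i), zero_comp]

theorem lay (hCOV : S_COV k) (hTRI : S_TRI k) {C : Dc (Al k)} {j : ℤ} (hC : Cpt C)
    (h0 : ∀ N, Hz C (j - 1) N) (J : Submodule (Al k) (Al k)) (hJ : Hz C j (cy J))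
    (N : ModuleCat.{0} (Al k)) (b : Al k) (hb : ∀ (a : Al k) (v : N), b • v = 0 → b • a • v = 0)
    (h : ∀ a ∈ J, ∀ v : N, b • a • v = 0)
    (hN : ∀ N' : Submodule (Al k) N, (∀ v : N', b • v = 0) → Hz C j (ModuleCat.of _ N')) :
    Hz C j N := fun c => by
  let N' : Submodule (Al k) N :=
    { carrier := {v | b • v = 0}
      add_mem' := fun {u v} (hu : b • u = 0) (hv : b • v = 0) => by
        change b • (u + v) = 0
        rw [smul_add, hu, hv, add_zero]
      zero_mem' := smul_zero b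
      smul_mem' := hb }
  obtain ⟨c', hc⟩ := (hTRI (ModuleCat.of _ N') N (ModuleCat.of _ (N ⧸ N'))
    (ModuleCat.ofHom N'.subtype) (ModuleCat.ofHom N'.mkQ) N'.injective_subtype
    (LinearMap.exact_subtype_mkQ N') N'.mkQ_surjective C j).1 c
    (gen hCOV hC h0 J hJ _ (fun a ha v => by
      obtain ⟨u, rfl⟩ := N'.mkQ_surjective v
      exact (Submodule.Quotient.mk_eq_zero N').2 (h a ha u)) _)
  rw [hc, hN N' (fun v => Subtype.ext v.2) c', zero_comp]

theorem spl {a : Al k} (h : a .e2 = 0) : a = a * bs .e0 + a * bs .e1 :=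
  Al.ext fun i => by cases i <;> simp [mc, h]

theorem act {N : Type} [AddCommGroup N] [Module (Al k) N] {a b c d : Al k} {v : N}
    (h : b * a = c * d) (hv : d • v = 0) : b • a • v = 0 := by
  rw [← mul_smul, h, mul_smul, hv, smul_zero]

end LAYx

open LAYx in
theorem p_LAY (k : Type) [Field k] [HasDerivedCategory.{w} (ModuleCat.{0} (Al k))]
    (hCOV : S_COV k) (hTRI : S_TRI k) :
    S_LAY k := by
  intro C j hC h0 hS h1 hD
  have ha : ∀ N : ModuleCat.{0} (Al k), (∀ v : N, (bs .e0 : Al k) • v = 0) →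
      (∀ v : N, (bs .e1 : Al k) • v = 0) → Hz C j N := fun N g0 g1 =>
    gen hCOV hC h0 _ hS N fun a ha v => by
      rw [spl ha, add_smul, mul_smul, mul_smul, g0, g1, smul_zero, add_zero]
  have hb : ∀ N : ModuleCat.{0} (Al k), (∀ v : N, (bs .e0 : Al k) • v = 0) → Hz C j N :=
    fun N g0 => lay hCOV hTRI hC h0 _ h1 N (bs .e1) (fun a v hv => by
        rw [← mul_smul, spl (a := bs .e1 * a) (by simp [mc]), add_smul, mul_smul _ _ v,
          mul_smul _ _ v, g0, hv, smul_zero, add_zero])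
      (fun a ha v => act (c := bs .e1 * a) (d := bs .e0)
        (Al.ext fun i => by cases i <;> simp [mc, ha.1]) (g0 v))
      fun N' g1 => ha _ (fun v => Subtype.ext (g0 v.1)) g1
  have hc : ∀ N : ModuleCat.{0} (Al k), (∀ v : N, (bs .l : Al k) • v = 0) → Hz C j N :=
    fun N g0 => lay hCOV hTRI hC h0 _ hD N (bs .e0)
      (fun a v => act (c := bs .e0 * a) (Al.ext fun i => by cases i <;> simp [mc]))
      (fun a ha v => act (c := a .l • bs .e0) (d := bs .l)
        (Al.ext fun i => by cases i <;> simp [mc, ha.1]) (g0 v))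
      fun N' g1 => hb _ g1
  exact fun N => lay hCOV hTRI hC h0 _ hD N (bs .l)
    (fun a v => act (c := a .e0 • bs .e0) (Al.ext fun i => by cases i <;> simp [mc]))
    (fun a ha v => act (c := 0) (d := 0) (Al.ext fun i => by cases i <;> simp [mc, ha.1])
      (zero_smul _ v))
    fun N' g1 => hc _ g1

end Pool.Agent.P.MP_3d2265_gt.DT
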