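import Pool.Agent.P.MP_3d2265_gt.DT.Iface

/-! Step LOC. -/

set_option linter.unusedSectionVars false
set_option linter.unusedVariables false

namespace Pool.Agent.P.MP_3d2265_gt.DT

open CategoryTheory Limits Pretriangulated DerivedCategory Finset
open scoped Classical

universe w

namespace LOCx
variable {k : Type} [Field k] {T : Type} [AddCommGroup T] [Module (Al k) T] {F : Fil (Al k) T}

theorem G_all {p q : ℤ} {t : Fin 4 → T} (h : F.G p t) (hq : p - 1 ≤ q) (i : Fin 4) :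
    F.τ q (t i) = t i := by
  obtain ⟨h0, h1, h2, h3⟩ := h
  fin_cases i
  exacts [Fil.τ_mono h0 hq, Fil.τ_mono h1 hq, Fil.τ_mono h2 hq, Fil.τ_mono h3 (by omega)]

theorem G_of {p q : ℤ} {t : Fin 4 → T} (h : ∀ i, F.τ q (t i) = t i) (hq : q ≤ p - 2) : F.G p t :=
  ⟨Fil.τ_mono (h 0) (by omega), Fil.τ_mono (h 1) (by omega), Fil.τ_mono (h 2) (by omega),
    Fil.τ_mono (h 3) hq⟩

theorem G_mono {p q : ℤ} {t : Fin 4 → T} (h : F.G p t) (hq : p ≤ q) : F.G q t :=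
  ⟨Fil.τ_mono h.1 (by omega), Fil.τ_mono h.2.1 (by omega), Fil.τ_mono h.2.2.1 (by omega),
    Fil.τ_mono h.2.2.2 (by omega)⟩

theorem G_sub {p : ℤ} {s t : Fin 4 → T} (hs : F.G p s) (ht : F.G p t) : F.G p (s - t) := by
  obtain ⟨a0, a1, a2, a3⟩ := hs
  obtain ⟨b0, b1, b2, b3⟩ := ht
  simp only [Fil.G, Pi.sub_apply, map_sub, *, and_self]

theorem G_zero (p : ℤ) : F.G p 0 := by simp [Fil.G]

theorem δ_zero (n : ℤ) : F.δ n 0 = 0 := by
  have := Fil.δ_sub (F := F) n 0 0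
  rwa [sub_self, sub_self] at this

theorem Co_sum {n : ℤ} {u : ℕ → Fin 4 → T} (h : ∀ m, F.Co n (u m)) (m : ℕ) :
    F.Co n (∑ j ∈ range m, u j) := by
  induction m with
  | zero => intro i; simp
  | succ m ih => rw [sum_range_succ]; exact ih.add (h m)

end LOCx

open LOCx in
theorem p_LOC (k : Type) [Field k] [HasDerivedCategory.{w} (ModuleCat.{0} (Al k))]
    (hDD : S_DD k) (hEXT : S_EXT k) :
    S_LOC k := by
  intro T _ _ F S hS hA n t ht hδ
  have E := hEXT T F S hS hA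
  have D := hDD T F
  have step : ∀ (m : ℕ) (φ : Fin 4 → T), F.Co n φ ∧ F.δ n φ = 0 ∧ F.G (n - 2 - m) φ →
      ∃ u, F.Co (n - 1) u ∧ F.G (n - 1 - m) u ∧ F.Co n (φ - F.δ (n - 1) u) ∧
        F.δ n (φ - F.δ (n - 1) u) = 0 ∧ F.G (n - 2 - (m + 1 : ℕ)) (φ - F.δ (n - 1) u) := by
    rintro m φ ⟨h1, h2, h3⟩
    obtain ⟨ψ, hψ, hG⟩ := E n (n - 2 - (m + 1 : ℕ)) φ (by omega) h1 (by rw [h2]; exact G_zero _)
    have h4 : F.G (n - 1 - m - 1) (F.δ (n - 1) ψ) := by
      have := G_sub (G_mono h3 (show _ ≤ n - 1 - m - 1 by omega))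
        (G_mono hG (show _ ≤ n - 1 - m - 1 by push_cast; omega))
      rwa [sub_sub_cancel] at this
    obtain ⟨s, hs, hG'⟩ := E (n - 1) (n - 1 - m) ψ (by omega) hψ h4
    obtain ⟨d1, d2, -⟩ := D (n - 1 - 1) (n - 1) s (by ring) hs
    obtain ⟨d3, d4, -⟩ := D (n - 1) n ψ (by ring) hψ
    refine ⟨ψ - F.δ (n - 1 - 1) s, hψ.sub d1, hG', ?_⟩
    rw [Fil.δ_sub (n - 1), d2, sub_zero]
    exact ⟨h1.sub d3, by rw [Fil.δ_sub, h2, d4, sub_zero], hG⟩
  choose! U hU using step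
  obtain ⟨s₀, hs₀, hG₀⟩ := E n (n - 2) t (by omega) ht (by rw [hδ]; exact G_zero _)
  obtain ⟨d1, d2, -⟩ := D (n - 1) n s₀ (by ring) hs₀
  let φ : ℕ → Fin 4 → T := fun m =>
    Nat.rec (t - F.δ (n - 1) s₀) (fun m φ => φ - F.δ (n - 1) (U m φ)) m
  have hφ : ∀ m, F.Co n (φ m) ∧ F.δ n (φ m) = 0 ∧ F.G (n - 2 - m) (φ m) := fun m => by
    induction m with
    | zero =>
      exact ⟨ht.sub d1, by
        change F.δ n (t - _) = 0
        rw [Fil.δ_sub, hδ, d2, sub_zero], G_mono hG₀ (by omega)⟩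
    | succ m ih => exact (hU m _ ih).2.2
  let u : ℕ → Fin 4 → T := fun m => U m (φ m)
  have hu : ∀ m, F.Co (n - 1) (u m) := fun m => (hU m _ (hφ m)).1
  have hφu : ∀ m, φ m = φ 0 - F.δ (n - 1) (∑ j ∈ range m, u j) := fun m => by
    induction m with
    | zero => rw [sum_range_zero, δ_zero, sub_zero]
    | succ m ih => rw [sum_range_succ, Fil.δ_add, ← sub_sub, ← ih]
  have hl : ∀ i, ∃ s, ∀ m : ℕ, F.τ (n - 2 - m) (s - ∑ j ∈ range m, u j i) =
      s - ∑ j ∈ range m, u j i := fun i =>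
    F.lim (n - 2) (fun m => u m i) fun m => G_all (hU m _ (hφ m)).2.1 (by omega) i
  choose s hs using hl
  simp only [← Finset.sum_apply] at hs
  have hco : F.Co (n - 1) s := fun i => by
    constructor
    · refine sub_eq_zero.1 (F.sep (n - 2) _ fun m => ?_)
      have e : eps k i • s i - s i = eps k i • (s i - (∑ j ∈ range m, u j) i) -
          (s i - (∑ j ∈ range m, u j) i) := by
        rw [smul_sub, (Co_sum hu m i).1]; abel
      rw [e, map_sub, map_smul, hs]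
    · refine sub_eq_zero.1 (F.sep (n - 2) _ fun m => ?_)
      have e : F.τ (n - 1 - dep i) (s i) - s i =
          F.τ (n - 1 - dep i) (s i - (∑ j ∈ range m, u j) i) - (s i - (∑ j ∈ range m, u j) i) := by
        rw [map_sub, (Co_sum hu m i).2]; abel
      rw [e, map_sub, F.ττ, min_comm, ← F.ττ, hs]
  refine ⟨s₀ + s, hs₀.add hco, ?_⟩
  have hz : φ 0 - F.δ (n - 1) s = 0 := funext fun i => F.sep n _ fun m => by
    have e : φ 0 - F.δ (n - 1) s = φ m - F.δ (n - 1) (s - ∑ j ∈ range m, u j) := by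
      rw [hφu m, Fil.δ_sub]; abel
    have h1 := (D (n - 1) n _ (by ring) (hco.sub (Co_sum hu m))).2.2 (n - m)
      (G_of (q := n - 2 - m) (fun i => hs i m) (by omega))
    rw [e]
    exact G_all (G_sub (G_mono (hφ m).2.2 (by omega)) h1) (by omega) i
  rw [Fil.δ_add, ← sub_eq_zero.1 hz]
  exact add_sub_cancel _ _

end Pool.Agent.P.MP_3d2265_gt.DT
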