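import Pool.Agent.P.MP_3d2265_gt.DT.Iface

/-! Step LX. -/

set_option linter.unusedSectionVars false
set_option linter.unusedVariables false

namespace Pool.Agent.P.MP_3d2265_gt.DT

open CategoryTheory Limits Pretriangulated DerivedCategory Finset
open scoped Classical

universe w

theorem p_LX (k : Type) [Field k] [HasDerivedCategory.{w} (ModuleCat.{0} (Al k))]
    (hREPA : S_REPA k) (hREPB : S_REPB k) (hRES : S_RES k) :
    S_LX k := by
  intro Y
  constructor
  · intro h n t ht h0
    obtain ⟨f, rfl⟩ := (hREPA n Y).2 t ht h0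
    obtain ⟨hK, π, hπ⟩ := hRES n
    have h1 : Q.map f = 0 := by
      rw [← cancel_epi (inv (Q.map π)), comp_zero]
      exact h n _
    refine (hREPB n Y f).1 ⟨HomotopyCategory.homotopyOfEq _ _
      ((CochainComplex.IsKProjective.Qh_map_bijective _ _).injective ?_)⟩
    rw [← cancel_mono ((quotientCompQhIso _).hom.app Y), quotientCompQhIso_hom_naturality,
      quotientCompQhIso_hom_naturality, h1, Functor.map_zero]
  · intro h n g
    obtain ⟨hK, π, hπ⟩ := hRES n
    obtain ⟨f, hf⟩ := (CochainComplex.IsKProjective.Qh_map_bijective (PP k n)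
      ((HomotopyCategory.quotient _ _).obj Y)).surjective
      ((quotientCompQhIso _).hom.app _ ≫ Q.map π ≫ g ≫ (quotientCompQhIso _).inv.app Y)
    obtain ⟨f, rfl⟩ := (HomotopyCategory.quotient _ _).map_surjective f
    obtain ⟨H⟩ := (hREPB n Y f).2 (h n _ ((hREPA n Y).1 f).1 ((hREPA n Y).1 f).2)
    rw [HomotopyCategory.eq_of_homotopy _ _ H, Functor.map_zero, Functor.map_zero] at hf
    have := hf.symm
    rwa [Preadditive.IsIso.comp_left_eq_zero, Preadditive.IsIso.comp_left_eq_zero,
      Preadditive.IsIso.comp_right_eq_zero] at this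

end Pool.Agent.P.MP_3d2265_gt.DT
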