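import Pool.Agent.P.MP_3d2265_gt.DT.Iface

/-! Step MAP. -/

set_option linter.unusedSectionVars false
set_option linter.unusedVariables false

namespace Pool.Agent.P.MP_3d2265_gt.DT

open CategoryTheory Limits Pretriangulated DerivedCategory Finset
open scoped Classical

universe w

namespace MAPx

variable {k : Type} [Field k]

/-- a map out of a cyclic module -/
noncomputable def out (J : Submodule (Al k) (Al k)) {N : Type} [AddCommGroup N] [Module (Al k) N]
    (n : N) (h : ∀ a ∈ J, a • n = 0) : (Al k ⧸ J) →ₗ[Al k] N :=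
  J.liftQ (LinearMap.toSpanSingleton (Al k) N n) fun a ha => h a ha

theorem out_mk (J : Submodule (Al k) (Al k)) {N : Type} [AddCommGroup N] [Module (Al k) N]
    (n : N) (h : ∀ a ∈ J, a • n = 0) (a : Al k) :
    out J n h (Submodule.Quotient.mk a) = a • n := rfl

/-- right multiplication between cyclic modules -/
noncomputable def rm (J J' : Submodule (Al k) (Al k)) (b : Al k) (h : ∀ a ∈ J, a * b ∈ J') :
    (Al k ⧸ J) →ₗ[Al k] (Al k ⧸ J') :=
  out J (Submodule.Quotient.mk b) fun a ha => by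
    rw [← Submodule.Quotient.mk_smul, Submodule.Quotient.mk_eq_zero]
    exact h a ha

theorem rm_mk (J J' : Submodule (Al k) (Al k)) (b : Al k) (h : ∀ a ∈ J, a * b ∈ J') (a : Al k) :
    rm J J' b h (Submodule.Quotient.mk a) = Submodule.Quotient.mk (a * b) := rfl

/-- the constant term -/
noncomputable def c0 (k : Type) [Field k] : Rg k →+* k :=
  (PowerSeries.constantCoeff (R := k)).comp (PowerSeries.constantCoeff (R := PowerSeries k))

@[simp] theorem c0_cc (c : k) : c0 k (cc k c) = c := by simp [c0, cc]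
@[simp] theorem c0_sv : c0 k (sv k) = 0 := by simp [c0, sv]
@[simp] theorem c0_tv : c0 k (tv k) = 0 := by simp [c0, tv]

theorem c0_eq_zero {r : Rg k} (h : c0 k r = 0) : ∃ a b, r = sv k * a + tv k * b := by
  obtain ⟨a, ha⟩ : (PowerSeries.X : PowerSeries k) ∣
      PowerSeries.constantCoeff (R := PowerSeries k) r := PowerSeries.X_dvd_iff.mpr h
  obtain ⟨b, hb⟩ : (PowerSeries.X : Rg k) ∣
      r - PowerSeries.C (PowerSeries.constantCoeff (R := PowerSeries k) r) :=
    PowerSeries.X_dvd_iff.mpr (by simp)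
  refine ⟨PowerSeries.C a, b, ?_⟩
  rw [sv, tv, ← map_mul, ← ha, ← hb]
  ring

/-- the element attached to a vector -/
noncomputable def el (v : VV k) : Al k :=
  c0 k v.1 • bs .l + c0 k v.2.1 • bs .zl + c0 k v.2.2 • (bs .py - bs .qx)

theorem el_add (v v' : VV k) : el (v + v') = el v + el v' :=
  Al.ext fun i => by cases i <;> simp [el] <;> ring

theorem el_smul (a : Al k) (v : VV k) : el (a • v) = a * el v :=
  Al.ext fun i => by cases i <;> simp [el, mc] <;> ring

/-- the map from `V` -/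
noncomputable def ee' (k : Type) [Field k] : VV k →ₗ[Al k] (Al k ⧸ J0 k) where
  toFun v := Submodule.Quotient.mk (el v)
  map_add' v v' := by rw [el_add, Submodule.Quotient.mk_add]
  map_smul' a v := by rw [el_smul]; rfl

theorem ee'_apply (v : VV k) : ee' k v = Submodule.Quotient.mk (el v) := rfl

/-- the generator of the constants -/
noncomputable def n3 (k : Type) [Field k] : VV k := ((0 : Rg k), (0 : Rg k), (1 : Rg k))

theorem smul_n3_1 (a : Al k) : (a • n3 k).1 = 0 := by simp [n3]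
theorem smul_n3_2 (a : Al k) : (a • n3 k).2.1 = 0 := by simp [n3]
theorem smul_n3_3 (a : Al k) : (a • n3 k).2.2 = cc k (a .e2) := by simp [n3]

/-- the inclusion of the simple module -/
noncomputable def ii (k : Type) [Field k] : (Al k ⧸ JS k) →ₗ[Al k] VV k :=
  out (JS k) (n3 k) fun a ha =>
    VV.ext (smul_n3_1 a) (smul_n3_2 a) (by rw [smul_n3_3, mem_JS.1 ha, map_zero]; rfl)

theorem ii_mk (a : Al k) : ii k (Submodule.Quotient.mk a) = a • n3 k := rfl

theorem le_D : J0 k ≤ JD k := fun a ha => by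
  obtain ⟨h1, h2, h3, h4, h5, h6, h7, h8, h9⟩ := mem_J0.1 ha
  exact mem_JD.2 ⟨h1, h3, h4, h6, by rw [h7, h8, neg_zero], h9⟩

theorem hp : ∀ a ∈ JS k, a * bs .p ∈ J1 k := fun a ha => by
  have := mem_JS.1 ha
  simp [mem_J1, mc, this]

theorem hq : ∀ a ∈ JS k, a * bs .q ∈ J1 k := fun a ha => by
  have := mem_JS.1 ha
  simp [mem_J1, mc, this]

theorem hy : ∀ a ∈ J1 k, a * bs .y ∈ J0 k := fun a ha => by
  obtain ⟨h1, h2, h3⟩ := mem_J1.1 ha
  simp [mem_J0, mc, h1, h2, h3]

theorem hx : ∀ a ∈ J1 k, a * bs .x ∈ J0 k := fun a ha => by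
  obtain ⟨h1, h2, h3⟩ := mem_J1.1 ha
  simp [mem_J0, mc, h1, h2, h3]

end MAPx

open MAPx in
theorem p_MAP (k : Type) [Field k] [HasDerivedCategory.{w} (ModuleCat.{0} (Al k))] :
    S_MAP k := by
  refine ⟨ModuleCat.ofHom (ii k), ModuleCat.ofHom (ee' k),
    ModuleCat.ofHom (Submodule.factor le_D), ModuleCat.ofHom (rm _ _ _ hp),
    ModuleCat.ofHom (rm _ _ _ hq), ModuleCat.ofHom (rm _ _ _ hy), ModuleCat.ofHom (rm _ _ _ hx),
    ?_, ?_, ?_, ?_, ?_, ?_⟩
  · change Function.Injective (ii k)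
    refine (injective_iff_map_eq_zero _).2 fun u hu => ?_
    obtain ⟨a, rfl⟩ := Submodule.Quotient.mk_surjective _ u
    rw [ii_mk] at hu
    have h3 : cc k (a .e2) = 0 := by rw [← smul_n3_3, hu]; rfl
    have h4 := congrArg (c0 k) h3
    rw [c0_cc, map_zero] at h4
    exact (Submodule.Quotient.mk_eq_zero _).2 (mem_JS.2 h4)
  · change Function.Exact (ii k) (VS k).mkQ
    intro v
    rw [Submodule.mkQ_apply, Submodule.Quotient.mk_eq_zero, mem_VS]
    constructor
    · rintro ⟨h1, h2, c, h3⟩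
      refine ⟨Submodule.Quotient.mk (c • bs .e2), ?_⟩
      rw [ii_mk]
      exact VV.ext (by rw [smul_n3_1, h1]) (by rw [smul_n3_2, h2]) (by rw [smul_n3_3, h3]; simp)
    · rintro ⟨u, rfl⟩
      obtain ⟨a, rfl⟩ := Submodule.Quotient.mk_surjective _ u
      rw [ii_mk]
      exact ⟨smul_n3_1 a, smul_n3_2 a, _, smul_n3_3 a⟩
  · refine ModuleCat.hom_ext (LinearMap.ext fun u => ?_)
    obtain ⟨a, rfl⟩ := Submodule.Quotient.mk_surjective _ u
    change ee' k (ii k (Submodule.Quotient.mk a)) =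
      rm _ _ _ hy (rm _ _ _ hp (Submodule.Quotient.mk a)) -
        rm _ _ _ hx (rm _ _ _ hq (Submodule.Quotient.mk a))
    rw [ii_mk, ee'_apply, rm_mk, rm_mk, rm_mk, rm_mk, ← Submodule.Quotient.mk_sub, el_smul]
    congr 1
    exact Al.ext fun i => by cases i <;> simp [el, mc, n3]
  · intro v
    change ee' k v = 0 ↔ _
    rw [ee'_apply, Submodule.Quotient.mk_eq_zero, mem_J0]
    constructor
    · rintro ⟨-, h2, -, -, h5, -, h7, -, -⟩
      obtain ⟨a1, b1, e1⟩ := c0_eq_zero (r := v.1) (by simpa [el] using h2)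
      obtain ⟨a2, b2, e2⟩ := c0_eq_zero (r := v.2.1) (by simpa [el] using h5)
      obtain ⟨a3, b3, e3⟩ := c0_eq_zero (r := v.2.2) (by simpa [el] using h7)
      exact ⟨(a1, a2, a3), (b1, b2, b3), VV.ext e1 e2 e3⟩
    · rintro ⟨v₁, v₂, rfl⟩
      simp [el]
  · change Function.Exact (ee' k) (Submodule.factor le_D)
    intro u
    obtain ⟨a, rfl⟩ := Submodule.Quotient.mk_surjective _ u
    have hf : Submodule.factor (le_D (k := k)) (Submodule.Quotient.mk a)
        = Submodule.Quotient.mk a := rfl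
    rw [hf, Submodule.Quotient.mk_eq_zero]
    constructor
    · intro ha
      obtain ⟨h1, h2, h3, h4, h5, h6⟩ := mem_JD.1 ha
      refine ⟨(cc k (a .l), cc k (a .zl), cc k (a .py)), ?_⟩
      rw [ee'_apply, Submodule.Quotient.eq, mem_J0]
      simp [el, h1, h2, h3, h4, h5, h6]
    · rintro ⟨v, hv⟩
      rw [ee'_apply, Submodule.Quotient.eq] at hv
      have h1 := le_D hv
      have h2 : el v ∈ JD k := by simp [mem_JD, el]
      simpa using (JD k).sub_mem h2 h1
  · change Function.Surjective (Submodule.factor le_D)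
    intro u
    obtain ⟨a, rfl⟩ := Submodule.Quotient.mk_surjective _ u
    exact ⟨Submodule.Quotient.mk a, rfl⟩

end Pool.Agent.P.MP_3d2265_gt.DT
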