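import Pool.Agent.P.MP_3d2265_gt.DT.Iface

/-! Step NAK. -/

set_option linter.unusedSectionVars false
set_option linter.unusedVariables false

namespace Pool.Agent.P.MP_3d2265_gt.DT

open CategoryTheory Limits Pretriangulated DerivedCategory Finset
open scoped Classical

universe w

namespace NAKx

variable {k : Type} [Field k] [HasDerivedCategory.{w} (ModuleCat.{0} (Al k))]

/-- morphisms to the module `V` -/
def WW (C : Dc (Al k)) (j : ℤ) := C ⟶ (sd j).obj (Vm k)

variable {C : Dc (Al k)} {j : ℤ}

noncomputable instance : AddCommGroup (WW C j) :=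
  inferInstanceAs (AddCommGroup (C ⟶ (sd j).obj (Vm k)))

/-- the action of a power series -/
noncomputable def mp (j : ℤ) (r : Rg k) : (sd j).obj (Vm k) ⟶ (sd j).obj (Vm k) :=
  (sd j).map (ModuleCat.ofHom (rho r))

theorem mp_one : mp j (1 : Rg k) = 𝟙 _ := by
  rw [mp, ← (sd j).map_id]
  exact congrArg _ (ModuleCat.hom_ext (LinearMap.ext fun v => one_smul _ v))

theorem mp_mul (r s : Rg k) : mp j (r * s) = mp j s ≫ mp j r := by
  rw [mp, mp, mp, ← Functor.map_comp]
  exact congrArg _ (ModuleCat.hom_ext (LinearMap.ext fun v => mul_smul r s v))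

theorem mp_add (r s : Rg k) : mp j (r + s) = mp j r + mp j s := by
  rw [mp, mp, mp, ← Functor.map_add]
  exact congrArg _ (ModuleCat.hom_ext (LinearMap.ext fun v => add_smul r s v))

theorem mp_zero : mp j (0 : Rg k) = 0 := by
  rw [mp, ← (sd j).map_zero]
  exact congrArg _ (ModuleCat.hom_ext (LinearMap.ext fun v => zero_smul _ v))

noncomputable instance : Module (Rg k) (WW C j) where
  smul r c := CategoryStruct.comp (X := C) c (mp j r)
  one_smul c := (congrArg (CategoryStruct.comp (X := C) c) mp_one).trans (Category.comp_id _)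
  mul_smul r s c := (congrArg (CategoryStruct.comp (X := C) c) (mp_mul r s)).trans
    (Category.assoc _ _ _).symm
  smul_zero r := zero_comp
  smul_add r c d := Preadditive.add_comp _ _ _ _ _ _
  add_smul r s c := (congrArg (CategoryStruct.comp (X := C) c) (mp_add r s)).trans
    (Preadditive.comp_add _ _ _ _ _ _)
  zero_smul c := (congrArg (CategoryStruct.comp (X := C) c) mp_zero).trans comp_zero

/-- the morphism given by an element of `V` -/
noncomputable def el (g : C ⟶ (sd j).obj (ModuleCat.of _ (Al k))) (v : VV k) : WW C j :=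
  g ≫ (sd j).map (ModuleCat.ofHom (LinearMap.toSpanSingleton (Al k) (VV k) v))

theorem el_add (g : C ⟶ (sd j).obj (ModuleCat.of _ (Al k))) (v v' : VV k) :
    el g (v + v') = el g v + el g v' := by
  refine Eq.trans ?_ (Preadditive.comp_add _ _ _ g _ _)
  rw [← Functor.map_add]
  exact congrArg (fun f => g ≫ (sd j).map f)
    (ModuleCat.hom_ext (LinearMap.ext fun a => smul_add a v v'))

theorem el_smul (g : C ⟶ (sd j).obj (ModuleCat.of _ (Al k))) (r : Rg k) (v : VV k) :
    el g (r • v) = r • el g v := by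
  refine Eq.trans ?_ (Category.assoc g _ _).symm
  rw [mp, ← Functor.map_comp]
  exact congrArg (fun f => g ≫ (sd j).map f)
    (ModuleCat.hom_ext (LinearMap.ext fun a => (smul_comm r a v).symm))

/-- the same as a linear map -/
noncomputable def ell (g : C ⟶ (sd j).obj (ModuleCat.of _ (Al k))) : VV k →ₗ[Rg k] WW C j where
  toFun := el g
  map_add' := el_add g
  map_smul' := el_smul g

instance : Module.Finite (Rg k) (VV k) :=
  inferInstanceAs (Module.Finite (Rg k) (Rg k × Rg k × Rg k))

theorem unit {r : Rg k} (h : r - 1 ∈ Ideal.span {sv k, tv k}) : IsUnit r := by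
  obtain ⟨a, b, e⟩ := Ideal.mem_span_pair.1 h
  have : PowerSeries.constantCoeff (PowerSeries.constantCoeff r) = 1 := by
    rw [← sub_add_cancel r 1, ← e]
    simp [sv, tv]
  rw [PowerSeries.isUnit_iff_constantCoeff, PowerSeries.isUnit_iff_constantCoeff, this]
  exact isUnit_one

end NAKx

open NAKx in
theorem p_NAK (k : Type) [Field k] [HasDerivedCategory.{w} (ModuleCat.{0} (Al k))]
    (hFG : S_FG k) :
    S_NAK k := by
  intro C j hC hz h c
  have h' : ∀ c : WW C j, ∃ c₁ c₂ : WW C j, c = sv k • c₁ + tv k • c₂ := h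
  choose f₁ f₂ hf using h'
  let u : List Bool → WW C j := fun l => l.foldr (fun b x => bif b then f₁ x else f₂ x) c
  obtain ⟨κ, s, g, v, hv⟩ := hFG C j hC hz (Vm k) (List Bool) u
  have hv' : ∀ l, u l = ∑ a ∈ s, ell (g a) (v a l) := hv
  have fg : (s.sup fun a => LinearMap.range (ell (g a))).FG :=
    Submodule.fg_finset_sup _ _ fun a _ => Submodule.fg_range _
  have le : Submodule.span (Rg k) (Set.range u) ≤ s.sup fun a => LinearMap.range (ell (g a)) := by
    rw [Submodule.span_le]
    rintro _ ⟨l, rfl⟩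
    rw [hv' l]
    exact Submodule.sum_mem _ fun a ha =>
      Finset.le_sup (f := fun a => LinearMap.range (ell (g a))) ha ⟨_, rfl⟩
  obtain ⟨r, h1, h2⟩ := Submodule.exists_sub_one_mem_and_smul_eq_zero_of_fg_of_le_smul
    (Ideal.span {sv k, tv k}) _ (fg.of_le le) (by
      rw [Submodule.span_le]
      rintro _ ⟨l, rfl⟩
      rw [hf (u l)]
      exact add_mem
        (Submodule.smul_mem_smul (Ideal.subset_span (by simp)) (Submodule.subset_span ⟨true :: l, rfl⟩))
        (Submodule.smul_mem_smul (Ideal.subset_span (by simp)) (Submodule.subset_span ⟨false :: l, rfl⟩)))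
  have h3 : u [] = 0 := (unit h1).smul_eq_zero.1 (h2 (u []) (Submodule.subset_span ⟨[], rfl⟩))
  exact h3

end Pool.Agent.P.MP_3d2265_gt.DT
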