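import Pool.Agent.P.MP_3d2265_gt.DT.Iface

/-! Step NUL. -/

set_option linter.unusedSectionVars false
set_option linter.unusedVariables false

namespace Pool.Agent.P.MP_3d2265_gt.DT

open CategoryTheory Limits Pretriangulated DerivedCategory Finset
open scoped Classical

universe w

theorem p_NUL (k : Type) [Field k] [HasDerivedCategory.{w} (ModuleCat.{0} (Al k))] :
    S_NUL k := by
  intro K L f hf
  have h1 : Qh.map ((HomotopyCategory.quotient _ _).map f) =
      Qh.map (0 : (HomotopyCategory.quotient _ _).obj K ⟶ (HomotopyCategory.quotient _ _).obj L) := by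
    have h := quotientCompQhIso_hom_naturality f
    rw [hf, comp_zero] at h
    rw [Functor.map_zero]
    exact (cancel_mono ((quotientCompQhIso (ModuleCat.{0} (Al k))).hom.app L)).1
      (h.trans zero_comp.symm)
  obtain ⟨X, s, hs, e⟩ := (MorphismProperty.map_eq_iff_precomp Qh
    (HomotopyCategory.quasiIso (ModuleCat.{0} (Al k)) (ComplexShape.up ℤ)) _ _).1 h1
  obtain ⟨K', rfl⟩ := HomotopyCategory.quotient_obj_surjective X
  obtain ⟨s, rfl⟩ := (HomotopyCategory.quotient _ _).map_surjective s
  refine ⟨K', s, ?_, ?_⟩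
  · exact (HomologicalComplex.mem_quasiIso_iff s).1
      ((HomotopyCategory.quotient_map_mem_quasiIso_iff s).1 hs)
  · rw [← HomotopyCategory.quotient_map_eq_zero_iff, Functor.map_comp, e, comp_zero]

end Pool.Agent.P.MP_3d2265_gt.DT
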