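import Pool.Agent.P.MP_3d2265_gt.DT.Iface

/-! Step PEX. -/

set_option linter.unusedSectionVars false
set_option linter.unusedVariables false

namespace Pool.Agent.P.MP_3d2265_gt.DT

open CategoryTheory Limits Pretriangulated DerivedCategory Finset
open scoped Classical

universe w

namespace PEXx
variable {k : Type} [Field k]

theorem l0 (v : Al k) (h : v * bs .e0 = v) (hv : v ∈ JM k) : ∃ w0 w1 w2 : Al k,
    w0 * bs .e0 = w0 ∧ w1 * bs .e1 = w1 ∧ w2 * bs .e1 = w2 ∧
      w0 * bs .l + w1 * bs .x + w2 * bs .y = v := by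
  obtain ⟨a1, a2, a3⟩ := mem_JM.1 hv
  have b1 := congrFun h .e1
  have b2 := congrFun h .p
  have b3 := congrFun h .q
  have b4 := congrFun h .r
  have b5 := congrFun h .e2
  simp [mc] at b1 b2 b3 b4 b5
  refine ⟨v .l • bs .e0 + v .zl • bs .z, v .x • bs .e1 + v .px • bs .p + v .qx • bs .q + v .rx • bs .r,
    v .y • bs .e1 + v .py • bs .p + v .qy • bs .q + v .ry • bs .r, ?_, ?_, ?_, ?_⟩ <;>
  exact Al.ext fun i => by cases i <;> simp [mc, a1, a2, a3, ← b1, ← b2, ← b3, ← b4, ← b5]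

theorem ty1 (v : Al k) (h : v * bs .e1 = v) :
    v = v .e1 • bs .e1 + v .p • bs .p + v .q • bs .q + v .r • bs .r :=
  Al.ext fun i => by rw [← congrFun h i]; cases i <;> simp [mc]

theorem l1 (v0 v1 v2 : Al k) (h1 : v1 * bs .e1 = v1) (h2 : v2 * bs .e1 = v2)
    (h : (v0 * bs .l + v1 * bs .x + v2 * bs .y) * bs .e0 = 0) : ∃ c : k,
    v2 = c • bs .p ∧ v1 = -(c • bs .q) ∧ v0 + c • bs .rz ∈ JM k := by
  rw [ty1 v1 h1, ty1 v2 h2] at h ⊢
  have b1 := congrFun h .l
  have b2 := congrFun h .x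
  have b3 := congrFun h .y
  have b4 := congrFun h .zl
  have b5 := congrFun h .px
  have b6 := congrFun h .py
  have b7 := congrFun h .qx
  have b8 := congrFun h .qy
  have b9 := congrFun h .rx
  have b10 := congrFun h .ry
  simp [mc] at b1 b2 b3 b4 b5 b6 b7 b8 b9 b10
  refine ⟨v2 .p, by simp [b3, b8, b10], ?_, mem_JM.2 ⟨by simp [b1], by simp [b4], by simpa using b6⟩⟩
  have e : v1 .q = -v2 .p := by linear_combination b7 + b6
  simp [b2, b5, b9, e]

theorem l2 (v : Al k) (h : v * bs .e2 = v) (h' : v * bs .p * bs .e1 = 0) : v = 0 := by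
  have b := congrFun h' .p
  simp [mc] at b
  exact Al.ext fun i => by rw [← congrFun h i]; cases i <;> simp [mc, b]

theorem sol {n p q : ℤ} (v : PX k n q) (w : Fin 4 → Al k) (hw : ∀ i, w i * ee k n p i = w i)
    (h : ∀ j, (∑ i, w i * mat k i j) * ee k n q j = v.1 j) : ∃ u, Pd k n p q u = v := by
  refine ⟨(p.negOnePow : ℤ) • (⟨w, hw⟩ : PX k n p), ?_⟩
  rw [map_zsmul]
  refine Subtype.ext (funext fun j => ?_)
  change (p.negOnePow : ℤ) • (Pd k n p q ⟨w, hw⟩).1 j = _
  rw [Pd_val, smul_smul, ← Units.val_mul, Int.units_mul_self, Units.val_one, one_smul]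
  exact h j

theorem zer {n p q : ℤ} (v : PX k n p) (h : Pd k n p q v = 0) (j : Fin 4) :
    (∑ i, v.1 i * mat k i j) * ee k n q j = 0 := by
  have e : (Pd k n p q v).1 j = 0 := by rw [h]; rfl
  rw [Pd_val] at e
  have e2 := congrArg (fun a : Al k => (p.negOnePow : ℤ) • a) e
  simpa only [smul_smul, ← Units.val_mul, Int.units_mul_self, Units.val_one, one_smul,
    smul_zero] using e2

end PEXx

theorem p_PEX (k : Type) [Field k] [HasDerivedCategory.{w} (ModuleCat.{0} (Al k))] :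
    S_PEX k := by
  intro n
  refine ⟨fun q v h => Subtype.ext (funext fun i => ?_), fun v hv => ?_, fun u => ?_,
    fun q v hq h => ?_⟩
  · have e : ¬ q ≤ n - dep i := by fin_cases i <;> simp [dep] <;> omega
    rw [← v.2 i, ee, if_neg e, mul_zero]
    rfl
  · have a0 := v.2 0
    have a1 := v.2 1
    have a2 := v.2 2
    have a3 := v.2 3
    simp [ee, dep, eps] at a0 a1 a2 a3
    obtain ⟨w0, w1, w2, b0, b1, b2, b3⟩ := PEXx.l0 _ a0 hv
    refine PEXx.sol v ![w0, w1, w2, 0] (fun i => ?_) fun j => ?_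
    · fin_cases i <;> simp [ee, dep, eps, b0, b1, b2]
    · fin_cases j <;> simp [ee, dep, eps, mat, Fin.sum_univ_four, b3, a0, ← a1, ← a2, ← a3]
  · have a3 := u.2 3
    have e : ¬ n - 1 ≤ n - 2 := by omega
    simp [ee, dep, e] at a3
    rw [Pd_val]
    refine zsmul_mem ?_ _
    simp [mem_JM, ee, dep, eps, mat, Fin.sum_univ_four, ← a3, mc]
  · have a0 := v.2 0
    have a1 := v.2 1
    have a2 := v.2 2
    have a3 := v.2 3
    have c0 := PEXx.zer v h 0
    have c2 := PEXx.zer v h 2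
    have e0 : q ≤ n := hq.le
    have e1 : q ≤ n - 1 := by omega
    have e2 : q + 1 ≤ n := hq
    have e3 : q - 1 ≤ n := by omega
    have e4 : q - 1 ≤ n - 2 := by omega
    have z3 : v.1 3 = 0 := by
      by_cases e5 : q ≤ n - 2
      · have e6 : q + 1 ≤ n - 1 := by omega
        simp [ee, dep, eps, mat, Fin.sum_univ_four, e5, e6] at a3 c2
        exact PEXx.l2 _ a3 c2
      · simp [ee, dep, e5] at a3
        exact a3.symm
    simp [ee, dep, eps, mat, Fin.sum_univ_four, e0, e1, e2, z3] at a0 a1 a2 c0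
    obtain ⟨c, d2, d1, d0⟩ := PEXx.l1 _ _ _ a1 a2 c0
    have t0 : (v.1 0 + c • bs .rz) * bs .e0 = v.1 0 + c • bs .rz := by
      rw [add_mul, a0]
      congr 1
      exact Al.ext fun i => by cases i <;> simp [mc]
    obtain ⟨w0, w1, w2, b0, b1, b2, b3⟩ := PEXx.l0 _ t0 d0
    refine PEXx.sol v ![w0, w1, w2, c • bs .e2] (fun i => ?_) fun j => ?_
    · fin_cases i <;> simp [ee, dep, eps, b0, b1, b2, e0, e3, e4, e2_e2]
    · fin_cases j <;> simp [ee, dep, eps, mat, Fin.sum_univ_four, b3, a0, e0, e1, z3, e2_rz, e2_p, e2_q]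
      · rw [d1]; exact Al.ext fun i => by cases i <;> simp [mc]
      · rw [d2]; exact Al.ext fun i => by cases i <;> simp [mc]

end Pool.Agent.P.MP_3d2265_gt.DT
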