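import Pool.Agent.P.MP_3d2265_gt.DT.Iface

/-! Step PROD. -/

set_option linter.unusedSectionVars false
set_option linter.unusedVariables false

namespace Pool.Agent.P.MP_3d2265_gt.DT

open CategoryTheory Limits Pretriangulated DerivedCategory Finset
open scoped Classical

universe w

namespace PRODx

theorem qe_prod {A : Type} [Ring A] {ι : Type} {K Z : ι → Cx A} (t : ∀ i, K i ⟶ Z i)
    (h : ∀ i, QE (t i)) : QE (lift fun i => prp K i ≫ t i : prodC K ⟶ prodC Z) := by
  intro q
  refine ⟨fun z hz => ?_, fun z' w hz hw => ?_⟩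
  · choose z' w h1 h2 using fun i => (h i q).1 ((show ∀ i, (Z i).X q from z) i) (congrFun hz i)
    exact ⟨z', w, funext h1, funext h2⟩
  · choose w' h1 using fun i => (h i q).2 ((show ∀ i, (K i).X q from z') i)
      ((show ∀ i, (Z i).X (q - 1) from w) i) (congrFun hz i) (congrFun hw i)
    exact ⟨w', funext h1⟩

end PRODx

theorem p_PROD (k : Type) [Field k] [HasDerivedCategory.{w} (ModuleCat.{0} (Al k))]
    (hQI : S_QI k) :
    S_PROD k := by
  intro ι K C c
  let e := Q.objObjPreimageIso C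
  choose Z g t ht hc using fun i => left_fac (e.hom ≫ c i)
  have hτ : IsIso (Q.map (lift fun i => prp K i ≫ t i : prodC K ⟶ prodC Z)) := by
    rw [isIso_Q_map_iff_quasiIso, hQI]
    refine PRODx.qe_prod t fun i => (hQI _ _ _).1 ?_
    rw [← isIso_Q_map_iff_quasiIso]
    exact ht i
  refine ⟨e.inv ≫ Q.map (lift g) ≫ inv (Q.map (lift fun i => prp K i ≫ t i : prodC K ⟶ prodC Z)),
    fun i => ?_⟩
  have := ht i
  have h1 : Q.map (prp K i) = Q.map (lift fun i => prp K i ≫ t i : prodC K ⟶ prodC Z) ≫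
      Q.map (prp Z i) ≫ inv (Q.map (t i)) := by
    rw [← Q.map_comp_assoc, lift_prp, Q.map_comp, Category.assoc, IsIso.hom_inv_id,
      Category.comp_id]
  rw [h1, Category.assoc, Category.assoc, IsIso.inv_hom_id_assoc, ← Q.map_comp_assoc, lift_prp,
    ← hc i, Iso.inv_hom_id_assoc]

end Pool.Agent.P.MP_3d2265_gt.DT
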