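import Pool.Agent.P.MP_3d2265_gt.DT.Iface

/-! Step REPA. -/

set_option linter.unusedSectionVars false
set_option linter.unusedVariables false

namespace Pool.Agent.P.MP_3d2265_gt.DT

open CategoryTheory Limits Pretriangulated DerivedCategory Finset
open scoped Classical

universe w

namespace REPAx

variable {k : Type} [Field k]

theorem δ_ap (Y : Cx (Al k)) (n : ℤ) (t : Fin 4 → Tot Y) (i : Fin 4) {p q : ℤ} (h : p + 1 = q) :
    (fil Y).δ n t i q = Y.d p q (t i p) -
      (p.negOnePow : ℤ) • ∑ j, (ee k n p i * mat k i j) • t j q := by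
  obtain rfl : p = q - 1 := by omega
  rw [Fil.δ, Pi.add_apply, fil_D, fil_σ, fil_τ, Int.negOnePow_sub, Int.negOnePow_one, mul_neg,
    mul_one, Units.val_neg, neg_smul, sub_neg_eq_add, ee]
  congr 2
  split_ifs <;> first | omega | simp [eps_mat, Finset.sum_apply]

theorem Pd_gn (n p q : ℤ) (i : Fin 4) : Pd k n p q (gn k n p i) =
    (p.negOnePow : ℤ) • ∑ j, (ee k n p i * mat k i j) • gn k n q j :=
  Subtype.ext (funext fun j => by
    rw [Pd_val]
    simp [gn, Finset.sum_apply, Pi.single_apply])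

theorem eps_gn (n q : ℤ) (i : Fin 4) : eps k i • gn k n q i = gn k n q i :=
  Subtype.ext (funext fun j => by
    by_cases h : q ≤ n - dep i <;> simp [gn, Pi.single_apply, ee, h] <;>
      split_ifs <;> simp_all [eps_eps])

theorem gn_zero {n q : ℤ} {i : Fin 4} (h : ¬ q ≤ n - dep i) : gn k n q i = 0 :=
  Subtype.ext (by simp [gn, ee, h])

theorem ee_t {Y : Cx (Al k)} {n : ℤ} {t : Fin 4 → Tot Y} (h : (fil Y).Co n t) (i : Fin 4) (q : ℤ) :
    ee k n q i • t i q = t i q := by
  have h1 := congrFun (h i).1 q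
  have h2 := congrFun (h i).2 q
  rw [fil_τ] at h2
  unfold ee
  split_ifs with c
  · exact h1
  · rw [if_neg c] at h2
    rw [zero_smul]; exact h2

/-- the map with given values on the generators -/
noncomputable def lm {Y : Cx (Al k)} (n : ℤ) (t : Fin 4 → Tot Y) (q : ℤ) :
    PX k n q →ₗ[Al k] Y.X q where
  toFun v := ∑ i, v.1 i • t i q
  map_add' v v' := by simp [add_smul, sum_add_distrib]
  map_smul' c v := by simp [smul_sum, mul_smul]

theorem lm_gn {Y : Cx (Al k)} {n : ℤ} {t : Fin 4 → Tot Y} (h : (fil Y).Co n t) (i : Fin 4) (q : ℤ) :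
    lm n t q (gn k n q i) = t i q := by
  change ∑ j, (Pi.single i (ee k n q i) : Fin 4 → Al k) j • t j q = _
  rw [sum_eq_single i (fun j _ hj => by rw [Pi.single_eq_of_ne hj, zero_smul]) (by simp),
    Pi.single_eq_same, ee_t h]

end REPAx

open REPAx in
theorem p_REPA (k : Type) [Field k] [HasDerivedCategory.{w} (ModuleCat.{0} (Al k))] :
    S_REPA k := by
  intro n Y
  refine ⟨fun f => ⟨fun i => ⟨funext fun q => ?_, funext fun q => ?_⟩,
    funext fun i => funext fun q => ?_⟩, fun t h hδ => ⟨mkHom (fun q => lm n t q) fun p q v e => ?_,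
      funext fun i => funext fun q => lm_gn h i q⟩⟩
  · exact ((f.f q).hom.map_smul _ _).symm.trans (congrArg (f.f q) (eps_gn n q i))
  · rw [fil_τ]
    split_ifs with c
    · rfl
    · exact ((congrArg (f.f q) (gn_zero c)).trans (map_zero _)).symm
  · have e : q - 1 + 1 = q := by ring
    rw [δ_ap Y n _ i e, ev, cx_comm, PP_d n e, Pd_gn]
    refine sub_eq_zero.2 ((map_zsmul (f.f q).hom _ _).trans (congrArg _ ?_))
    exact (map_sum (f.f q).hom _ _).trans (sum_congr rfl fun j _ => (f.f q).hom.map_smul _ _)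
  · have key : ∀ i, Y.d p q (lm n t p (gn k n p i)) = lm n t q (Pd k n p q (gn k n p i)) := fun i => by
      have := congrFun (congrFun hδ i) q
      rw [δ_ap Y n t i e] at this
      rw [lm_gn h, Pd_gn, map_zsmul, map_sum, sub_eq_zero.1 this]
      simp only [map_smul, lm_gn h]
    have all : ∀ v : PX k n p, Y.d p q (lm n t p v) = lm n t q (Pd k n p q v) := fun v => by
      rw [eq_sum_gn v]
      simp only [map_sum, map_smul, key]
    exact (all v).trans (congrArg _ (PP_d n e v).symm)

end Pool.Agent.P.MP_3d2265_gt.DT
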