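import Pool.Agent.P.MP_3d2265_gt.DT.Iface

/-! Step REPB. -/

set_option linter.unusedSectionVars false
set_option linter.unusedVariables false

namespace Pool.Agent.P.MP_3d2265_gt.DT

open CategoryTheory Limits Pretriangulated DerivedCategory Finset
open scoped Classical

universe w

namespace REPBx

variable {k : Type} [Field k] {n : ℤ} {Y : Cx (Al k)}

theorem ee_gn (q : ℤ) (i : Fin 4) : ee k n q i • gn k n q i = gn k n q i :=
  Subtype.ext (by simp [gn, ← Pi.single_smul', ee_ee])

theorem Pd_gn (p q : ℤ) (i : Fin 4) : Pd k n p q (gn k n p i) =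
    (p.negOnePow : ℤ) • ∑ j, (ee k n p i * mat k i j) • gn k n q j := by
  rw [eq_sum_gn (Pd k n p q (gn k n p i)), smul_sum]
  refine sum_congr rfl fun j _ => ?_
  rw [Pd_val, smul_assoc, mul_smul, ee_gn]
  simp [gn, Pi.single_apply]

theorem co_iff {s : Fin 4 → Tot Y} :
    (fil Y).Co (n - 1) s ↔ ∀ i q, ee k n (q + 1) i • s i q = s i q := by
  refine forall_congr' fun i => ⟨fun h q => ?_, fun h => ⟨funext fun q => ?_, funext fun q => ?_⟩⟩
  · unfold ee
    split_ifs with c
    · exact congrFun h.1 q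
    · rw [← h.2, fil_τ, if_neg (by omega), smul_zero]
  · have := h q
    unfold ee at this
    split_ifs at this
    · exact this
    · rw [Pi.smul_apply, ← this, zero_smul, smul_zero]
  · rw [fil_τ]
    split_ifs with c
    · rfl
    · rw [← h q, ee, if_neg (by omega), zero_smul]

theorem core (H : ∀ a b, (PP k n).X a ⟶ Y.X b) (s : Fin 4 → Tot Y)
    (h : ∀ i p q, p + 1 = q → s i p = H q p (gn k n q i)) (i : Fin 4) (q : ℤ) :
    (dNext q H + prevD q H) (gn k n q i) = (fil Y).δ (n - 1) s i q := by
  rw [dNext_eq H (show (ComplexShape.up ℤ).Rel q (q + 1) from rfl),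
    prevD_eq H (show (ComplexShape.up ℤ).Rel (q - 1) q from sub_add_cancel q 1), add_comm]
  change Y.d (q - 1) q (H q (q - 1) (gn k n q i)) + H (q + 1) q ((PP k n).d q (q + 1) (gn k n q i)) =
    (fil Y).D (s i) q + (fil Y).σ _ q
  rw [fil_D, fil_σ, fil_τ, ← h i _ _ (sub_add_cancel q 1), PP_d n rfl, Pd_gn]
  congr 1
  refine (map_zsmul (H (q + 1) q).hom _ _).trans (congrArg _
    ((map_sum (H (q + 1) q).hom _ _).trans ((sum_congr rfl fun j _ =>
      (map_smul (H (q + 1) q).hom _ _).trans (congrArg _ (h j q _ rfl).symm)).trans ?_)))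
  simp only [sub_add_cancel, ee]
  split_ifs
  · rw [Finset.sum_apply]
    exact sum_congr rfl fun j _ => by rw [eps_mat, Pi.smul_apply]
  · simp

/-- the map given by its values on the generators -/
noncomputable def mk (s : Fin 4 → Tot Y) (a b : ℤ) : PX k n a →ₗ[Al k] Y.X b where
  toFun v := ∑ i, v.1 i • s i b
  map_add' v v' := by simp [add_smul, sum_add_distrib]
  map_smul' c v := by simp [smul_sum, mul_smul]

end REPBx

open REPBx in
theorem p_REPB (k : Type) [Field k] [HasDerivedCategory.{w} (ModuleCat.{0} (Al k))] :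
    S_REPB k := by
  intro n Y f
  constructor
  · rintro ⟨h⟩
    refine ⟨fun i q => h.hom (q + 1) q (gn k n (q + 1) i), co_iff.2 fun i q => ?_,
      funext fun i => funext fun q => ?_⟩
    · exact (map_smul (h.hom (q + 1) q).hom _ _).symm.trans (congrArg _ (ee_gn _ i))
    · rw [← core h.hom _ (by rintro i p _ rfl; rfl), ev, h.comm q]
      simp
  · rintro ⟨s, h1, h2⟩
    refine ⟨⟨fun a b => if b + 1 = a then ModuleCat.ofHom (mk s a b) else 0,
      fun a b h => if_neg h, fun q => ?_⟩⟩
    rw [HomologicalComplex.zero_f, add_zero]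
    refine ModuleCat.hom_ext (LinearMap.ext fun v : PX k n q => ?_)
    rw [eq_sum_gn v]
    refine (map_sum _ _ _).trans ((sum_congr rfl fun i _ => ?_).trans (map_sum _ _ _).symm)
    refine (map_smul _ _ _).trans ((congrArg _ ?_).trans (map_smul _ _ _).symm)
    refine (congrFun (congrFun h2 i) q).symm.trans (core _ s ?_ i q).symm
    rintro i p _ rfl
    rw [if_pos rfl, ← co_iff.1 h1 i p]
    change _ = ∑ j, (gn k n (p + 1) i).1 j • s j p
    simp [gn, Pi.single_apply, ite_smul]

end Pool.Agent.P.MP_3d2265_gt.DT
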