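import Pool.Agent.P.MP_3d2265_gt.DT.Iface

/-! Step RES. -/

set_option linter.unusedSectionVars false
set_option linter.unusedVariables false

namespace Pool.Agent.P.MP_3d2265_gt.DT

open CategoryTheory Limits Pretriangulated DerivedCategory Finset
open scoped Classical

universe w

namespace RESx

variable {k : Type} [Field k]

noncomputable def rt (k : Type) [Field k] (n q : ℤ) : (Fin 4 → Al k) →ₗ[Al k] PX k n q where
  toFun v := ⟨fun i => v i * ee k n q i, fun i => by rw [mul_assoc, ee_ee]⟩
  map_add' v v' := Subtype.ext (funext fun i => add_mul _ _ _)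
  map_smul' c v := Subtype.ext (funext fun i => mul_assoc c (v i) _)

theorem prj (n q : ℤ) : Module.Projective (Al k) (PX k n q) :=
  Module.Projective.of_split (PX k n q).subtype (rt k n q)
    (LinearMap.ext fun v => Subtype.ext (funext fun i => v.2 i))

noncomputable def ph (k : Type) [Field k] (n : ℤ) : (PP k n).X n ⟶ cy (JM k) :=
  ModuleCat.ofHom ((JM k).mkQ ∘ₗ LinearMap.proj 0 ∘ₗ (PX k n n).subtype)

theorem ph_apply (n : ℤ) (v : PX k n n) : ph k n v = (JM k).mkQ (v.1 0) := rfl

theorem ph_surj (n : ℤ) (y : cy (JM k)) : ∃ v : PX k n n, ph k n v = y := by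
  obtain ⟨a, rfl⟩ := (JM k).mkQ_surjective y
  refine ⟨a • gn k n n 0, ?_⟩
  rw [ph_apply, Submodule.mkQ_apply, Submodule.mkQ_apply, Submodule.Quotient.eq]
  have h : (a • gn k n n 0).1 0 = a * bs .e0 := by
    simp [gn, ee, dep, eps]
  rw [h, mem_JM]
  simp [mc]

end RESx

open RESx HomologicalComplex in
theorem p_RES (k : Type) [Field k] [HasDerivedCategory.{w} (ModuleCat.{0} (Al k))]
    (hQI : S_QI k) (hPEX : S_PEX k) :
    S_RES k := by
  intro n
  obtain ⟨h1, h2, h3, h4⟩ := hPEX n
  constructor
  · have : (PP k n).IsStrictlyLE n := (CochainComplex.isStrictlyLE_iff _ n).2 fun i hi =>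
      haveI : Subsingleton ((PP k n).X i) :=
        ⟨fun a b => (h1 i a hi).trans (h1 i b hi).symm⟩
      ModuleCat.isZero_of_subsingleton _
    have : ∀ q, Projective ((PP k n).X q) := fun q =>
      haveI : Module.Projective (Al k) ((PP k n).X q) := prj n q
      ModuleCat.projective_of_categoryTheory_projective _
    exact CochainComplex.isKProjective_of_projective _ n
  · have hφ : ∀ i, (ComplexShape.up ℤ).Rel i n → (PP k n).d i n ≫ ph k n = 0 := by
      intro i hi
      obtain rfl : i = n - 1 := by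
        have : i + 1 = n := hi
        omega
      refine ModuleCat.hom_ext (LinearMap.ext fun u => ?_)
      change ph k n ((PP k n).d (n - 1) n u) = 0
      rw [PP_d n (by omega : n - 1 + 1 = n), ph_apply, Submodule.mkQ_apply,
        Submodule.Quotient.mk_eq_zero]
      exact h3 u
    refine ⟨mkHomToSingle (ph k n) hφ, (hQI _ _ _).2 fun q => ?_⟩
    have hd : ∀ p q (w : ((sg n).obj (cy (JM k))).X p), ((sg n).obj (cy (JM k))).d p q w = 0 :=
      fun p q w => rfl
    by_cases hq : q = n
    · subst hq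
      have hf : ∀ v : PX k q q, (mkHomToSingle (ph k q) hφ).f q v =
          (singleObjXSelf (ComplexShape.up ℤ) q (cy (JM k))).inv (ph k q v) := fun v => by
        rw [mkHomToSingle_f]; rfl
      refine ⟨fun z _ => ?_, fun z' w _ h => ?_⟩
      · obtain ⟨v, hv⟩ := ph_surj q ((singleObjXSelf (ComplexShape.up ℤ) q (cy (JM k))).hom z)
        refine ⟨v, 0, h1 _ _ (by omega), ?_⟩
        rw [hd, add_zero, hf, hv, Iso.hom_inv_id_apply]
      · rw [hd, hf] at h
        have h' := congrArg (singleObjXSelf (ComplexShape.up ℤ) q (cy (JM k))).hom h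
        rw [Iso.inv_hom_id_apply, map_zero, ph_apply, Submodule.mkQ_apply,
          Submodule.Quotient.mk_eq_zero] at h'
        obtain ⟨u, hu⟩ := h2 z' h'
        exact ⟨u, by rw [PP_d q (by omega : q - 1 + 1 = q), hu]⟩
    · have : Subsingleton (((sg n).obj (cy (JM k))).X q) :=
        ModuleCat.subsingleton_of_isZero (isZero_single_obj_X _ _ _ _ hq)
      refine ⟨fun z _ => ⟨0, 0, map_zero _, Subsingleton.elim _ _⟩, fun z' w hz _ => ?_⟩
      rcases lt_or_gt_of_ne hq with h | h
      · rw [PP_d n rfl] at hz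
        obtain ⟨u, hu⟩ := h4 q z' h hz
        exact ⟨u, by rw [PP_d n (by omega : q - 1 + 1 = q), hu]⟩
      · exact ⟨0, by rw [map_zero]; exact h1 q z' h⟩

end Pool.Agent.P.MP_3d2265_gt.DT
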