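import Pool.Agent.P.MP_3d2265_gt.DT.Iface

/-! Step SH. -/

set_option linter.unusedSectionVars false
set_option linter.unusedVariables false

namespace Pool.Agent.P.MP_3d2265_gt.DT

open CategoryTheory Limits Pretriangulated DerivedCategory Finset
open scoped Classical

universe w

theorem p_SH (k : Type) [Field k] [HasDerivedCategory.{w} (ModuleCat.{0} (Al k))] :
    S_SH k := by
  intro M
  have h1 : ∀ (Y : Dc (Al k)) (i : ℤ), Loc M Y → Loc M (Y⟦i⟧) := by
    intro Y i h n f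
    let e := ((singleFunctors _).shiftIso i n (n + i) (by omega)).app M
    obtain ⟨g, hg⟩ := (shiftFunctor (Dc (Al k)) i).map_surjective (e.hom ≫ f)
    rw [h _ g, Functor.map_zero] at hg
    exact (cancel_epi e.hom).1 (hg.symm.trans comp_zero.symm)
  refine ⟨h1, fun T hT => ⟨fun h L hL => ⟨fun f f' e => ?_, fun g => ?_⟩, fun h L hL f => ?_⟩,
    fun X Y ⟨e⟩ => ⟨fun h n f => ?_, fun h L hL f => ?_⟩⟩
  · obtain ⟨g, hg⟩ := T.yoneda_exact₃ hT (f - f') (by rw [Preadditive.comp_sub, sub_eq_zero]; exact e)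
    let ε := (shiftFunctorCompIsoId (Dc (Al k)) (-1 : ℤ) 1 (by omega)).app L
    obtain ⟨g', hg'⟩ := (shiftFunctor (Dc (Al k)) (1 : ℤ)).map_surjective (g ≫ ε.inv)
    rw [h _ (h1 L (-1) hL) g', Functor.map_zero] at hg'
    rw [(cancel_mono ε.inv).1 (hg'.symm.trans zero_comp.symm), comp_zero, sub_eq_zero] at hg
    exact hg
  · obtain ⟨f, hf⟩ := T.yoneda_exact₂ hT g (h L hL _)
    exact ⟨f, hf.symm⟩
  · have h2 : T.mor₃ ≫ f⟦(1 : ℤ)⟧' = 0 := (h _ (h1 L 1 hL)).1 (by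
      dsimp only
      rw [← Category.assoc, comp_distTriang_mor_zero₂₃ _ hT, zero_comp, comp_zero])
    obtain ⟨g, hg⟩ := T.rotate.yoneda_exact₃ (rot_of_distTriang _ hT) _ h2
    obtain ⟨g, rfl⟩ := (shiftFunctor (Dc (Al k)) (1 : ℤ)).map_surjective g
    obtain ⟨g, rfl⟩ := (h L hL).2 g
    apply (shiftFunctor (Dc (Al k)) (1 : ℤ)).map_injective
    rw [hg]
    change (-T.mor₁⟦(1 : ℤ)⟧') ≫ (T.mor₂ ≫ g)⟦(1 : ℤ)⟧' = _
    rw [Preadditive.neg_comp, ← Functor.map_comp, ← Category.assoc,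
      comp_distTriang_mor_zero₁₂ _ hT, zero_comp, Functor.map_zero, neg_zero]
  · exact (cancel_mono e.inv).1 ((h n _).trans zero_comp.symm)
  · exact (cancel_epi e.hom).1 ((h L hL _).trans comp_zero.symm)

end Pool.Agent.P.MP_3d2265_gt.DT
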