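import Pool.Agent.P.MP_3d2265_gt.DT.Iface

/-! Step STEP. -/

set_option linter.unusedSectionVars false
set_option linter.unusedVariables false

namespace Pool.Agent.P.MP_3d2265_gt.DT

open CategoryTheory Limits Pretriangulated DerivedCategory Finset
open scoped Classical

universe w

theorem p_STEP (k : Type) [Field k] [HasDerivedCategory.{w} (ModuleCat.{0} (Al k))]
    (hREPA : S_REPA k) (hREPB : S_REPB k) (hRES : S_RES k) (hCOP : S_COP k) (hSH : S_SH k) :
    S_STEP k := by
  intro X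
  let K : (Σ n : ℤ, (PP k n ⟶ X)) → Cx (Al k) := fun a => PP k a.1
  let φ : sumC K ⟶ X := desc fun a => a.2
  have hA : Acy (cy (JM k)) (Q.obj (sumC K)) := by
    intro Y hY f
    obtain ⟨hc⟩ := hCOP _ K
    refine hc.hom_ext fun a => ?_
    obtain ⟨-, π, hπ⟩ := hRES a.as.1
    have h0 : IsIso (Q.map π) := (DerivedCategory.isIso_Q_map_iff_quasiIso _ π).2 hπ
    let e := @asIso _ _ _ _ (Q.map π) h0
    have h2 : Q.map (inj K a.as) ≫ f = 0 :=
      (e.hom_inv_id_assoc _).symm.trans
        ((congrArg (e.hom ≫ ·) (hY a.as.1 (e.inv ≫ Q.map (inj K a.as) ≫ f))).trans comp_zero)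
    rw [comp_zero]
    exact h2
  refine ⟨CochainComplex.mappingCone φ, CochainComplex.mappingCone.inr φ, fun q => ?_,
    ((hSH (cy (JM k))).2.1 _ (DerivedCategory.mappingCone_triangle_distinguished φ)).1 hA,
    fun n t h1 h2 => ?_⟩
  · refine Function.LeftInverse.injective
      (g := (CochainComplex.mappingCone.snd φ).v q q (add_zero q)) fun v => ?_
    rw [← ModuleCat.comp_apply, CochainComplex.mappingCone.inr_f_snd_v]
    rfl
  · obtain ⟨f, rfl⟩ := (hREPA n X).2 t h1 h2
    rw [← ev_comp]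
    refine (hREPB n _ _).1 ⟨?_⟩
    have h3 : f = inj K ⟨n, f⟩ ≫ φ := (inj_desc (K := K) (fun a => a.2) ⟨n, f⟩).symm
    have h4 : Homotopy (φ ≫ CochainComplex.mappingCone.inr φ) 0 :=
      HomologicalComplex.homotopyCofiber.inrCompHomotopy φ fun j => ⟨j - 1, by simp⟩
    have h5 := h4.compLeft (inj K ⟨n, f⟩)
    rw [comp_zero, ← Category.assoc, ← h3] at h5
    exact h5

end Pool.Agent.P.MP_3d2265_gt.DT
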