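import Pool.Agent.P.MP_3d2265_gt.DT.Iface

/-! Step SUM. -/

set_option linter.unusedSectionVars false
set_option linter.unusedVariables false

namespace Pool.Agent.P.MP_3d2265_gt.DT

open CategoryTheory Limits Pretriangulated DerivedCategory Finset
open scoped Classical

universe w

namespace SUMx

variable {k : Type} [Field k] {ι : Type} (K : ι → Cx (Al k))

/-- the elements of finite support -/
noncomputable def fs : AddSubgroup (Tot (sumC K)) where
  carrier := {t | ∃ s : Finset ι, ∀ q, ∀ i ∉ s, (prs K i).f q (t q) = 0}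
  zero_mem' := ⟨∅, fun q i _ => map_zero _⟩
  add_mem' := by
    rintro a b ⟨s, hs⟩ ⟨s', hs'⟩
    refine ⟨s ∪ s', fun q i hi => ?_⟩
    rw [mem_union, not_or] at hi
    rw [Pi.add_apply, map_add, hs q i hi.1, hs' q i hi.2, add_zero]
  neg_mem' := by
    rintro a ⟨s, hs⟩
    exact ⟨s, fun q i hi => by rw [Pi.neg_apply, map_neg, hs q i hi, neg_zero]⟩

theorem prs_inj (i j : ι) (q : ℤ) (v : (K j).X q) (h : i ≠ j) :
    (prs K i).f q ((inj K j).f q v) = 0 :=
  DFinsupp.single_eq_of_ne (β := fun i => (K i).X q) h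

theorem prs_inj_same (i : ι) (q : ℤ) (v : (K i).X q) : (prs K i).f q ((inj K i).f q v) = v :=
  DFinsupp.single_eq_same (β := fun i => (K i).X q)

theorem sum_ext {q : ℤ} {a b : (sumC K).X q} (h : ∀ i, (prs K i).f q a = (prs K i).f q b) :
    a = b := DFinsupp.ext (β := fun i => (K i).X q) h

theorem recomp (t : Tot (sumC K)) (s : Finset ι) (hs : ∀ q, ∀ i ∉ s, (prs K i).f q (t q) = 0) :
    ∑ i ∈ s, tm (inj K i) (tm (prs K i) t) = t := by
  funext q
  refine sum_ext K fun j => ?_
  rw [Finset.sum_apply, map_sum]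
  simp only [tm_apply]
  by_cases hj : j ∈ s
  · rw [sum_eq_single_of_mem j hj fun i _ hi => prs_inj K j i q _ hi.symm, prs_inj_same]
  · rw [hs q j hj]
    exact sum_eq_zero fun i hi => prs_inj K j i q _ fun h => hj (h ▸ hi)

theorem co_sum {T : Type} [AddCommGroup T] [Module (Al k) T] (F : Fil (Al k) T) (n : ℤ)
    (s : Finset ι) (u : ι → Fin 4 → T) (h : ∀ i, F.Co n (u i)) :
    F.Co n (∑ i ∈ s, u i) ∧ F.δ n (∑ i ∈ s, u i) = ∑ i ∈ s, F.δ n (u i) := by
  induction s using Finset.induction_on with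
  | empty =>
    refine ⟨fun i => by simp, funext fun i => ?_⟩
    simp [Fil.δ]
  | insert a s ha ih =>
    rw [sum_insert ha, sum_insert ha, Fil.δ_add, ih.2]
    exact ⟨(h a).add ih.1, rfl⟩

end SUMx

theorem p_SUM (k : Type) [Field k] [HasDerivedCategory.{w} (ModuleCat.{0} (Al k))]
    (hLOC : S_LOC k) :
    S_SUM k := by
  intro ι K hK
  refine hLOC _ _ (SUMx.fs K) (fun n m t => ?_) fun n t hc hS hd => ?_
  · refine ⟨(Finset.Icc (min n m) (max n m)).biUnion fun q =>
      DFinsupp.support (β := fun i => (K i).X q) (t q), fun q i hi => ?_⟩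
    rw [Pi.sub_apply, fil_τ, fil_τ]
    have key : min n m ≤ q → q ≤ max n m → (prs K i).f q (t q) = 0 := fun h1 h2 => by
      by_contra h
      exact hi (mem_biUnion.2 ⟨q, mem_Icc.2 ⟨h1, h2⟩, DFinsupp.mem_support_iff.2 h⟩)
    split_ifs with h1 h2 h2
    · rw [sub_self, map_zero]
    · rw [sub_zero]; exact key (by omega) (by omega)
    · rw [zero_sub, map_neg, key (by omega) (by omega), neg_zero]
    · rw [sub_self, map_zero]
  · choose s hs using hS
    have hs' : ∀ j q, ∀ i ∉ Finset.univ.biUnion s, (prs K i).f q (t j q) = 0 := fun j q i hi =>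
      hs j q i fun h => hi (mem_biUnion.2 ⟨j, mem_univ _, h⟩)
    have h1 : ∀ i, ∃ u, (fil (K i)).Co (n - 1) u ∧
        (fil (K i)).δ (n - 1) u = fun j => tm (prs K i) (t j) := fun i =>
      hK i n _ (tm_co _ hc) (by rw [tm_δ, hd]; exact funext fun j => map_zero _)
    choose u hu hu' using h1
    obtain ⟨c1, c2⟩ := SUMx.co_sum (fil (sumC K)) (n - 1) (Finset.univ.biUnion s)
      (fun i j => tm (inj K i) (u i j)) fun i => tm_co _ (hu i)
    refine ⟨_, c1, fun j => ⟨Finset.univ.biUnion s, fun q i hi => ?_⟩, ?_⟩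
    · rw [Finset.sum_apply, Finset.sum_apply, map_sum]
      exact sum_eq_zero fun a ha => SUMx.prs_inj K i a q _ fun h => hi (h ▸ ha)
    · rw [c2]
      funext j
      rw [Finset.sum_apply, ← SUMx.recomp K (t j) _ (hs' j)]
      exact sum_congr rfl fun i _ => by rw [tm_δ, hu']

end Pool.Agent.P.MP_3d2265_gt.DT
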