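import Pool.Agent.P.MP_3d2265_gt.DT.Iface

/-! Step TEL. -/

set_option linter.unusedSectionVars false
set_option linter.unusedVariables false

namespace Pool.Agent.P.MP_3d2265_gt.DT

open CategoryTheory Limits Pretriangulated DerivedCategory Finset
open scoped Classical

universe w

namespace TELx

variable {A : Type} [Ring A] (X : ℕ → Cx A) (u : ∀ m, X m ⟶ X (m + 1))

theorem ip_self {ι : Type} (K : ι → Cx A) (i : ι) : inj K i ≫ prs K i = 𝟙 _ :=
  cx_ext fun q v => DFinsupp.single_eq_same (β := fun i => (K i).X q) (i := i) (b := v)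

theorem ip_ne {ι : Type} (K : ι → Cx A) {i j : ι} (h : j ≠ i) : inj K i ≫ prs K j = 0 :=
  cx_ext fun q v => DFinsupp.single_eq_of_ne (β := fun i => (K i).X q) (b := v) h

theorem inj_tel (i : ℕ) : inj X i ≫ tel X u = inj X i - u i ≫ inj X (i + 1) := inj_desc _ i

theorem tel_zero : tel X u ≫ prs X 0 = prs X 0 := sumC_ext fun i => by
  rw [← Category.assoc, inj_tel, Preadditive.sub_comp, Category.assoc,
    ip_ne X (Nat.succ_ne_zero i).symm, comp_zero, sub_zero]

theorem tel_succ (m : ℕ) : tel X u ≫ prs X (m + 1) = prs X (m + 1) - prs X m ≫ u m :=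
  sumC_ext fun i => by
    rw [← Category.assoc, inj_tel, Preadditive.sub_comp, Preadditive.comp_sub, Category.assoc,
      ← Category.assoc (inj X i) (prs X m)]
    by_cases h : m = i
    · subst h
      rw [ip_self, ip_self, Category.comp_id, Category.id_comp]
    · rw [ip_ne X h, ip_ne X (i := i + 1) (j := m + 1) fun e => h (Nat.succ_injective e),
        comp_zero, zero_comp]

theorem el_zero (q : ℤ) (v : (sumC X).X q) :
    (prs X 0).f q ((tel X u).f q v) = (prs X 0).f q v :=
  congrArg (fun f : sumC X ⟶ X 0 => f.f q v) (tel_zero X u)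

theorem el_succ (m : ℕ) (q : ℤ) (v : (sumC X).X q) :
    (prs X (m + 1)).f q ((tel X u).f q v) =
      (prs X (m + 1)).f q v - (u m).f q ((prs X m).f q v) :=
  congrArg (fun f : sumC X ⟶ X (m + 1) => f.f q v) (tel_succ X u m)

theorem el_ext {q : ℤ} {v : (sumC X).X q} (h : ∀ m, (prs X m).f q v = 0) : v = 0 :=
  DFinsupp.ext (β := fun i => (X i).X q) h

theorem el_fin {q : ℤ} (v : (sumC X).X q) : ∃ N, ∀ m, N ≤ m → (prs X m).f q v = 0 := by
  refine sumC_ind (P := fun v => ∃ N, ∀ m, N ≤ m → (prs X m).f q v = 0)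
    ⟨0, fun m _ => map_zero _⟩ (fun i x => ⟨i + 1, fun m hm => ?_⟩) ?_ v
  · exact congrArg (fun f : X i ⟶ X m => f.f q x) (ip_ne X (i := i) (j := m) (by omega))
  · rintro a b ⟨N, hN⟩ ⟨M, hM⟩
    exact ⟨max N M, fun m hm => by
      rw [map_add, hN m (le_of_max_le_left hm), hM m (le_of_max_le_right hm), add_zero]⟩

theorem tel_inj (q : ℤ) : Function.Injective ((tel X u).f q) := by
  refine (injective_iff_map_eq_zero ((tel X u).f q).hom).2 fun v hv => el_ext X fun m => ?_
  have hv' : (tel X u).f q v = 0 := hv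
  induction m with
  | zero => rw [← el_zero X u, hv', map_zero]
  | succ m ih =>
    have h := el_succ X u m q v
    rw [hv', map_zero, ih, map_zero, sub_zero] at h
    exact h.symm

theorem single_tel (hu : ∀ m q, Function.Injective ((u m).f q)) (m : ℕ) (q : ℤ) (x : (X m).X q)
    (v : (sumC X).X q) (h : (tel X u).f q v = (inj X m).f q x) : x = 0 := by
  obtain ⟨N, hN⟩ := el_fin X v
  have hne : ∀ j, j ≠ m → (prs X j).f q ((inj X m).f q x) = 0 := fun j hj =>
    congrArg (fun f : X m ⟶ X j => f.f q x) (ip_ne X hj)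
  have hse : (prs X m).f q ((inj X m).f q x) = x :=
    congrArg (fun f : X m ⟶ X m => f.f q x) (ip_self X m)
  have lo : ∀ j, j < m → (prs X j).f q v = 0 := by
    intro j
    induction j with
    | zero => intro hj; rw [← el_zero X u, h, hne 0 hj.ne]
    | succ j ih =>
      intro hj
      have e := el_succ X u j q v
      rw [h, hne _ hj.ne, ih (by omega), map_zero, sub_zero] at e
      exact e.symm
  have md : (prs X m).f q v = x := by
    cases m with
    | zero => rw [← el_zero X u, h, hse]
    | succ j =>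
      have e := el_succ X u j q v
      rw [h, hse, lo j (Nat.lt_succ_self j), map_zero, sub_zero] at e
      exact e.symm
  have hi : ∀ d, (prs X (m + d)).f q v = 0 → (prs X m).f q v = 0 := by
    intro d
    induction d with
    | zero => exact id
    | succ d ih =>
      intro hd
      have e := el_succ X u (m + d) q v
      have hd' : (prs X (m + d + 1)).f q v = 0 := hd
      rw [h, hne _ (by omega), hd', zero_sub, eq_comm, neg_eq_zero] at e
      exact ih (hu _ q (e.trans (map_zero _).symm))
  rw [← md]
  exact hi N (hN _ (Nat.le_add_left N m))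

end TELx

open TELx in
theorem p_TEL (k : Type) [Field k] [HasDerivedCategory.{w} (ModuleCat.{0} (Al k))] :
    S_TEL k := by
  intro X u hu
  let j : ∀ m, X m ⟶ cokernel (tel X u) := fun m => inj X m ≫ cokernel.π (tel X u)
  have hd : desc j = cokernel.π (tel X u) := sumC_ext fun i => inj_desc j i
  have h0 : tel X u ≫ desc j = 0 := by rw [hd, cokernel.condition]
  have hm : Mono (tel X u) := HomologicalComplex.mono_of_mono_f _ fun q =>
    (ModuleCat.mono_iff_injective _).2 (tel_inj X u q)
  have he : Epi (desc j) := by rw [hd]; infer_instance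
  have hx : (ShortComplex.mk _ _ h0).Exact := by
    have e : ShortComplex.mk _ _ h0 = ShortComplex.mk _ _ (cokernel.condition (tel X u)) := by
      congr 1
    rw [e]
    exact ShortComplex.exact_cokernel _
  have hs : (ShortComplex.mk _ _ h0).ShortExact := { exact := hx, mono_f := hm, epi_g := he }
  have hc : ∀ m, u m ≫ j (m + 1) = j m := fun m => by
    have e := congrArg (fun f => inj X m ≫ f) (cokernel.condition (tel X u))
    simp only [← Category.assoc, inj_tel, Preadditive.sub_comp, comp_zero] at e
    exact (Category.assoc _ _ _).symm.trans (sub_eq_zero.1 e).symm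
  have hq := (HomologicalComplex.shortExact_iff_degreewise_shortExact _).1 hs
  have hj : ∀ m q x, (j m).f q x = (desc j).f q ((inj X m).f q x) := fun m q x =>
    (congrArg (fun f : X m ⟶ cokernel (tel X u) => f.f q x) (inj_desc j m)).symm
  refine ⟨cokernel (tel X u), j, h0, hs, hc, fun m q => ?_, fun q y => ?_⟩
  · refine (injective_iff_map_eq_zero ((j m).f q).hom).2 fun x hx0 => ?_
    obtain ⟨v, hv⟩ := (ShortComplex.moduleCat_exact_iff _).1 (hq q).exact ((inj X m).f q x)
      ((hj m q x).symm.trans hx0)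
    exact single_tel X u hu m q x v hv
  · obtain ⟨v, rfl⟩ : ∃ v, (desc j).f q v = y :=
      (ModuleCat.epi_iff_surjective _).1 (hq q).epi_g y
    have up : ∀ d m (x : (X m).X q), ∃ x', (j (m + d)).f q x' = (j m).f q x := by
      intro d m x
      induction d with
      | zero => exact ⟨x, rfl⟩
      | succ d ih =>
        obtain ⟨x', hx'⟩ := ih
        exact ⟨(u (m + d)).f q x',
          (congrArg (fun f : X (m + d) ⟶ cokernel (tel X u) => f.f q x') (hc (m + d))).trans hx'⟩
    refine sumC_ind (P := fun v => ∃ m x, (j m).f q x = (desc j).f q v)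
      ⟨0, 0, by rw [map_zero, map_zero]⟩ (fun i x => ⟨i, x, hj i q x⟩) ?_ v
    rintro a b ⟨m, x, hx⟩ ⟨n, z, hz⟩
    obtain ⟨x', hx'⟩ := up n m x
    obtain ⟨z', hz'⟩ : ∃ z', (j (m + n)).f q z' = (j n).f q z := by
      rw [Nat.add_comm]; exact up m n z
    exact ⟨m + n, x' + z', by rw [map_add, map_add, hx', hz', hx, hz]⟩

end Pool.Agent.P.MP_3d2265_gt.DT
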