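import Pool.Agent.P.MP_3d2265_gt.DT.Iface

/-! Step TOE. -/

set_option linter.unusedSectionVars false
set_option linter.unusedVariables false

namespace Pool.Agent.P.MP_3d2265_gt.DT

open CategoryTheory Limits Pretriangulated DerivedCategory Finset
open scoped Classical

universe w

namespace TOEx

variable {A : Type} [Ring A] {X : ℕ → Cx A} {u : ∀ m, X m ⟶ X (m + 1)} {Y : Cx A}
  {j : ∀ m, X m ⟶ Y}

theorem up1 (hu : ∀ m, u m ≫ j (m + 1) = j m) {m m' : ℕ} (h : m ≤ m') (q : ℤ) (y : Y.X q)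
    (hy : ∃ x, (j m).f q x = y) : ∃ x, (j m').f q x = y := by
  induction m', h using Nat.le_induction with
  | base => exact hy
  | succ n _ ih =>
    obtain ⟨x, rfl⟩ := ih
    refine ⟨(u n).f q x, ?_⟩
    rw [← hu n]
    rfl

theorem up (hu : ∀ m, u m ≫ j (m + 1) = j m) {m m' : ℕ} (h : m ≤ m') (t : Tot Y)
    (ht : ∃ s, tm (j m) s = t) : ∃ s, tm (j m') s = t := by
  obtain ⟨s, rfl⟩ := ht
  choose x hx using fun q => up1 hu h q (tm (j m) s q) ⟨s q, rfl⟩
  exact ⟨x, funext hx⟩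

/-- the union of the images -/
def SS (hu : ∀ m, u m ≫ j (m + 1) = j m) : AddSubgroup (Tot Y) where
  carrier := {t | ∃ m s, tm (j m) s = t}
  zero_mem' := ⟨0, 0, map_zero _⟩
  add_mem' := by
    rintro a b ⟨m, ha⟩ ⟨m', hb⟩
    obtain ⟨s, rfl⟩ := up hu (le_max_left m m') a ha
    obtain ⟨s', rfl⟩ := up hu (le_max_right m m') b hb
    exact ⟨max m m', s + s', map_add _ _ _⟩
  neg_mem' := by
    rintro a ⟨m, s, rfl⟩
    exact ⟨m, -s, map_neg _ _⟩

theorem mem_SS (hu : ∀ m, u m ≫ j (m + 1) = j m) {t : Tot Y} :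
    t ∈ SS hu ↔ ∃ m s, tm (j m) s = t := Iff.rfl

theorem tm_inj {m : ℕ} (hi : ∀ q, Function.Injective ((j m).f q)) :
    Function.Injective (tm (j m)) := fun a b h => funext fun q => hi q (congrFun h q)

theorem trn_mem (hu : ∀ m, u m ≫ j (m + 1) = j m) (hs : ∀ q y, ∃ m x, (j m).f q x = y)
    (n m : ℤ) (t : Tot Y) : (fil Y).τ n t - (fil Y).τ m t ∈ SS hu := by
  choose f hf using fun q => hs q (((fil Y).τ n t - (fil Y).τ m t) q)
  have key : ∀ q, ∃ x, (j ((Icc (min n m) (max n m)).sup f)).f q x =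
      ((fil Y).τ n t - (fil Y).τ m t) q := by
    intro q
    by_cases hq : q ∈ Icc (min n m) (max n m)
    · exact up1 hu (le_sup hq) q _ (hf q)
    · refine ⟨0, ?_⟩
      rw [map_zero, Pi.sub_apply, fil_τ, fil_τ]
      rw [mem_Icc] at hq
      split_ifs <;> first | omega | exact (sub_self _).symm
  choose x hx using key
  exact ⟨_, x, funext hx⟩

end TOEx

theorem p_TOE (k : Type) [Field k] [HasDerivedCategory.{w} (ModuleCat.{0} (Al k))]
    (hLOC : S_LOC k) :
    S_TOE k := by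
  intro X u Y j hu hi hs hex
  refine hLOC (Tot Y) (fil Y) (TOEx.SS hu) (TOEx.trn_mem hu hs) ?_
  intro n t hco hmem hδ
  choose f hf using fun i => (TOEx.mem_SS hu).1 (hmem i)
  obtain ⟨m, hm⟩ : ∃ m, ∀ i, f i ≤ m := ⟨univ.sup f, fun i => le_sup (mem_univ i)⟩
  choose t' ht' using fun i => TOEx.up hu (hm i) (t i) (hf i)
  have et : t = fun i => tm (j m) (t' i) := funext fun i => (ht' i).symm
  have inj := TOEx.tm_inj (hi m)
  have hco' : (fil (X m)).Co n t' := fun i => by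
    refine ⟨inj ?_, inj ?_⟩
    · rw [map_smul, ht' i, (hco i).1]
    · rw [← tm_τ, ht' i, (hco i).2]
  have hδ' : (fil (X m)).δ n t' = 0 := funext fun i => inj (by
    have := congrFun (tm_δ (j m) n t') i
    rw [← et, hδ] at this
    rw [← this, Pi.zero_apply, Pi.zero_apply, map_zero])
  obtain ⟨s, hs1, hs2⟩ := hex m n t' hco' hδ'
  refine ⟨fun i => tm (j (m + 1)) (s i), tm_co _ hs1, fun i => ⟨m + 1, s i, rfl⟩, ?_⟩
  rw [tm_δ, hs2, et]
  funext i
  rw [← tm_comp, hu m]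

end Pool.Agent.P.MP_3d2265_gt.DT
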