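import Pool.Agent.P.MP_3d2265_gt.DT.Iface

/-! Step TOW. -/

set_option linter.unusedSectionVars false
set_option linter.unusedVariables false

namespace Pool.Agent.P.MP_3d2265_gt.DT

open CategoryTheory Limits Pretriangulated DerivedCategory Finset
open scoped Classical

universe w

theorem p_TOW (k : Type) [Field k] [HasDerivedCategory.{w} (ModuleCat.{0} (Al k))]
    (hSTEP : S_STEP k) (hTEL : S_TEL k) (hTOE : S_TOE k) (hEQV : S_EQV k) (hSH : S_SH k) (hLX : S_LX k) :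
    S_TOW k := by
  intro X
  choose X' u hinj heqv hco using hSTEP
  let Z : ℕ → Cx (Al k) := fun m => Nat.rec (Q.objPreimage X) (fun _ W => X' W) m
  let v : ∀ m, Z m ⟶ Z (m + 1) := fun m => u (Z m)
  obtain ⟨Y, j, h, hse, hj, hji, hjs⟩ := hTEL Z v (fun m q => hinj (Z m) q)
  have hex : (fil Y).Ex := hTOE Z v Y j hj hji hjs (fun m n t h1 h2 => hco (Z m) n t h1 h2)
  have hloc : Loc (cy (JM k)) (Q.obj Y) := (hLX Y).2 hex
  have he : Eqv (cy (JM k)) (Q.map (j 0)) :=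
    hEQV (cy (JM k)) Z v Y j h hse hj (fun m => heqv (Z m))
  let e : Q.obj (Z 0) ≅ X := Q.objObjPreimageIso X
  obtain ⟨W, f, g, hT⟩ := distinguished_cocone_triangle₁ (Q.map (j 0))
  have hacy : Acy (cy (JM k)) W := ((hSH (cy (JM k))).2.1 _ hT).2 he
  refine ⟨Triangle.mk (f ≫ e.hom) (e.inv ≫ Q.map (j 0)) g, ?_, rfl, hacy, hloc⟩
  refine isomorphic_distinguished _ hT _ ?_
  refine Triangle.isoMk _ _ (Iso.refl _) e.symm (Iso.refl _) ?_ ?_ ?_
  · change (f ≫ e.hom) ≫ e.inv = 𝟙 W ≫ f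
    rw [Category.assoc, e.hom_inv_id, Category.comp_id, Category.id_comp]
  · change (e.inv ≫ Q.map (j 0)) ≫ 𝟙 (Q.obj Y) = e.inv ≫ Q.map (j 0)
    rw [Category.comp_id]
  · change g ≫ (shiftFunctor _ (1 : ℤ)).map (𝟙 W) = 𝟙 (Q.obj Y) ≫ g
    rw [CategoryTheory.Functor.map_id, Category.comp_id, Category.id_comp]

end Pool.Agent.P.MP_3d2265_gt.DT
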