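import Pool.Agent.P.MP_3d2265_gt.DT.Iface

/-! Step TRI. -/

set_option linter.unusedSectionVars false
set_option linter.unusedVariables false

namespace Pool.Agent.P.MP_3d2265_gt.DT

open CategoryTheory Limits Pretriangulated DerivedCategory Finset
open scoped Classical

universe w

theorem p_TRI (k : Type) [Field k] [HasDerivedCategory.{w} (ModuleCat.{0} (Al k))] :
    S_TRI k := by
  intro N₁ N₂ N₃ f g hf hfg hg C j
  let S := ShortComplex.mk f g (ModuleCat.hom_ext (LinearMap.ext hfg.apply_apply_eq_zero))
  have hS : S.ShortExact := ModuleCat.shortComplex_shortExact S hfg hf hg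
  have hT := triangleOfSES_distinguished (hS.map_of_exact (sg j))
  refine ⟨fun c hc => Triangle.coyoneda_exact₂ _ hT c hc, fun h c => Triangle.coyoneda_exact₃ _ hT c ?_,
    fun h c hc => ?_⟩
  · let e := ((singleFunctors _).shiftIso 1 (j - 1) j (by omega)).app N₁
    exact (cancel_mono e.hom).1 ((h _).trans zero_comp.symm)
  · obtain ⟨c', rfl⟩ := Triangle.coyoneda_exact₂ _ (inv_rot_of_distTriang _ hT) c hc
    let e := ((singleFunctors _).shiftIso (-1) (j + 1) j (by omega)).app N₃
    have : c' = 0 := (cancel_mono e.hom).1 ((h _).trans zero_comp.symm)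
    rw [this]
    exact zero_comp

end Pool.Agent.P.MP_3d2265_gt.DT
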