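import Pool.Agent.P.MP_3d2265_gt.DT.Iface

/-! Step ZERO. -/

set_option linter.unusedSectionVars false
set_option linter.unusedVariables false

namespace Pool.Agent.P.MP_3d2265_gt.DT

open CategoryTheory Limits Pretriangulated DerivedCategory Finset
open scoped Classical

universe w

theorem ZEROx.bd (k : Type) [Field k] [HasDerivedCategory.{w} (ModuleCat.{0} (Al k))]
    (hQI : S_QI k) (hNUL : S_NUL k) (K : Cx (Al k)) (h : ∀ j N, Hz (Q.obj K) j N) (j : ℤ)
    (z : K.X j) (hz : K.d j (j + 1) z = 0) : ∃ w, z = K.d (j - 1) j w := by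
  let R : Submodule (Al k) (K.X j) := LinearMap.range (K.d (j - 1) j).hom
  let N : ModuleCat.{0} (Al k) := ModuleCat.of _ (K.X j ⧸ R)
  let π : K.X j ⟶ N := ModuleCat.ofHom R.mkQ
  have hπ : ∀ i, (ComplexShape.up ℤ).Rel i j → K.d i j ≫ π = 0 := by
    intro i hi
    obtain rfl : i = j - 1 := by
      have : i + 1 = j := hi
      omega
    exact ModuleCat.hom_ext (LinearMap.ext fun v =>
      (Submodule.Quotient.mk_eq_zero R).2 ⟨v, rfl⟩)
  let φ : K ⟶ (sg j).obj N := HomologicalComplex.mkHomToSingle π hπ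
  obtain ⟨K', s, hs, ⟨H⟩⟩ := hNUL K _ φ (h j N (Q.map φ))
  obtain ⟨z', w, hz', e⟩ := ((hQI _ _ s).1 hs j).1 z hz
  have h1 := H.comm j
  rw [dNext_eq _ (show (ComplexShape.up ℤ).Rel j (j + 1) from rfl),
    prevD_eq _ (show (ComplexShape.up ℤ).Rel (j - 1) j from sub_add_cancel j 1)] at h1
  have h2 : ((sg j).obj N).d (j - 1) j = 0 := HomologicalComplex.single_obj_d _ _ _ _ _
  rw [h2, comp_zero, add_zero, HomologicalComplex.zero_f, add_zero, HomologicalComplex.comp_f,
    HomologicalComplex.mkHomToSingle_f, ← Category.assoc, Iso.comp_inv_eq] at h1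
  have h3 : π (s.f j z') = 0 := by
    rw [← ModuleCat.comp_apply, h1, ModuleCat.comp_apply, ModuleCat.comp_apply, hz', map_zero,
      map_zero]
  obtain ⟨v, hv⟩ := (Submodule.Quotient.mk_eq_zero R).1 h3
  exact ⟨v + w, by rw [map_add, e, ← hv]⟩

theorem p_ZERO (k : Type) [Field k] [HasDerivedCategory.{w} (ModuleCat.{0} (Al k))]
    (hQI : S_QI k) (hNUL : S_NUL k) :
    S_ZERO k := by
  intro C h
  let K : Cx (Al k) := Q.objPreimage C
  let e : Q.obj K ≅ C := Q.objObjPreimageIso C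
  have hK : ∀ j N, Hz (Q.obj K) j N := fun j N f => by
    rw [← e.hom_inv_id_assoc f, h j N (e.inv ≫ f), comp_zero]
  have hq : QuasiIso (0 : K ⟶ K) := (hQI _ _ _).2 fun q =>
    ⟨fun z hz => by
      obtain ⟨w, hw⟩ := ZEROx.bd k hQI hNUL K hK q z hz
      exact ⟨0, w, map_zero _, by rw [map_zero, zero_add, hw]⟩,
    fun z _ hz _ => ZEROx.bd k hQI hNUL K hK q z hz⟩
  have hi : IsIso (Q.map (0 : K ⟶ K)) := inferInstance
  rw [Functor.map_zero] at hi
  exact IsZero.of_iso ((isIsoZero_iff_source_target_isZero _ _).1 hi).1 e.symm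

end Pool.Agent.P.MP_3d2265_gt.DT
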