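import Pool.Agent.P.MP_3d2265_gt.DT.TQI
import Pool.Agent.P.MP_3d2265_gt.DT.TNUL
import Pool.Agent.P.MP_3d2265_gt.DT.TCOP
import Pool.Agent.P.MP_3d2265_gt.DT.TPROD
import Pool.Agent.P.MP_3d2265_gt.DT.TPEX
import Pool.Agent.P.MP_3d2265_gt.DT.TRES
import Pool.Agent.P.MP_3d2265_gt.DT.TREPA
import Pool.Agent.P.MP_3d2265_gt.DT.TREPB
import Pool.Agent.P.MP_3d2265_gt.DT.TLX
import Pool.Agent.P.MP_3d2265_gt.DT.TDD
import Pool.Agent.P.MP_3d2265_gt.DT.TEXT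
import Pool.Agent.P.MP_3d2265_gt.DT.TLOC
import Pool.Agent.P.MP_3d2265_gt.DT.TSUM
import Pool.Agent.P.MP_3d2265_gt.DT.TTEL
import Pool.Agent.P.MP_3d2265_gt.DT.TTOE
import Pool.Agent.P.MP_3d2265_gt.DT.TSH
import Pool.Agent.P.MP_3d2265_gt.DT.TEQV
import Pool.Agent.P.MP_3d2265_gt.DT.TSTEP
import Pool.Agent.P.MP_3d2265_gt.DT.TTOW
import Pool.Agent.P.MP_3d2265_gt.DT.TCPL
import Pool.Agent.P.MP_3d2265_gt.DT.TKZL
import Pool.Agent.P.MP_3d2265_gt.DT.TKZB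
import Pool.Agent.P.MP_3d2265_gt.DT.TKZV
import Pool.Agent.P.MP_3d2265_gt.DT.TMAP
import Pool.Agent.P.MP_3d2265_gt.DT.TTRI
import Pool.Agent.P.MP_3d2265_gt.DT.TCOV
import Pool.Agent.P.MP_3d2265_gt.DT.TBND
import Pool.Agent.P.MP_3d2265_gt.DT.TFG
import Pool.Agent.P.MP_3d2265_gt.DT.TNAK
import Pool.Agent.P.MP_3d2265_gt.DT.TCH
import Pool.Agent.P.MP_3d2265_gt.DT.TLAY
import Pool.Agent.P.MP_3d2265_gt.DT.TZERO
import Pool.Agent.P.MP_3d2265_gt.DT.TNOC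

/-! All steps put together. -/

namespace Pool.Agent.P.MP_3d2265_gt.DT

open CategoryTheory Limits Pretriangulated

universe w

variable (k : Type) [Field k] [HasDerivedCategory.{w} (ModuleCat.{0} (Al k))]

theorem q_QI : S_QI k := p_QI k
theorem q_NUL : S_NUL k := p_NUL k
theorem q_COP : S_COP k := p_COP k (q_QI k) (q_NUL k)
theorem q_PROD : S_PROD k := p_PROD k (q_QI k)
theorem q_PEX : S_PEX k := p_PEX k
theorem q_RES : S_RES k := p_RES k (q_QI k) (q_PEX k)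
theorem q_REPA : S_REPA k := p_REPA k
theorem q_REPB : S_REPB k := p_REPB k
theorem q_LX : S_LX k := p_LX k (q_REPA k) (q_REPB k) (q_RES k)
theorem q_DD : S_DD k := p_DD k
theorem q_EXT : S_EXT k := p_EXT k
theorem q_LOC : S_LOC k := p_LOC k (q_DD k) (q_EXT k)
theorem q_SUM : S_SUM k := p_SUM k (q_LOC k)
theorem q_TEL : S_TEL k := p_TEL k
theorem q_TOE : S_TOE k := p_TOE k (q_LOC k)
theorem q_SH : S_SH k := p_SH k
theorem q_EQV : S_EQV k := p_EQV k (q_SH k) (q_COP k)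
theorem q_STEP : S_STEP k := p_STEP k (q_REPA k) (q_REPB k) (q_RES k) (q_COP k) (q_SH k)
theorem q_TOW : S_TOW k := p_TOW k (q_STEP k) (q_TEL k) (q_TOE k) (q_EQV k) (q_SH k) (q_LX k)
theorem q_CPL : S_CPL k := p_CPL k (q_COP k) (q_SUM k) (q_LX k) (q_SH k)
theorem q_KZL : S_KZL k := p_KZL k (q_LX k)
theorem q_KZB : S_KZB k := p_KZB k
theorem q_KZV : S_KZV k := p_KZV k
theorem q_MAP : S_MAP k := p_MAP k
theorem q_TRI : S_TRI k := p_TRI k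
theorem q_COV : S_COV k := p_COV k (q_COP k) (q_TRI k)
theorem q_BND : S_BND k := p_BND k (q_COP k) (q_PROD k)
theorem q_FG : S_FG k := p_FG k (q_COV k) (q_PROD k)
theorem q_NAK : S_NAK k := p_NAK k (q_FG k)
theorem q_CH : S_CH k := p_CH k (q_TRI k) (q_MAP k) (q_KZL k) (q_KZB k) (q_KZV k) (q_NAK k)
theorem q_LAY : S_LAY k := p_LAY k (q_COV k) (q_TRI k)
theorem q_ZERO : S_ZERO k := p_ZERO k (q_QI k) (q_NUL k)
theorem q_NOC : S_NOC k := p_NOC k (q_BND k) (q_CH k) (q_LAY k) (q_ZERO k) (q_KZL k) (q_KZB k)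

end Pool.Agent.P.MP_3d2265_gt.DT
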