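import Pool.Agent.P.MP_3d2265_gt.DT.Iface

/-! Step EXT. -/

set_option linter.unusedSectionVars false
set_option linter.unusedVariables false

namespace Pool.Agent.P.MP_3d2265_gt.DT

open CategoryTheory Limits Pretriangulated DerivedCategory Finset
open scoped Classical

universe w

namespace EXTx

variable {k : Type} [Field k] {T : Type} [AddCommGroup T] [Module (Al k) T] (F : Fil (Al k) T)

/-- the homogeneous component -/
def pi (p : ℤ) : T →ₗ[Al k] T := F.τ p - F.τ (p - 1)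

variable {F}

theorem pi_apply (p : ℤ) (t : T) : pi F p t = F.τ p t - F.τ (p - 1) t := rfl

theorem pi_D {p q : ℤ} (h : p + 1 = q) (t : T) : pi F q (F.D t) = F.D (pi F p t) := by
  rw [pi_apply, pi_apply, map_sub, F.τD p q t h, F.τD (p - 1) (q - 1) t (by omega)]

theorem pi_σ (p : ℤ) (t : T) : pi F p (F.σ t) = F.σ (pi F p t) := by
  rw [pi_apply, pi_apply, map_sub, F.τσ, F.τσ]

theorem pi_low {p q : ℤ} {t : T} (h : F.τ p t = t) (hq : p < q) : pi F q t = 0 := by
  rw [pi_apply, Fil.τ_mono h hq.le, Fil.τ_mono h (by omega), sub_self]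

theorem τ_pi {p q : ℤ} (h : q ≤ p) (t : T) : F.τ p (pi F q t) = pi F q t := by
  rw [pi_apply, map_sub, F.ττ, F.ττ, min_eq_right h, min_eq_right (by omega)]

theorem τ_pi' {p q : ℤ} (h : p < q) (t : T) : F.τ p (pi F q t) = 0 := by
  rw [pi_apply, map_sub, F.ττ, F.ττ, min_eq_left h.le, min_eq_left (by omega), sub_self]

variable {S : AddSubgroup T}

/-- a cycle `a₀` with `y a₀` a boundary -/
theorem stepB (hS : ∀ n m t, F.τ n t - F.τ m t ∈ S) (H : F.ExA S) (p : ℤ) (a c : T)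
    (ha : (bs .e0 : Al k) • a = a) (hc : (bs .e1 : Al k) • c = c)
    (h0 : F.D (pi F (p - 1) a) = 0)
    (h1 : F.D (pi F (p - 2) c) = F.σ ((bs .y : Al k) • pi F (p - 1) a)) :
    ∃ κ μ : T, (bs .e1 : Al k) • κ = κ ∧ (bs .e2 : Al k) • μ = μ ∧ F.D (pi F (p - 1) κ) = 0 ∧
      F.σ ((bs .rz : Al k) • pi F (p - 1) a) =
        F.D (pi F (p - 2) μ) + F.σ ((bs .p : Al k) • pi F (p - 1) κ) := by
  have hv : F.Co p ![0, (bs .z : Al k) • pi F (p - 1) a, 0, (bs .r : Al k) • pi F (p - 2) c] :=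
    Fil.co_iff.2 (by simp [smul_smul, e1_z, e2_r, τ_pi])
  obtain ⟨r, hr, -, e⟩ := H p _ hv (fun i => by
    fin_cases i
    exacts [S.zero_mem, map_smul (pi F _) _ a ▸ hS _ _ _, S.zero_mem,
      map_smul (pi F _) _ c ▸ hS _ _ _]) (by
    rw [hv.δ_eq]
    funext i
    fin_cases i <;> simp [h0, h1, smul_smul, q_z])
  rw [hr.δ_eq] at e
  have e0 : F.D (r 0) + F.σ ((bs .l : Al k) • r 0) = 0 := congrFun e 0
  have e1 : F.D (r 1) + F.σ ((bs .x : Al k) • r 0) = (bs .z : Al k) • pi F (p - 1) a := congrFun e 1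
  have t0 := (Fil.co_iff.1 hr).1.2
  have f0 : F.D (pi F (p - 1) (r 0)) = 0 := by
    have := congrArg (pi F p) e0
    rwa [map_add, pi_D (p := p - 1) (by omega), pi_σ, map_smul, pi_low (q := p) t0 (by omega), smul_zero,
      map_zero, add_zero, map_zero] at this
  have f1 := congrArg (fun t => F.σ ((bs .r : Al k) • pi F (p - 1) t)) e1
  simp only [map_add, pi_D (show p - 2 + 1 = p - 1 by omega), pi_σ, map_smul, smul_add, smul_smul,
    r_z, F.σσ] at f1
  refine ⟨F.σ ((bs .z : Al k) • r 0), -F.σ ((bs .r : Al k) • r 1), ?_, ?_, ?_, ?_⟩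
  · rw [← map_smul, smul_smul, e1_z]
  · rw [smul_neg, ← map_smul, smul_smul, e2_r]
  · simp only [pi_σ, map_smul, F.Dσ, f0, map_zero, neg_zero, smul_zero]
  · simp only [map_neg, pi_σ, map_smul, F.Dσ, smul_neg, neg_neg, F.σσ, smul_smul, p_z, f1]
    rw [pi_apply (p - 1) (pi F _ a), τ_pi le_rfl, τ_pi' (by omega), sub_zero]

end EXTx

open EXTx in
theorem p_EXT (k : Type) [Field k] [HasDerivedCategory.{w} (ModuleCat.{0} (Al k))] :
    S_EXT k := by
  intro T _ _ F S hS H n p t hp ht hG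
  rw [ht.δ_eq] at hG
  obtain ⟨g0, g1, g2, g3⟩ := hG
  obtain ⟨⟨a0, a1⟩, ⟨b0, b1⟩, ⟨c0, c1⟩, d0, d1⟩ := Fil.co_iff.1 ht
  simp only [Matrix.cons_val] at g0 g1 g2 g3
  have hD : F.D (pi F (p - 1) (t 0)) = -F.σ ((bs .l : Al k) • pi F p (t 0)) := by
    have := pi_low (q := p) g0 (by omega)
    rwa [map_add, pi_D (p := p - 1) (by omega), pi_σ, map_smul, add_eq_zero_iff_eq_neg] at this
  have hu : F.Co p ![F.D (pi F (p - 1) (t 0)), 0, 0, 0] := Fil.co_iff.2 (by
    simp [← map_smul, a0, F.τD (p - 1) p _ (by omega), τ_pi])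
  obtain ⟨s, hs, sS, e⟩ := H p _ hu (fun i => by
    fin_cases i
    exacts [pi_D (F := F) (show p - 1 + 1 = p by omega) (t 0) ▸ hS _ _ _, S.zero_mem, S.zero_mem,
      S.zero_mem]) (by
    rw [hu.δ_eq]
    funext i
    have h1 : F.τ (p - 1) (F.D (pi F (p - 1) (t 0))) = 0 := by
      rw [F.τD (p - 2) _ _ (by omega), τ_pi' (by omega), map_zero]
    have h2 := F.DD (pi F (p - 1) (t 0))
    fin_cases i <;> simp [h1, h2] <;> simp [hD, smul_smul, l_l, x_l, y_l])
  rw [hs.δ_eq] at e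
  have e0 : F.D (s 0) + F.σ ((bs .l : Al k) • s 0) = F.D (pi F (p - 1) (t 0)) := congrFun e 0
  have e1 : F.D (s 1) + F.σ ((bs .x : Al k) • s 0) = 0 := congrFun e 1
  have e2 : F.D (s 2) + F.σ ((bs .y : Al k) • s 0) = 0 := congrFun e 2
  have e3 : F.D (s 3) + F.σ ((bs .p : Al k) • s 2 - (bs .q : Al k) • s 1 -
    (bs .rz : Al k) • F.τ (p - 1 - 1) (s 0)) = 0 := congrFun e 3
  obtain ⟨⟨sa0, sa1⟩, ⟨sb0, sb1⟩, ⟨sc0, sc1⟩, sd0, sd1⟩ := Fil.co_iff.1 hs
  obtain ⟨κ, μ, k0, m0, k1, m1⟩ := stepB hS H p (t 0 - s 0) (s 2 - t 2)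
    (by rw [smul_sub, a0, sa0]) (by rw [smul_sub, c0, sc0]) (by
      have := congrArg (pi F p) e0
      rw [map_add, pi_D (p := p - 1) (by omega), pi_σ, map_smul, pi_low (q := p) sa1 (by omega), smul_zero,
        map_zero, add_zero, pi_apply p (F.D _), F.τD (p - 1) p _ (by omega),
        F.τD (p - 2) _ _ (by omega), τ_pi le_rfl, τ_pi' (by omega), map_zero, sub_zero] at this
      rw [map_sub, map_sub, this, sub_self]) (by
      have h1 := pi_low (q := p - 1) g2 (by omega)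
      have h2 := congrArg (pi F (p - 1)) e2
      simp only [map_add, pi_D (show p - 2 + 1 = p - 1 by omega), pi_σ, map_smul, map_zero, map_sub,
        smul_sub] at h1 h2 ⊢
      linear_combination (norm := abel1) h2 - h1)
  have ht' : F.Co n ![t 0 - F.τ (p - 1) (t 0) + s 0, t 1 - F.τ (p - 2) (t 1) + s 1,
      t 2 - F.τ (p - 2) (t 2) + s 2 - pi F (p - 1) κ,
      t 3 - F.τ (p - 3) (t 3) + s 3 - pi F (p - 2) μ] := Fil.co_iff.2 (by
    simp only [Matrix.cons_val, smul_add, smul_sub, ← map_smul, a0, b0, c0, d0, sa0, sb0, sc0, sd0,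
      k0, m0, true_and]
    simp only [map_add, map_sub, F.ττ, a1, b1, c1, d1, Fil.τ_mono sa1 (show p - 1 ≤ n by omega),
      Fil.τ_mono sb1 (show p - 1 - 1 ≤ n - 1 by omega),
      Fil.τ_mono sc1 (show p - 1 - 1 ≤ n - 1 by omega),
      Fil.τ_mono sd1 (show p - 1 - 2 ≤ n - 2 by omega), τ_pi (show p - 1 ≤ n - 1 by omega),
      τ_pi (show p - 2 ≤ n - 2 by omega), min_eq_right (show p - 1 ≤ n by omega),
      min_eq_right (show p - 2 ≤ n - 1 by omega), min_eq_right (show p - 3 ≤ n - 2 by omega),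
      and_self])
  obtain ⟨s', hs', -, e'⟩ := H n _ ht' (fun i => by
    fin_cases i
    · exact S.add_mem (by simpa only [a1] using hS n (p - 1) (t 0)) (sS 0)
    · exact S.add_mem (by simpa only [b1] using hS (n - 1) (p - 2) (t 1)) (sS 1)
    · exact S.sub_mem (S.add_mem (by simpa only [c1] using hS (n - 1) (p - 2) (t 2)) (sS 2))
        (hS _ _ _)
    · exact S.sub_mem (S.add_mem (by simpa only [d1] using hS (n - 2) (p - 3) (t 3)) (sS 3))
        (hS _ _ _)) (by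
    rw [ht'.δ_eq]
    have G0 := Fil.τ_mono g0 (show p - 1 - 1 ≤ p - 1 by omega)
    have G1 := Fil.τ_mono g1 (show p - 1 - 1 ≤ p - 1 by omega)
    have G2 := Fil.τ_mono g2 (show p - 1 - 1 ≤ p - 1 by omega)
    have G3 := Fil.τ_mono g3 (show p - 1 - 2 ≤ p - 2 by omega)
    have E : p - 1 - 1 = p - 2 := by ring
    simp only [map_add, map_sub, F.τσ, map_smul, F.τD (p - 2) (p - 1) _ (by omega),
      F.τD (p - 3) (p - 2) _ (by omega), F.ττ, min_eq_left (show p - 2 ≤ n - 1 by omega), pi_apply,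
      E, smul_sub, sa1] at G0 G1 G2 G3 e0 e1 e2 e3 m1 ⊢
    funext i
    fin_cases i <;> simp only [Fin.reduceFinMk, Matrix.cons_val, Pi.zero_apply, map_add, map_sub,
      smul_add, smul_sub, F.ττ, min_eq_right (show p - 1 ≤ n - 1 by omega),
      Fil.τ_mono sa1 (show p - 1 ≤ n - 1 by omega)]
    · linear_combination (norm := abel1) e0 - G0
    · linear_combination (norm := abel1) e1 - G1
    · rw [pi_apply, map_sub, E] at k1
      linear_combination (norm := abel1) e2 - G2 - k1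
    · linear_combination (norm := abel1) e3 - G3 + m1)
  refine ⟨s', hs', ?_⟩
  rw [e']
  simp only [Fil.G, Pi.sub_apply, Matrix.cons_val, map_sub, map_add, F.ττ, sa1,
    Fil.τ_mono sb1 (show p - 1 - 1 ≤ p - 1 by omega),
    Fil.τ_mono sc1 (show p - 1 - 1 ≤ p - 1 by omega),
    Fil.τ_mono sd1 (show p - 1 - 2 ≤ p - 2 by omega), τ_pi le_rfl, min_self,
    min_eq_right (show p - 2 ≤ p - 1 by omega), min_eq_right (show p - 3 ≤ p - 2 by omega)]
  refine ⟨?_, ?_, ?_, ?_⟩ <;> abel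

end Pool.Agent.P.MP_3d2265_gt.DT
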