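import Pool.Agent.P.MP_3d2265_gt.DT.Iface

/-! Step KZB. -/

set_option linter.unusedSectionVars false
set_option linter.unusedVariables false

namespace Pool.Agent.P.MP_3d2265_gt.DT

open CategoryTheory Limits Pretriangulated DerivedCategory Finset
open scoped Classical

universe w

namespace KZBx

variable {k : Type} [Field k]

theorem k1 : KZ k (Al k ⧸ J1 k) where
  hl v := by
    obtain ⟨v, rfl⟩ := Submodule.Quotient.mk_surjective _ v
    rw [← Submodule.Quotient.mk_smul, Submodule.Quotient.mk_eq_zero, mem_J1]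
    simp [mc]
  h0 v h _ _ := by
    obtain ⟨v, rfl⟩ := Submodule.Quotient.mk_surjective _ v
    rw [← Submodule.Quotient.mk_smul, Submodule.Quotient.eq, mem_J1] at h
    rw [Submodule.Quotient.mk_eq_zero, mem_J1]
    simpa [mc] using h
  h1 b c hb hc h := by
    obtain ⟨b, rfl⟩ := Submodule.Quotient.mk_surjective _ b
    obtain ⟨c, rfl⟩ := Submodule.Quotient.mk_surjective _ c
    rw [← Submodule.Quotient.mk_smul, Submodule.Quotient.eq, mem_J1] at hb hc
    rw [← Submodule.Quotient.mk_smul, ← Submodule.Quotient.mk_smul, Submodule.Quotient.eq,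
      mem_J1] at h
    simp [mc] at hb hc h
    refine ⟨0, smul_zero _, (smul_zero _).trans (Eq.symm ?_), (smul_zero _).trans (Eq.symm ?_)⟩
    · rw [Submodule.Quotient.mk_eq_zero, mem_J1]
      exact ⟨h.2, hb⟩
    · rw [Submodule.Quotient.mk_eq_zero, mem_J1]
      exact ⟨h.1, hc⟩
  h2 d hd := by
    obtain ⟨d, rfl⟩ := Submodule.Quotient.mk_surjective _ d
    rw [← Submodule.Quotient.mk_smul, Submodule.Quotient.eq, mem_J1] at hd
    simp [mc] at hd
    refine ⟨Submodule.Quotient.mk ((-d .q) • bs .e1), Submodule.Quotient.mk (d .p • bs .e1),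
      ?_, ?_, ?_⟩
    · rw [← Submodule.Quotient.mk_smul, Submodule.Quotient.eq, mem_J1]
      simp [mc]
    · rw [← Submodule.Quotient.mk_smul, Submodule.Quotient.eq, mem_J1]
      simp [mc]
    · rw [← Submodule.Quotient.mk_smul, ← Submodule.Quotient.mk_smul, ← Submodule.Quotient.mk_sub,
        Submodule.Quotient.eq, mem_J1]
      simp [mc, hd]

theorem kD : KZ k (Al k ⧸ JD k) where
  hl v := by
    obtain ⟨v, rfl⟩ := Submodule.Quotient.mk_surjective _ v
    rw [← Submodule.Quotient.mk_smul, Submodule.Quotient.mk_eq_zero, mem_JD]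
    simp [mc]
  h0 v h hx _ := by
    obtain ⟨v, rfl⟩ := Submodule.Quotient.mk_surjective _ v
    rw [← Submodule.Quotient.mk_smul, Submodule.Quotient.eq, mem_JD] at h
    rw [← Submodule.Quotient.mk_smul, Submodule.Quotient.mk_eq_zero, mem_JD] at hx
    rw [Submodule.Quotient.mk_eq_zero, mem_JD]
    simp [mc] at h hx
    obtain ⟨h1, h2, h3, h4, h5⟩ := h
    exact ⟨hx, h1, h2, h3, by linear_combination -h4, h5⟩
  h1 b c hb hc h := by
    obtain ⟨b, rfl⟩ := Submodule.Quotient.mk_surjective _ b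
    obtain ⟨c, rfl⟩ := Submodule.Quotient.mk_surjective _ c
    rw [← Submodule.Quotient.mk_smul, Submodule.Quotient.eq, mem_JD] at hb hc
    rw [← Submodule.Quotient.mk_smul, ← Submodule.Quotient.mk_smul, Submodule.Quotient.eq,
      mem_JD] at h
    simp [mc] at hb hc h
    refine ⟨Submodule.Quotient.mk (b .x • bs .e0), ?_, ?_, ?_⟩
    · rw [← Submodule.Quotient.mk_smul, Submodule.Quotient.eq, mem_JD]
      simp [mc]
    · rw [← Submodule.Quotient.mk_smul, Submodule.Quotient.eq, mem_JD]
      simp [mc, hb.1, hb.2, h.2.2]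
    · rw [← Submodule.Quotient.mk_smul, Submodule.Quotient.eq, mem_JD]
      simp [mc, hc.1, hc.2, h.1, h.2.1]
  h2 d hd := by
    obtain ⟨d, rfl⟩ := Submodule.Quotient.mk_surjective _ d
    rw [← Submodule.Quotient.mk_smul, Submodule.Quotient.eq, mem_JD] at hd
    simp [mc] at hd
    refine ⟨Submodule.Quotient.mk ((-d .qy) • bs .y),
      Submodule.Quotient.mk (d .px • bs .x + (d .py + d .qx) • bs .y), ?_, ?_, ?_⟩
    · rw [← Submodule.Quotient.mk_smul, Submodule.Quotient.eq, mem_JD]
      simp [mc]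
    · rw [← Submodule.Quotient.mk_smul, Submodule.Quotient.eq, mem_JD]
      simp [mc]
    · rw [← Submodule.Quotient.mk_smul, ← Submodule.Quotient.mk_smul, ← Submodule.Quotient.mk_sub,
        Submodule.Quotient.eq, mem_JD]
      simp [mc, hd]

end KZBx

theorem p_KZB (k : Type) [Field k] [HasDerivedCategory.{w} (ModuleCat.{0} (Al k))] :
    S_KZB k := ⟨KZBx.k1, KZBx.kD⟩

end Pool.Agent.P.MP_3d2265_gt.DT
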