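import Pool.Agent.P.MP_3d2265_gt.DT.Iface

/-! Step NOC. -/

set_option linter.unusedSectionVars false
set_option linter.unusedVariables false

namespace Pool.Agent.P.MP_3d2265_gt.DT

open CategoryTheory Limits Pretriangulated DerivedCategory Finset
open scoped Classical

universe w

theorem p_NOC (k : Type) [Field k] [HasDerivedCategory.{w} (ModuleCat.{0} (Al k))]
    (hBND : S_BND k) (hCH : S_CH k) (hLAY : S_LAY k) (hZERO : S_ZERO k) (hKZL : S_KZL k) (hKZB : S_KZB k) :
    S_NOC k := by
  refine ⟨fun h => ?_, fun C hC hA => hZERO C fun j => ?_⟩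
  · have e : 𝟙 (cy (JM k)) = 0 := (sd 0).map_injective (h.eq_of_src _ _)
    have e' := congrArg (fun f : cy (JM k) ⟶ cy (JM k) => f (Submodule.Quotient.mk (bs .e0))) e
    simpa using ((Submodule.Quotient.mk_eq_zero _).1 e').1
  · obtain ⟨i, hi⟩ := hBND C hC
    rcases le_total j i with h | h
    · exact hi j h
    · induction j, h using Int.leInduction with
      | base => exact hi i le_rfl
      | succ j _ ih =>
        rw [← add_sub_cancel_right j 1] at ih
        exact hLAY C _ hC ih (hCH C _ hC hA ih) (hA _ (hKZL _ hKZB.1 _)) (hA _ (hKZL _ hKZB.2 _))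

end Pool.Agent.P.MP_3d2265_gt.DT
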