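import Pool.Agent.P.MP_3d2265_gt.DT.Iface

/-! Step QI. -/

set_option linter.unusedSectionVars false
set_option linter.unusedVariables false

namespace Pool.Agent.P.MP_3d2265_gt.DT

open CategoryTheory Limits Pretriangulated DerivedCategory Finset
open scoped Classical

universe w

namespace QIx
variable {A : Type} [Ring A]

/-- the map from the ring with a given value at one -/
noncomputable def pt {M : ModuleCat.{0} A} (z : M) : ModuleCat.of A A ⟶ M :=
  ModuleCat.ofHom (LinearMap.toSpanSingleton A M z)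

theorem pt_one {M : ModuleCat.{0} A} (z : M) : pt z (1 : A) = z := one_smul A z

theorem pt_ext {M : ModuleCat.{0} A} {f g : ModuleCat.of A A ⟶ M} (h : f (1 : A) = g (1 : A)) :
    f = g := ModuleCat.hom_ext (LinearMap.ext_ring h)

/-- the map from the free module on `X` with given values -/
noncomputable def fr {X : Type} {M : ModuleCat.{0} A} (z : X → M) :
    ModuleCat.of A (X →₀ A) ⟶ M := ModuleCat.ofHom (Finsupp.linearCombination A z)

theorem fr_single {X : Type} {M : ModuleCat.{0} A} (z : X → M) (x : X) :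
    fr z (Finsupp.single x (1 : A)) = z x :=
  (Finsupp.linearCombination_single A 1 x).trans (one_smul A _)

theorem fr_ext {X : Type} {M : ModuleCat.{0} A} {f g : ModuleCat.of A (X →₀ A) ⟶ M}
    (h : ∀ x, f (Finsupp.single x (1 : A)) = g (Finsupp.single x (1 : A))) : f = g :=
  ModuleCat.hom_ext (Finsupp.lhom_ext' fun x => LinearMap.ext_ring (h x))

theorem epi_fr (M : ModuleCat.{0} A) : Epi (fr (id : M → M)) :=
  (ModuleCat.epi_iff_surjective _).2 fun x => ⟨_, fr_single id x⟩

theorem qi {K L : Cx A} (f : K ⟶ L) : QuasiIso f ↔ QE f := by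
  rw [quasiIso_iff]
  refine forall_congr' fun q => ?_
  rw [quasiIsoAt_iff_isIso_homologyMap, isIso_iff_mono_and_epi, and_comm,
    HomologicalComplex.mono_homologyMap_iff_up_to_refinements f (q - 1) q (q + 1) (by simp)
      (by simp),
    HomologicalComplex.epi_homologyMap_iff_up_to_refinements f (q - 1) q (q + 1) (by simp)
      (by simp)]
  refine and_congr ⟨fun h z hz => ?_, fun h M y hy => ?_⟩ ⟨fun h z w hz e => ?_, fun h M x hx y e => ?_⟩
  · obtain ⟨M, π, hπ, x, hx, y, e⟩ := h (pt z) (pt_ext (by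
      rw [ModuleCat.comp_apply, pt_one, hz]; rfl))
    obtain ⟨m, hm⟩ := (ModuleCat.epi_iff_surjective π).1 hπ (1 : A)
    refine ⟨x m, y m, congrArg (fun g => g m) hx, ?_⟩
    have e' : pt z (π m) = f.f q (x m) + L.d (q - 1) q (y m) := congrArg (fun g => g m) e
    rwa [hm, pt_one] at e'
  · choose a b h1 h2 using fun m : M => h (y m) (congrArg (fun g => g m) hy)
    refine ⟨_, fr id, epi_fr M, fr a, fr_ext fun m => ?_, fr b, fr_ext fun m => ?_⟩
    · rw [ModuleCat.comp_apply, fr_single, h1]; rfl
    · change y (fr id _) = f.f q (fr a _) + L.d (q - 1) q (fr b _)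
      rw [fr_single, fr_single, fr_single]
      exact h2 m
  · obtain ⟨M, π, hπ, x, e'⟩ := h (pt z) (pt_ext (by
      rw [ModuleCat.comp_apply, pt_one, hz]; rfl)) (pt w) (pt_ext (by
      rw [ModuleCat.comp_apply, ModuleCat.comp_apply, pt_one, pt_one, e]))
    obtain ⟨m, hm⟩ := (ModuleCat.epi_iff_surjective π).1 hπ (1 : A)
    refine ⟨x m, ?_⟩
    have e'' : pt z (π m) = K.d (q - 1) q (x m) := congrArg (fun g => g m) e'
    rwa [hm, pt_one] at e''
  · choose a h1 using fun m : M =>
      h (x m) (y m) (congrArg (fun g => g m) hx) (congrArg (fun g => g m) e)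
    refine ⟨_, fr id, epi_fr M, fr a, fr_ext fun m => ?_⟩
    change x (fr id _) = K.d (q - 1) q (fr a _)
    rw [fr_single, fr_single]
    exact h1 m

end QIx

theorem p_QI (k : Type) [Field k] [HasDerivedCategory.{w} (ModuleCat.{0} (Al k))] :
    S_QI k := fun _ _ f => QIx.qi f

end Pool.Agent.P.MP_3d2265_gt.DT
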